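import Pool.Agent.H472.VP.Stmts
import Pool.Graph.R_seed8.TH900.VPS.Final

/-! Assembly. -/

set_option autoImplicit false

namespace Pool.Agent.H472.VP

open Finset
open Pool.Agent.W89.VP (VS VN VD)

theorem vn_core (h15 : S15) (k κ N0 : ℕ) (hc : Core (k + 1) κ N0) :
    ∃ C : ℝ, 0 ≤ C ∧ ∀ N : ℕ, 1 ≤ N → ((VN (k + 1) k N).card : ℝ) ≤ C * (N : ℝ) ^ ((κ : ℝ) + 2) := by
  apply Pool.Agent.TH900.VPS.vn_bound
    (Pool.Agent.W156.PVRED.main Pool.Agent.W346.PV.Newt.main)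
  intro d hd hds
  have hd1 : d = 1 := by omega
  subst hd1
  obtain ⟨C, hC, h⟩ := h15 k κ N0 hc
  refine ⟨C, hC, fun N hN => (h N hN).trans (le_of_eq ?_)⟩
  rw [← Real.rpow_natCast]
  congr 2
  push_cast
  ring

/-- the three bounds -/
theorem final (h14 : S14) (h15 : S15) (h16 : S16) :
    (∀ k : ℕ, 1 ≤ k → ∀ J : ℕ, 1 ≤ J → ∃ C : ℝ, ∀ N : ℕ, 1 ≤ N →
      ((VN (k + 1) k N).card : ℝ) ≤ C * (N : ℝ) ^
        ((4 : ℝ) ^ J * (10 ^ 4 * J * ((k : ℝ) + 1) ^ ((1 : ℝ) / J) + 10 ^ 6 * Real.log (k + 1)))) ∧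
    (∀ k : ℕ, 1 ≤ k → ∃ C : ℝ, ∀ N : ℕ, 1 ≤ N →
      ((VN (k + 1) k N).card : ℝ) ≤ C * (N : ℝ) ^ Real.exp (40 * Real.sqrt (Real.log (k + 1)))) ∧
    (∀ δ : ℝ, 0 < δ → ∃ k0 : ℕ, ∀ k : ℕ, k0 ≤ k → ∃ C : ℝ, ∀ N : ℕ, 1 ≤ N →
      ((VN (k + 1) k N).card : ℝ) ≤ C * (N : ℝ) ^ ((k : ℝ) ^ δ)) := by
  have hA : ∀ k : ℕ, 1 ≤ k → ∀ J : ℕ, 1 ≤ J → ∃ C : ℝ, 0 ≤ C ∧ ∀ N : ℕ, 1 ≤ N →
      ((VN (k + 1) k N).card : ℝ) ≤ C * (N : ℝ) ^
        ((4 : ℝ) ^ J * (10 ^ 4 * J * ((k : ℝ) + 1) ^ ((1 : ℝ) / J) + 10 ^ 6 * Real.log (k + 1))) := by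
    intro k hk J hJ
    obtain ⟨rho, R, h1, h2, h3⟩ := h16.1 k J hk hJ
    obtain ⟨N0, hN0⟩ := h14 (k + 1) J rho R (by omega) hJ h1 h2
    obtain ⟨C, hC, h⟩ := vn_core h15 k _ N0 hN0
    refine ⟨C, hC, fun N hN => (h N hN).trans ?_⟩
    exact mul_le_mul_of_nonneg_left
      (Real.rpow_le_rpow_of_exponent_le (by exact_mod_cast hN) h3) hC
  have hB : ∀ k : ℕ, 1 ≤ k → ∃ C : ℝ, 0 ≤ C ∧ ∀ N : ℕ, 1 ≤ N →
      ((VN (k + 1) k N).card : ℝ) ≤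
        C * (N : ℝ) ^ Real.exp (40 * Real.sqrt (Real.log (k + 1))) := by
    intro k hk
    obtain ⟨J, hJ, h3⟩ := h16.2 k hk
    obtain ⟨C, hC, h⟩ := hA k hk J hJ
    refine ⟨C, hC, fun N hN => (h N hN).trans ?_⟩
    exact mul_le_mul_of_nonneg_left
      (Real.rpow_le_rpow_of_exponent_le (by exact_mod_cast hN) h3) hC
  refine ⟨fun k hk J hJ => ?_, fun k hk => ?_, fun δ hδ => ?_⟩
  · obtain ⟨C, -, h⟩ := hA k hk J hJ
    exact ⟨C, h⟩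
  · obtain ⟨C, -, h⟩ := hB k hk
    exact ⟨C, h⟩
  · have hlim : Filter.Tendsto (fun k : ℕ => Real.log ((k : ℝ) + 1)) Filter.atTop Filter.atTop :=
      Real.tendsto_log_atTop.comp
        (Filter.tendsto_atTop_add_const_right _ _ tendsto_natCast_atTop_atTop)
    have hev := (hlim.eventually_ge_atTop ((80 / δ) ^ 2)).and (Filter.eventually_ge_atTop 2)
    obtain ⟨k0, hk0⟩ := Filter.eventually_atTop.1 hev
    refine ⟨k0, fun k hk => ?_⟩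
    obtain ⟨hlog, hk2⟩ := hk0 k hk
    have hk1 : 1 ≤ k := by omega
    obtain ⟨C, hC, h⟩ := hB k hk1
    refine ⟨C, fun N hN => (h N hN).trans ?_⟩
    apply mul_le_mul_of_nonneg_left _ hC
    apply Real.rpow_le_rpow_of_exponent_le (by exact_mod_cast hN)
    have hk1r : (1 : ℝ) ≤ k := by exact_mod_cast hk1
    have hkp : (0 : ℝ) < k := by linarith
    rw [Real.rpow_def_of_pos hkp]
    apply Real.exp_le_exp.2
    set L := Real.log ((k : ℝ) + 1) with hL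
    have hL0 : 0 ≤ L := Real.log_nonneg (by linarith)
    have h1 : 80 / δ ≤ Real.sqrt L := Real.le_sqrt_of_sq_le hlog
    have h2 : L ≤ 2 * Real.log k := by
      have hk2r : (2 : ℝ) ≤ k := by exact_mod_cast hk2
      have h5 : (k : ℝ) + 1 ≤ (k : ℝ) ^ 2 := by nlinarith
      have h6 := Real.log_le_log (by linarith : (0 : ℝ) < (k : ℝ) + 1) h5
      rw [Real.log_pow] at h6
      push_cast at h6
      exact h6
    have h3 : Real.sqrt L * Real.sqrt L = L := Real.mul_self_sqrt hL0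
    have h4 : 80 ≤ δ * Real.sqrt L := by
      rw [div_le_iff₀ hδ] at h1
      linarith
    nlinarith [Real.sqrt_nonneg L]

end Pool.Agent.H472.VP
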