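import Mathlib

/-! Definitions for the lattice ring attached to a matrix of differences. -/

set_option autoImplicit false

namespace Pool.Agent.H472.VP

open Finset

/-- the points: rows `inl i` and columns `inr j` -/
abbrev Pt (s : ℕ) : Type := Fin s ⊕ Fin s

/-- the divisibility conditions at the primes of `K`; the integral `w` with this property form a ring
under pointwise addition and multiplication -/
def InL {s : ℕ} (α : ℕ → Fin s → Fin s → ℕ) (K : Finset ℕ) (w : Pt s → ℤ) : Prop :=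
  ∀ q ∈ K, ∀ i j, ((q : ℤ) ^ (α q i j)) ∣ w (Sum.inl i) - w (Sum.inr j)

open Classical in
/-- the elements of sup norm at most `R` -/
noncomputable def XX {s : ℕ} (α : ℕ → Fin s → Fin s → ℕ) (K : Finset ℕ) (R : ℕ) :
    Finset (Pt s → ℤ) :=
  (Fintype.piFinset fun _ : Pt s => Finset.Icc (-(R : ℤ)) (R : ℤ)).filter (fun w => InL α K w)

/-- the class vector of `w` at `q` -/
def cls {s : ℕ} (α : ℕ → Fin s → Fin s → ℕ) (q : ℕ) (w : Pt s → ℤ) : Fin s × Fin s → ℤ :=
  fun p => (w (Sum.inl p.1) - w (Sum.inr p.2)) % ((q : ℤ) ^ (α q p.1 p.2))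

/-- the number of class vectors at `q` of the elements of norm at most `R` -/
noncomputable def hc {s : ℕ} (α : ℕ → Fin s → Fin s → ℕ) (K : Finset ℕ) (q R : ℕ) : ℕ :=
  ((XX α K R).image (cls α q)).card

/-- some element of norm at most `R` violates the condition at `q` at a pair containing `p` -/
def Bad {s : ℕ} (α : ℕ → Fin s → Fin s → ℕ) (K : Finset ℕ) (R q : ℕ) (p : Pt s) : Prop :=
  ∃ w ∈ XX α K R, ∃ i j, (p = Sum.inl i ∨ p = Sum.inr j) ∧
    ¬ ((q : ℤ) ^ (α q i j)) ∣ w (Sum.inl i) - w (Sum.inr j)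

open Classical in
/-- the primes of `Q1` at which `p` is not bad -/
noncomputable def Gd {s : ℕ} (α : ℕ → Fin s → Fin s → ℕ) (Q1 K : Finset ℕ) (R : ℕ) (p : Pt s) :
    Finset ℕ := Q1.filter (fun q => ¬ Bad α K R q p)

/-- logarithmic weight -/
noncomputable def wt (ν : ℕ → ℕ) (S : Finset ℕ) : ℝ := ∑ q ∈ S, (ν q : ℝ) * Real.log (q : ℝ)

/-- rational version of an integral vector -/
def cf {P : Type} (w : P → ℤ) : P → ℚ := fun p => (w p : ℚ)

/-- rational span -/
def VV {P : Type} (A : Finset (P → ℤ)) : Submodule ℚ (P → ℚ) :=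
  Submodule.span ℚ (cf '' (A : Set (P → ℤ)))

/-- rank of a finite set of integral vectors -/
noncomputable def rk {P : Type} (A : Finset (P → ℤ)) : ℕ := Module.finrank ℚ (VV A)

/-- the data: a finite set of primes, exponents with constant row and column sums, and bounded
products -/
structure Dat (s N : ℕ) where
  Q : Finset ℕ
  α : ℕ → Fin s → Fin s → ℕ
  ν : ℕ → ℕ
  prime : ∀ q ∈ Q, q.Prime
  row : ∀ q ∈ Q, ∀ i, ∑ j, α q i j = ν q
  col : ∀ q ∈ Q, ∀ j, ∑ i, α q i j = ν q
  pos : ∀ q ∈ Q, 1 ≤ ν q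
  prod : ∀ i j, ∏ q ∈ Q, q ^ α q i j ≤ N

end Pool.Agent.H472.VP
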