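import Pool.Agent.H472.VP.Stmts

/-! S1 (count of lattice points and classes), helper249 for helper472. -/

set_option autoImplicit false

namespace Pool.Agent.H472.VP

open Finset

namespace T1

variable {s : ℕ} {α : ℕ → Fin s → Fin s → ℕ} {K : Finset ℕ}

open Classical in
theorem mem_XX {R : ℕ} {w : Pt s → ℤ} :
    w ∈ XX α K R ↔ (∀ p, -(R : ℤ) ≤ w p ∧ w p ≤ (R : ℤ)) ∧ InL α K w := by
  unfold XX
  rw [Finset.mem_filter, Fintype.mem_piFinset]
  simp only [Finset.mem_Icc]

theorem inL_add {u v : Pt s → ℤ} (hu : InL α K u) (hv : InL α K v) : InL α K (u + v) := by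
  intro q hq i j
  have h1 := dvd_add (hu q hq i j) (hv q hq i j)
  have e : (u + v) (Sum.inl i) - (u + v) (Sum.inr j) =
      u (Sum.inl i) - u (Sum.inr j) + (v (Sum.inl i) - v (Sum.inr j)) := by
    simp only [Pi.add_apply]
    ring
  rw [e]
  exact h1

theorem inL_sub {u v : Pt s → ℤ} (hu : InL α K u) (hv : InL α K v) : InL α K (u - v) := by
  intro q hq i j
  have h1 := dvd_sub (hu q hq i j) (hv q hq i j)
  have e : (u - v) (Sum.inl i) - (u - v) (Sum.inr j) =
      u (Sum.inl i) - u (Sum.inr j) - (v (Sum.inl i) - v (Sum.inr j)) := by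
    simp only [Pi.sub_apply]
    ring
  rw [e]
  exact h1

theorem cls_add {q : ℕ} {u v : Pt s → ℤ} (hu : InL α (insert q K) u) :
    cls α q (u + v) = cls α q v := by
  funext p
  obtain ⟨k, hk⟩ := hu q (Finset.mem_insert_self q K) p.1 p.2
  unfold cls
  have e : (u + v) (Sum.inl p.1) - (u + v) (Sum.inr p.2) =
      v (Sum.inl p.1) - v (Sum.inr p.2) + (q : ℤ) ^ α q p.1 p.2 * k := by
    rw [← hk]
    simp only [Pi.add_apply]
    ring
  rw [e, Int.add_mul_emod_self_left]

theorem part1 (q R : ℕ) :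
    (XX α (insert q K) R).card * hc α K q R ≤ (XX α K (2 * R)).card := by
  unfold hc
  rw [← Finset.card_product]
  have hex : ∀ c : Fin s × Fin s → ℤ, ∃ v : Pt s → ℤ, c ∈ (XX α K R).image (cls α q) →
      v ∈ XX α K R ∧ cls α q v = c := by
    intro c
    by_cases hc : c ∈ (XX α K R).image (cls α q)
    · obtain ⟨v, hv, hvc⟩ := Finset.mem_image.1 hc
      exact ⟨v, fun _ => ⟨hv, hvc⟩⟩
    · exact ⟨0, fun h => absurd h hc⟩
  choose v hv using hex
  refine Finset.card_le_card_of_injOn (fun p : (Pt s → ℤ) × (Fin s × Fin s → ℤ) =>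
    p.1 + v p.2) ?_ ?_
  · rintro ⟨u, c⟩ hp
    rw [Finset.mem_coe, Finset.mem_product] at hp
    obtain ⟨hu, hc⟩ := hp
    have hu' : u ∈ XX α (insert q K) R := hu
    have hc' : c ∈ (XX α K R).image (cls α q) := hc
    rw [mem_XX] at hu'
    have hv' := (hv c hc').1
    rw [mem_XX] at hv'
    rw [Finset.mem_coe, mem_XX]
    constructor
    · intro p
      have h1 := hu'.1 p
      have h2 := hv'.1 p
      simp only [Pi.add_apply]
      push_cast
      omega
    · refine inL_add (fun q' hq' => ?_) hv'.2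
      exact hu'.2 q' (Finset.mem_insert_of_mem hq')
  · rintro ⟨u, c⟩ hp ⟨u', c'⟩ hp' he
    rw [Finset.mem_coe, Finset.mem_product] at hp hp'
    have hu : u ∈ XX α (insert q K) R := hp.1
    have hc : c ∈ (XX α K R).image (cls α q) := hp.2
    have hu' : u' ∈ XX α (insert q K) R := hp'.1
    have hc' : c' ∈ (XX α K R).image (cls α q) := hp'.2
    have he' : u + v c = u' + v c' := he
    have h1 : cls α q (u + v c) = c := by
      rw [cls_add ((mem_XX.1 hu).2)]
      exact (hv c hc).2
    have h2 : cls α q (u' + v c') = c' := by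
      rw [cls_add ((mem_XX.1 hu').2)]
      exact (hv c' hc').2
    have h3 : c = c' := by rw [← h1, ← h2, he']
    subst h3
    have h4 : u = u' := add_right_cancel he'
    rw [h4]

/-- the interval -/
def bx (R : ℕ) (t : ℤ) : Fin 4 :=
  if t ≤ -(R : ℤ) then 0 else if t ≤ 0 then 1 else if t ≤ (R : ℤ) then 2 else 3

theorem bx_sub {R : ℕ} {t t' : ℤ} (h : bx R t = bx R t') (h1 : -(2 * R : ℤ) ≤ t)
    (h2 : t ≤ 2 * R) (h1' : -(2 * R : ℤ) ≤ t') (h2' : t' ≤ 2 * R) :
    -(R : ℤ) ≤ t - t' ∧ t - t' ≤ (R : ℤ) := by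
  unfold bx at h
  split_ifs at h <;> omega

theorem part2 (R : ℕ) : (XX α K (2 * R)).card ≤ (XX α K R).card * 4 ^ (2 * s) := by
  have h1 := Finset.card_le_mul_card_image (f := fun (w : Pt s → ℤ) (p : Pt s) => bx R (w p))
    (XX α K (2 * R)) (XX α K R).card (by
      intro g _
      rcases ((XX α K (2 * R)).filter fun w => (fun p => bx R (w p)) = g).eq_empty_or_nonempty
        with h0 | ⟨w0, hw0⟩
      · rw [h0]
        exact Nat.zero_le _
      · rw [Finset.mem_filter, mem_XX] at hw0
        obtain ⟨⟨hb0, hL0⟩, hg0⟩ := hw0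
        refine Finset.card_le_card_of_injOn (fun w => w - w0) ?_ ?_
        · intro w hw
          rw [Finset.mem_coe, Finset.mem_filter, mem_XX] at hw
          obtain ⟨⟨hb, hL⟩, hg⟩ := hw
          rw [Finset.mem_coe, mem_XX]
          refine ⟨fun p => ?_, inL_sub hL hL0⟩
          have h2 : bx R (w p) = bx R (w0 p) := by
            rw [← hg0] at hg
            exact congrFun hg p
          have h3 := hb p
          have h4 := hb0 p
          push_cast at h3 h4
          exact bx_sub h2 h3.1 h3.2 h4.1 h4.2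
        · intro w _ w' _ he
          exact sub_left_injective he)
  refine h1.trans (Nat.mul_le_mul_left _ ?_)
  refine (Finset.card_le_univ _).trans (le_of_eq ?_)
  rw [Fintype.card_fun, Fintype.card_fin, Fintype.card_sum, Fintype.card_fin]
  congr 1
  omega

end T1

open T1

theorem pf_S1 : S1 := by
  intro s α K q R
  refine (part1 q R).trans ((part2 R).trans (le_of_eq ?_))
  rw [mul_comm, pow_mul]
  norm_num

end Pool.Agent.H472.VP
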