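import Pool.Agent.H472.VP.Stmts

set_option autoImplicit false

namespace Pool.Agent.H472.VP.T10

open Finset Pool.Agent.H472.VP

theorem q_le {s N : ℕ} (D : Dat s N) (hs : 1 ≤ s) {q : ℕ} (hq : q ∈ D.Q) : q ≤ N := by
  have h1 := D.row q hq ⟨0, hs⟩
  have h2 := D.pos q hq
  have h3 : ∃ j, D.α q ⟨0, hs⟩ j ≠ 0 := by
    by_contra hcon
    push Not at hcon
    rw [Finset.sum_eq_zero (fun j _ => hcon j)] at h1
    omega
  obtain ⟨j, hj⟩ := h3
  have h4 := D.prod ⟨0, hs⟩ j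
  refine le_trans ?_ h4
  refine (Nat.le_self_pow hj q).trans ?_
  refine Nat.le_of_dvd (Finset.prod_pos fun q hq => pow_pos (D.prime q hq).pos _) ?_
  exact Finset.dvd_prod_of_mem (fun q => q ^ D.α q ⟨0, hs⟩ j) hq

theorem log_le {s N : ℕ} (D : Dat s N) (Q1 : Finset ℕ) (hQ1 : Q1 ⊆ D.Q) (i j : Fin s) :
    ∑ q ∈ Q1, (D.α q i j : ℝ) * Real.log q ≤ Real.log N := by
  have h0 : ∀ q ∈ Q1, 0 < q := fun q hq => (D.prime q (hQ1 hq)).pos
  have h1 : ∏ q ∈ Q1, q ^ D.α q i j ≤ N := by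
    refine le_trans ?_ (D.prod i j)
    refine Nat.le_of_dvd (Finset.prod_pos fun q hq => pow_pos (D.prime q hq).pos _) ?_
    exact Finset.prod_dvd_prod_of_subset _ _ _ hQ1
  have h2 : (∏ q ∈ Q1, (q : ℝ) ^ D.α q i j) ≤ N := by exact_mod_cast h1
  have h3 : ∀ q ∈ Q1, (q : ℝ) ^ D.α q i j ≠ 0 := fun q hq => by
    have : (0 : ℝ) < q := by exact_mod_cast h0 q hq
    positivity
  have h4 : 0 < ∏ q ∈ Q1, (q : ℝ) ^ D.α q i j := Finset.prod_pos fun q hq => by
    have : (0 : ℝ) < q := by exact_mod_cast h0 q hq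
    positivity
  have h5 := Real.log_le_log h4 h2
  rw [Real.log_prod h3] at h5
  refine le_trans (le_of_eq ?_) h5
  refine Finset.sum_congr rfl fun q _ => ?_
  rw [Real.log_pow]

theorem zero_of {N L : ℕ} (hN : 2 ≤ N) (Z : Finset ℕ) (hZ : ∀ q ∈ Z, q.Prime) (a : ℕ → ℕ) (x : ℤ)
    (hdiv : ∀ q ∈ Z, (q : ℤ) ^ a q ∣ x) (hx : |x| ≤ (N : ℤ) ^ (L + 1))
    (hlog : ((L : ℝ) + 2) * Real.log N ≤ ∑ q ∈ Z, (a q : ℝ) * Real.log q) : x = 0 := by
  by_contra hx0
  have h1 : ∏ q ∈ Z, (q : ℤ) ^ a q ∣ x := by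
    refine Finset.prod_dvd_of_coprime ?_ hdiv
    intro q hq q' hq' hne
    show IsCoprime ((q : ℤ) ^ a q) ((q' : ℤ) ^ a q')
    exact (Nat.isCoprime_iff_coprime.2 ((Nat.coprime_primes (hZ q hq) (hZ q' hq')).2 hne)).pow
  have h2 : ∏ q ∈ Z, (q : ℤ) ^ a q ∣ |x| := (dvd_abs _ _).2 h1
  have h3 : ∏ q ∈ Z, (q : ℤ) ^ a q ≤ (N : ℤ) ^ (L + 1) :=
    (Int.le_of_dvd (abs_pos.2 hx0) h2).trans hx
  have h4 : (∏ q ∈ Z, (q : ℝ) ^ a q) ≤ (N : ℝ) ^ (L + 1) := by exact_mod_cast h3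
  have h5 : ∀ q ∈ Z, (0 : ℝ) < (q : ℝ) ^ a q := fun q hq => by
    have : (0 : ℝ) < q := by exact_mod_cast (hZ q hq).pos
    positivity
  have h6 := Real.log_le_log (Finset.prod_pos h5) h4
  rw [Real.log_prod (fun q hq => (h5 q hq).ne'), Real.log_pow] at h6
  have h7 : ∑ q ∈ Z, Real.log ((q : ℝ) ^ a q) = ∑ q ∈ Z, (a q : ℝ) * Real.log q :=
    Finset.sum_congr rfl fun q _ => by rw [Real.log_pow]
  rw [h7] at h6
  have h8 : 0 < Real.log N := Real.log_pos (by exact_mod_cast hN)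
  push_cast at h6
  nlinarith

theorem sup_dvd {k : ℕ} (q : ℕ) (f : Fin k → ℕ) (x : ℤ) (h : ∀ r, (q : ℤ) ^ f r ∣ x) :
    (q : ℤ) ^ (univ.sup f) ∣ x := by
  refine Finset.sup_induction (p := fun a : ℕ => (q : ℤ) ^ a ∣ x) ?_ ?_ (fun r _ => h r)
  · show (q : ℤ) ^ 0 ∣ x
    rw [pow_zero]
    exact one_dvd _
  · intro a ha b hb
    rcases le_total a b with hab | hab
    · rw [sup_eq_right.2 hab]
      exact hb
    · rw [sup_eq_left.2 hab]
      exact ha

theorem numbers (n L lam tc : ℝ) (T : ℝ) (hn : 0 ≤ n) (hL : 0 ≤ L) (hlam : 1 ≤ lam)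
    (hT : 32 * (L + 2) ^ 2 ≤ T) (h1 : tc ≤ 10 * lam + 4 * (n * L + 1) / T)
    (h2 : n ≤ 2 * (L + 2) * tc) : n ≤ 30 * (L + 2) * lam ∧ tc ≤ 14 * lam := by
  have hL2 : 0 < L + 2 := by linarith
  have hT0 : 0 < T := lt_of_lt_of_le (by positivity) hT
  have hX : 0 ≤ n * L + 1 := by positivity
  have h3 : 4 * (n * L + 1) / T ≤ (n * L + 1) / (8 * (L + 2) ^ 2) := by
    rw [div_le_div_iff₀ hT0 (by positivity)]
    nlinarith
  set Y : ℝ := (n * L + 1) / (8 * (L + 2) ^ 2) with hY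
  have hYe : Y * (8 * (L + 2) ^ 2) = n * L + 1 := by
    rw [hY]
    field_simp
  have h4 : tc ≤ 10 * lam + Y := h1.trans (by linarith)
  -- first estimate
  have h5 : n ≤ 2 * (L + 2) * (10 * lam + Y) :=
    h2.trans (mul_le_mul_of_nonneg_left h4 (by positivity))
  have h6 : 4 * (L + 2) * (2 * (L + 2) * Y) = n * L + 1 := by linarith
  have h7 : 2 * (L + 2) * Y ≤ n / 4 + 1 / 8 := by
    have e1 : 4 * (L + 2) * (2 * (L + 2) * Y) ≤ 4 * (L + 2) * (n / 4 + 1 / 8) := by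
      rw [h6]
      nlinarith
    exact le_of_mul_le_mul_left e1 (by positivity)
  have h8 : n ≤ 30 * (L + 2) * lam := by nlinarith
  refine ⟨h8, ?_⟩
  have h9 : Y ≤ 15 / 4 * lam + 1 / 32 := by
    have e1 : Y * (8 * (L + 2) ^ 2) ≤ (15 / 4 * lam + 1 / 32) * (8 * (L + 2) ^ 2) := by
      rw [hYe]
      have e2 : n * L ≤ 30 * (L + 2) * lam * L := mul_le_mul_of_nonneg_right h8 hL
      have e3 : 30 * (L + 2) * lam * L ≤ 30 * (L + 2) * lam * (L + 2) :=
        mul_le_mul_of_nonneg_left (by linarith) (by positivity)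
      have e4 : (4 : ℝ) ≤ (L + 2) ^ 2 := by nlinarith
      nlinarith
    exact le_of_mul_le_mul_right e1 (by positivity)
  linarith

end Pool.Agent.H472.VP.T10

namespace Pool.Agent.H472.VP

open Finset T10

theorem pf_S10 (h5 : S5) (h6 : S6) (h7 : S7) (h9 : S9) : S10 := by
  classical
  intro s N L d t lam D K0 K T hs hN4 hN2 hfac hd ht hst hlam hT hK0K hKQ hdν hW hhc
  set Q1 : Finset ℕ := D.Q \ K0 with hQ1d
  have hQ1 : Q1 ⊆ D.Q := Finset.sdiff_subset
  have hN2' : 2 ≤ N := by omega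
  have hlogN : 0 < Real.log N := Real.log_pos (by exact_mod_cast hN2')
  have hL0 : (0 : ℝ) ≤ L := Nat.cast_nonneg _
  have hT0 : 0 < T := lt_of_lt_of_le (by positivity) hT
  have hT16 : 16 * ((L : ℝ) + 2) ≤ T := by
    refine le_trans ?_ hT
    nlinarith
  have h2sN : 2 * s ≤ N := by nlinarith
  have hlam1 : 1 ≤ lam := (Nat.mul_pos hd ht).trans_le hlam
  set A := XX D.α K (N ^ L) with hA
  set NF : Finset (Pt s) := univ.filter
    (fun p => 2 * wt D.ν (Gd D.α Q1 K (N ^ (L + 1)) p) < wt D.ν Q1) with hNF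
  obtain ⟨w, e, hwA, he, hdet, hS7⟩ := h7 (Pt s) A NF
  have hn2s : rk A ≤ 2 * s := by
    have h1 := Fintype.card_le_of_injective e he
    rw [Fintype.card_fin, Fintype.card_sum, Fintype.card_fin] at h1
    omega
  have hfac' : (rk A).factorial ≤ N := (Nat.factorial_le hn2s).trans hfac
  set F : Finset (Fin (rk A)) := univ.filter (fun b => e b ∈ NF) with hF
  have hFcard := h5 s N L (L + 1) lam (rk A) d D.α D.ν K Q1 T hT0 hd hs h2sN hfac'
    (fun q hq => ⟨D.prime q (hQ1 hq), q_le D hs (hQ1 hq), hdν q hq⟩)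
    (fun q hq => by
      have e1 : L + (L + 1) + 4 = 2 * L + 5 := by omega
      rw [e1]
      refine hhc q ?_
      rw [Finset.mem_sdiff] at hq ⊢
      exact ⟨hQ1 hq.1, hq.2⟩)
    w hwA e he hdet hW F (fun b hb => by
      rw [hF, Finset.mem_filter, hNF, Finset.mem_filter] at hb
      exact hb.2.2)
  -- catching columns and rows
  obtain ⟨Jc, hJc⟩ := h6 s N L d t D.α D.ν Q1 T hs hN2' hd ht hst hT16
    (fun q hq => ⟨D.prime q (hQ1 hq), hdν q hq, D.row q (hQ1 hq)⟩)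
    (fun i j => log_le D Q1 hQ1 i j) hW (fun i => Gd D.α Q1 K (N ^ (L + 1)) (Sum.inl i))
    (fun i => Finset.filter_subset _ _)
  obtain ⟨Jr, hJr⟩ := h6 s N L d t (fun q i j => D.α q j i) D.ν Q1 T hs hN2' hd ht hst hT16
    (fun q hq => ⟨D.prime q (hQ1 hq), hdν q hq, D.col q (hQ1 hq)⟩)
    (fun i j => log_le D Q1 hQ1 j i) hW (fun j => Gd D.α Q1 K (N ^ (L + 1)) (Sum.inr j))
    (fun j => Finset.filter_subset _ _)
  set Ta : Finset (Pt s) := (univ.image fun r => (Sum.inr (Jc r) : Pt s)) ∪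
    ((univ.image fun r => (Sum.inl (Jr r) : Pt s)) ∪ F.image e) with hTa
  have hTac : Ta.card ≤ d * t + (d * t + F.card) := by
    rw [hTa]
    refine (Finset.card_union_le _ _).trans ?_
    refine add_le_add ?_ ((Finset.card_union_le _ _).trans (add_le_add ?_ Finset.card_image_le))
    · exact Finset.card_image_le.trans (by rw [Finset.card_univ, Fintype.card_fin])
    · exact Finset.card_image_le.trans (by rw [Finset.card_univ, Fintype.card_fin])
  have hclaim : ∀ u ∈ XX D.α K (N ^ (L + 1)), cf u ∈ VV A → (∀ p ∈ Ta, u p = 0) → u = 0 := by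
    intro u hu hcu hTu
    have hub : ∀ p, |u p| ≤ (N : ℤ) ^ (L + 1) := by
      intro p
      unfold XX at hu
      rw [Finset.mem_filter, Fintype.mem_piFinset] at hu
      have h1 := hu.1 p
      rw [Finset.mem_Icc] at h1
      push_cast at h1
      exact abs_le.2 h1
    have hNFu : ∀ p ∈ NF, u p = 0 := by
      refine hS7 u hcu fun b hb => hTu _ ?_
      rw [hTa]
      refine Finset.mem_union_right _ (Finset.mem_union_right _ (Finset.mem_image.2 ⟨b, ?_, rfl⟩))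
      rw [hF, Finset.mem_filter]
      exact ⟨Finset.mem_univ _, hb⟩
    have hcu0 : ∀ r, u (Sum.inr (Jc r)) = 0 := fun r => hTu _ (by
      rw [hTa]
      exact Finset.mem_union_left _ (Finset.mem_image.2 ⟨r, Finset.mem_univ _, rfl⟩))
    have hru0 : ∀ r, u (Sum.inl (Jr r)) = 0 := fun r => hTu _ (by
      rw [hTa]
      exact Finset.mem_union_right _ (Finset.mem_union_left _
        (Finset.mem_image.2 ⟨r, Finset.mem_univ _, rfl⟩)))
    have hfroz : ∀ p, p ∉ NF → wt D.ν Q1 ≤ 2 * wt D.ν (Gd D.α Q1 K (N ^ (L + 1)) p) := by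
      intro p hp
      rw [hNF, Finset.mem_filter] at hp
      push Not at hp
      exact hp (Finset.mem_univ _)
    funext p
    show u p = 0
    by_cases hp : p ∈ NF
    · exact hNFu p hp
    have hfp := hfroz p hp
    rcases p with i | j
    · have hlog := hJc i hfp
      refine zero_of hN2' (Gd D.α Q1 K (N ^ (L + 1)) (Sum.inl i)) ?_
        (fun q => univ.sup fun r => D.α q i (Jc r)) (u (Sum.inl i)) ?_ (hub _) hlog
      · intro q hq
        unfold Gd at hq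
        rw [Finset.mem_filter] at hq
        exact D.prime q (hQ1 hq.1)
      · intro q hq
        unfold Gd at hq
        rw [Finset.mem_filter] at hq
        refine sup_dvd q _ _ fun r => ?_
        by_contra hnd
        apply hq.2
        refine ⟨u, hu, i, Jc r, Or.inl rfl, ?_⟩
        rw [hcu0, sub_zero]
        exact hnd
    · have hlog := hJr j hfp
      refine zero_of hN2' (Gd D.α Q1 K (N ^ (L + 1)) (Sum.inr j)) ?_
        (fun q => univ.sup fun r => D.α q (Jr r) j) (u (Sum.inr j)) ?_ (hub _) hlog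
      · intro q hq
        unfold Gd at hq
        rw [Finset.mem_filter] at hq
        exact D.prime q (hQ1 hq.1)
      · intro q hq
        unfold Gd at hq
        rw [Finset.mem_filter] at hq
        refine sup_dvd q _ _ fun r => ?_
        by_contra hnd
        apply hq.2
        refine ⟨u, hu, Jr r, j, Or.inr rfl, ?_⟩
        rw [hru0, zero_sub, dvd_neg]
        exact hnd
  have hrk := h9 s N L D.α K hN4 hN2 Ta hclaim
  have hTac' : (Ta.card : ℝ) ≤ 10 * lam + 4 * ((rk A : ℝ) * L + 1) / T := by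
    have e1 : (Ta.card : ℝ) ≤ (d * t : ℕ) + ((d * t : ℕ) + (F.card : ℝ)) := by exact_mod_cast hTac
    have e2 : ((d * t : ℕ) : ℝ) ≤ lam := by exact_mod_cast hlam
    linarith
  have hrk' : (rk A : ℝ) ≤ 2 * ((L : ℝ) + 2) * Ta.card := by exact_mod_cast hrk
  obtain ⟨n1, n2⟩ := numbers (rk A) L lam Ta.card T (Nat.cast_nonneg _) hL0
    (by exact_mod_cast hlam1) hT hTac' hrk'
  exact ⟨by exact_mod_cast n1, Ta, by exact_mod_cast n2, hclaim⟩

end Pool.Agent.H472.VP
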