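import Pool.Agent.H472.VP.Stmts

/-! Proof of S11. -/

set_option autoImplicit false

namespace Pool.Agent.H472.VP

open Finset

namespace T11

theorem LL_succ (j : ℕ) : LL (j + 1) = 2 * LL j + 5 := by
  unfold LL
  have h1 : 1 ≤ 2 ^ j := Nat.one_le_two_pow
  rw [pow_succ]
  omega

theorem LL_zero : LL 0 = 1 := by simp [LL]

theorem LL_mono {i j : ℕ} (h : i ≤ j) : LL i ≤ LL j := by
  unfold LL
  have h1 : 2 ^ i ≤ 2 ^ j := Nat.pow_le_pow_right (by norm_num) h
  omega

theorem XX_zero {s : ℕ} (α : ℕ → Fin s → Fin s → ℕ) (K : Finset ℕ) (R : ℕ) :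
    (0 : Pt s → ℤ) ∈ XX α K R := by
  classical
  unfold XX
  rw [mem_filter, Fintype.mem_piFinset]
  refine ⟨fun p => ?_, fun q _ i j => ?_⟩
  · rw [mem_Icc]
    constructor <;> simp
  · simp

theorem XX_abs {s : ℕ} {α : ℕ → Fin s → Fin s → ℕ} {K : Finset ℕ} {R : ℕ} {w : Pt s → ℤ}
    (h : w ∈ XX α K R) (p : Pt s) : |w p| ≤ (R : ℤ) := by
  classical
  unfold XX at h
  rw [mem_filter, Fintype.mem_piFinset] at h
  have h1 := mem_Icc.1 (h.1 p)
  exact abs_le.2 h1

theorem XX_mono {s : ℕ} {α : ℕ → Fin s → Fin s → ℕ} {K : Finset ℕ} {R R' : ℕ} (hR : R ≤ R') :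
    XX α K R ⊆ XX α K R' := by
  classical
  intro w h
  unfold XX at h ⊢
  rw [mem_filter, Fintype.mem_piFinset] at h ⊢
  refine ⟨fun p => ?_, h.2⟩
  have h1 := mem_Icc.1 (h.1 p)
  have h2 : (R : ℤ) ≤ R' := by exact_mod_cast hR
  exact mem_Icc.2 ⟨by omega, by omega⟩

/-- the rank is at most the number of coordinates -/
theorem rk_le {s : ℕ} (A : Finset (Pt s → ℤ)) : rk A ≤ 2 * s := by
  unfold rk
  refine (Submodule.finrank_le _).trans ?_
  rw [Module.finrank_pi]
  simp only [Fintype.card_sum, Fintype.card_fin]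
  omega

/-- one step: the product of the new primes -/
theorem step_prod {N a r lam p X B : ℕ} (hN : 4 ≤ N) (hlam : 1 ≤ lam) (hp : 1 ≤ p)
    (h1 : p ^ (2 * lam - 1) ≤ X ^ 2) (h2 : X ≤ (2 * N ^ a + 1) ^ r)
    (h3 : 2 * (a + 1) * r ≤ B * lam) : p ≤ N ^ B := by
  have h4 : p ^ lam ≤ p ^ (2 * lam - 1) := Nat.pow_le_pow_right hp (by omega)
  have h5 : 2 * N ^ a + 1 ≤ N ^ (a + 1) := by
    have h6 : 1 ≤ N ^ a := Nat.one_le_pow _ _ (by omega)
    rw [pow_succ]
    nlinarith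
  have h6 : p ^ lam ≤ (N ^ B) ^ lam := by
    calc p ^ lam ≤ p ^ (2 * lam - 1) := h4
      _ ≤ X ^ 2 := h1
      _ ≤ ((2 * N ^ a + 1) ^ r) ^ 2 := Nat.pow_le_pow_left h2 2
      _ ≤ ((N ^ (a + 1)) ^ r) ^ 2 := Nat.pow_le_pow_left (Nat.pow_le_pow_left h5 r) 2
      _ = N ^ (2 * (a + 1) * r) := by rw [← pow_mul, ← pow_mul]; congr 1; ring
      _ ≤ N ^ (B * lam) := Nat.pow_le_pow_right (by omega) h3
      _ = (N ^ B) ^ lam := by rw [pow_mul]
  exact (Nat.pow_le_pow_iff_left (by omega)).1 h6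

end T11

open T11 in
theorem pf_S11 (h2 : S2) (h8 : S8) (h10 : S10) : S11 := by
  intro s N d t J rho D K0 T hs hN hsN hfN hd ht hst hJ hrho hT hK0 hQ hwt
  have hrho1 : 1 ≤ rho := by
    rcases Nat.eq_zero_or_pos rho with h | h
    · rw [h, zero_pow (by omega)] at hrho
      omega
    · exact h
  obtain ⟨c, hc⟩ : ∃ c, c = 60 * (LL J + 2) ^ 2 * rho := ⟨_, rfl⟩
  have key : ∀ i j : ℕ, j + i = J → ∃ K, K0 ⊆ K ∧ K ⊆ D.Q ∧
      ∏ q ∈ K \ K0, q ≤ (N ^ c) ^ i ∧
      rk (XX D.α K (N ^ LL j)) ≤ 30 * (LL j + 2) * (d * t * rho ^ j) ∧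
      (1 ≤ i → ∃ Ta : Finset (Pt s), Ta.card ≤ 14 * (d * t * rho ^ j) ∧
        ∀ u ∈ XX D.α K (N ^ (LL j + 1)), cf u ∈ VV (XX D.α K (N ^ LL j)) →
          (∀ p ∈ Ta, u p = 0) → u = 0) := by
    intro i
    induction i with
    | zero =>
      intro j hj
      have hjJ : j = J := by omega
      subst hjJ
      refine ⟨K0, Subset.refl _, hK0, ?_, ?_, fun h => absurd h (by norm_num)⟩
      · simp
      · have h1 := rk_le (XX D.α K0 (N ^ LL j))
        have h3 : 1 ≤ d * t := Nat.one_le_iff_ne_zero.2 (by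
          intro h
          rcases Nat.mul_eq_zero.1 h with h | h <;> omega)
        have h4 : rho ^ j ≤ d * t * rho ^ j := Nat.le_mul_of_pos_left _ h3
        have h5 : 2 * (d * t * rho ^ j) ≤ 30 * (LL j + 2) * (d * t * rho ^ j) :=
          Nat.mul_le_mul_right _ (by omega)
        omega
    | succ i ih =>
      intro j hj
      obtain ⟨K', hK1, hK2, hK3, hK4, -⟩ := ih (j + 1) (by omega)
      obtain ⟨lam, hlam⟩ : ∃ lam, lam = d * t * rho ^ j := ⟨_, rfl⟩
      have hrj : 1 ≤ rho ^ j := Nat.one_le_pow _ _ hrho1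
      have h3 : 1 ≤ d * t := Nat.one_le_iff_ne_zero.2 (by
        intro h
        rcases Nat.mul_eq_zero.1 h with h | h <;> omega)
      have hdl : d * t ≤ lam := by
        rw [hlam]
        exact Nat.le_mul_of_pos_right _ hrj
      have hlam1 : 1 ≤ lam := by omega
      obtain ⟨K, hKK, hKQ, hhc, hprod⟩ := h2 s D.α D.Q K' (N ^ LL (j + 1)) lam hlam1 hK2
        (fun q hq => by
          rw [mem_sdiff] at hq
          exact (hQ q (mem_sdiff.2 ⟨hq.1, fun h => hq.2 (hK1 h)⟩)).2)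
      have hK0K : K0 ⊆ K := hK1.trans hKK
      have hX1 : 1 ≤ (XX D.α K (N ^ LL (j + 1))).card :=
        card_pos.2 ⟨_, XX_zero _ _ _⟩
      have hp1 : 1 ≤ ∏ q ∈ K \ K', q := by
        refine Finset.one_le_prod' ?_ 
        intro q hq
        exact (D.prime q (hKQ (mem_sdiff.1 hq).1)).one_lt.le
      have hp2 : (∏ q ∈ K \ K', q) ^ (2 * lam - 1) ≤ (XX D.α K' (N ^ LL (j + 1))).card ^ 2 := by
        refine le_trans ?_ hprod
        exact Nat.le_mul_of_pos_right _ (pow_pos hX1 2)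
      have hcard := h8 (Pt s) (XX D.α K' (N ^ LL (j + 1))) (N ^ LL (j + 1))
        (fun w hw p => XX_abs hw p)
      have hLJ : LL (j + 1) ≤ LL J := LL_mono (by omega)
      have hp3 : ∏ q ∈ K \ K', q ≤ N ^ c := by
        refine step_prod hN hlam1 hp1 hp2 hcard ?_
        calc 2 * (LL (j + 1) + 1) * rk (XX D.α K' (N ^ LL (j + 1)))
            ≤ 2 * (LL (j + 1) + 1) * (30 * (LL (j + 1) + 2) * (d * t * rho ^ (j + 1))) :=
              Nat.mul_le_mul_left _ hK4
          _ = 60 * ((LL (j + 1) + 1) * (LL (j + 1) + 2)) * rho * lam := by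
              rw [hlam, pow_succ]; ring
          _ ≤ 60 * ((LL J + 2) * (LL J + 2)) * rho * lam := by
              apply Nat.mul_le_mul_right
              apply Nat.mul_le_mul_right
              apply Nat.mul_le_mul_left
              exact Nat.mul_le_mul (by omega) (by omega)
          _ = c * lam := by rw [hc]; ring
      have hprod2 : ∏ q ∈ K \ K0, q ≤ (N ^ c) ^ (i + 1) := by
        have h5 : K \ K0 = (K \ K') ∪ (K' \ K0) := by
          ext q
          simp only [mem_sdiff, mem_union]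
          constructor
          · rintro ⟨h6, h7⟩
            by_cases h8 : q ∈ K'
            · exact Or.inr ⟨h8, h7⟩
            · exact Or.inl ⟨h6, h8⟩
          · rintro (⟨h6, h7⟩ | ⟨h6, h7⟩)
            · exact ⟨h6, fun h => h7 (hK1 h)⟩
            · exact ⟨hKK h6, h7⟩
        have h6 : Disjoint (K \ K') (K' \ K0) := by
          rw [disjoint_left]
          intro q hq hq2
          exact (mem_sdiff.1 hq).2 (mem_sdiff.1 hq2).1
        rw [h5, prod_union h6, pow_succ, mul_comm ((N ^ c) ^ i)]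
        exact Nat.mul_le_mul hp3 hK3
      have hten := h10 s N (LL j) d t lam D K0 K T hs hN hsN hfN hd ht hst hdl (by
          refine le_trans ?_ hT
          have h5 : (LL j : ℝ) ≤ LL J := by exact_mod_cast LL_mono (by omega)
          have h6 : (0 : ℝ) ≤ LL j := Nat.cast_nonneg _
          gcongr) hK0K hKQ (fun q hq => (hQ q hq).1) hwt (by
          intro q hq
          have := hhc q hq
          rwa [LL_succ] at this)
      obtain ⟨hr, hTa⟩ := hten
      rw [hlam] at hr hTa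
      exact ⟨K, hK0K, hKQ, hprod2, hr, fun _ => hTa⟩
  obtain ⟨K, hK1, hK2, hK3, hK4, hK5⟩ := key J 0 (by omega)
  refine ⟨K, hK1, hK2, ?_, ?_⟩
  · refine hK3.trans (le_of_eq ?_)
    rw [← pow_mul, hc]
    congr 1
    ring
  · obtain ⟨Ta, hTa1, hTa2⟩ := hK5 hJ
    refine ⟨Ta, by simpa using hTa1, ?_⟩
    intro u hu hz
    rw [LL_zero] at hTa2
    refine hTa2 u (XX_mono ?_ hu) ?_ hz
    · exact Nat.le_self_pow (by norm_num) N
    · rw [pow_one]
      exact Submodule.subset_span ⟨u, by exact_mod_cast hu, rfl⟩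

end Pool.Agent.H472.VP
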