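import Pool.Agent.H472.VP.Stmts

/-! S12: connection. -/

set_option autoImplicit false

namespace Pool.Agent.H472.VP

open Finset

namespace T12

/-- averages: a function of two indices with constant sums over the first one -/
theorem avg {s : ℕ} (hs : 1 ≤ s) (F : Fin s → Fin s → ℝ) (W : ℝ) (hF : ∀ j, ∑ i, F i j = W)
    (A : Finset (Fin s)) : ∃ i0, ∑ j ∈ A, F i0 j ≤ (A.card : ℝ) * (W / s) := by
  have hs0 : (s : ℝ) ≠ 0 := by
    have : (1 : ℝ) ≤ s := by exact_mod_cast hs
    linarith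
  have hne : (Finset.univ : Finset (Fin s)).Nonempty := ⟨⟨0, by omega⟩, Finset.mem_univ _⟩
  have hsum : ∑ i, ∑ j ∈ A, F i j ≤ ∑ _i : Fin s, (A.card : ℝ) * (W / s) := by
    rw [Finset.sum_comm, Finset.sum_congr rfl fun j _ => hF j, Finset.sum_const, Finset.sum_const,
      Finset.card_univ, Fintype.card_fin, nsmul_eq_mul, nsmul_eq_mul]
    apply le_of_eq
    field_simp
  obtain ⟨i0, -, hi0⟩ := Finset.exists_le_of_sum_le hne hsum
  exact ⟨i0, hi0⟩

theorem wt_nonneg (ν : ℕ → ℕ) (S : Finset ℕ) : 0 ≤ wt ν S := by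
  unfold wt
  exact Finset.sum_nonneg fun q _ => mul_nonneg (Nat.cast_nonneg _) (Real.log_natCast_nonneg q)

end T12

open T12 in
theorem pf_S12 : S12 := by
  classical
  intro s N D Q1 hQ1 hs Ta
  set W : ℝ := wt D.ν Q1 with hW
  have hW0 : 0 ≤ W := wt_nonneg _ _
  have hs1 : (1 : ℝ) ≤ s := by exact_mod_cast hs
  have hWs : 0 ≤ W / s := div_nonneg hW0 (by linarith)
  set F : Fin s → Fin s → ℝ := fun i j => ∑ q ∈ Q1, (D.α q i j : ℝ) * Real.log (q : ℝ) with hF
  have hcol : ∀ j, ∑ i, F i j = W := by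
    intro j
    rw [hF, hW]
    unfold wt
    rw [Finset.sum_comm]
    refine Finset.sum_congr rfl fun q hq => ?_
    rw [← Finset.sum_mul]
    congr 1
    exact_mod_cast D.col q (hQ1 hq) j
  have hrow : ∀ i, ∑ j, F i j = W := by
    intro i
    rw [hF, hW]
    unfold wt
    rw [Finset.sum_comm]
    refine Finset.sum_congr rfl fun q hq => ?_
    rw [← Finset.sum_mul]
    congr 1
    exact_mod_cast D.row q (hQ1 hq) i
  set I : Finset (Fin s) := Finset.univ.filter fun i => Sum.inl i ∈ Ta with hI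
  set J : Finset (Fin s) := Finset.univ.filter fun j => Sum.inr j ∈ Ta with hJ
  have hIJ : I.card + J.card ≤ Ta.card := by
    have h1 : I.disjSum J ⊆ Ta := by
      intro p hp
      rcases p with i | j
      · rw [Finset.inl_mem_disjSum, hI, Finset.mem_filter] at hp
        exact hp.2
      · rw [Finset.inr_mem_disjSum, hJ, Finset.mem_filter] at hp
        exact hp.2
    have h2 := Finset.card_le_card h1
    rwa [Finset.card_disjSum] at h2
  obtain ⟨i0, hi0⟩ := avg hs F W hcol J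
  obtain ⟨j0, hj0⟩ := avg hs (fun j i => F i j) W hrow (insert i0 I)
  refine ⟨j0, (insert i0 I).image (fun i => (i, j0)) ∪ J.image (fun j => (i0, j)), ?_, ?_⟩
  · set E : Finset (Fin s × Fin s) :=
      (insert i0 I).image (fun i => (i, j0)) ∪ J.image (fun j => (i0, j)) with hE
    have hlog : ∀ q : ℕ, 0 ≤ Real.log (q : ℝ) := fun q => Real.log_natCast_nonneg q
    have h1 : ∑ q ∈ Q1.filter (fun q => ∃ p ∈ E, D.α q p.1 p.2 ≠ 0), Real.log (q : ℝ) ≤
        ∑ q ∈ Q1, ∑ p ∈ E, (D.α q p.1 p.2 : ℝ) * Real.log (q : ℝ) := by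
      calc ∑ q ∈ Q1.filter (fun q => ∃ p ∈ E, D.α q p.1 p.2 ≠ 0), Real.log (q : ℝ)
          ≤ ∑ q ∈ Q1.filter (fun q => ∃ p ∈ E, D.α q p.1 p.2 ≠ 0),
              ∑ p ∈ E, (D.α q p.1 p.2 : ℝ) * Real.log (q : ℝ) := by
            refine Finset.sum_le_sum fun q hq => ?_
            rw [Finset.mem_filter] at hq
            obtain ⟨-, p, hp, hne⟩ := hq
            have h2 : (1 : ℝ) ≤ (D.α q p.1 p.2 : ℝ) := by
              exact_mod_cast Nat.one_le_iff_ne_zero.mpr hne
            calc Real.log (q : ℝ) = 1 * Real.log (q : ℝ) := (one_mul _).symm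
              _ ≤ (D.α q p.1 p.2 : ℝ) * Real.log (q : ℝ) :=
                mul_le_mul_of_nonneg_right h2 (hlog q)
              _ ≤ _ := Finset.single_le_sum
                (f := fun p : Fin s × Fin s => (D.α q p.1 p.2 : ℝ) * Real.log (q : ℝ))
                (fun p _ => mul_nonneg (Nat.cast_nonneg _) (hlog q)) hp
        _ ≤ _ := Finset.sum_le_sum_of_subset_of_nonneg (Finset.filter_subset _ _)
            fun q _ _ => Finset.sum_nonneg fun p _ => mul_nonneg (Nat.cast_nonneg _) (hlog q)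
    rw [Finset.sum_comm] at h1
    have hF0 : ∀ p : Fin s × Fin s, 0 ≤ F p.1 p.2 := fun p =>
      Finset.sum_nonneg fun q _ => mul_nonneg (Nat.cast_nonneg _) (hlog q)
    have h3 : ∑ p ∈ E, F p.1 p.2 ≤ ∑ i ∈ insert i0 I, F i j0 + ∑ j ∈ J, F i0 j := by
      have h4 : ∑ p ∈ E, F p.1 p.2 ≤ ∑ p ∈ (insert i0 I).image (fun i => (i, j0)), F p.1 p.2 +
          ∑ p ∈ J.image (fun j => (i0, j)), F p.1 p.2 := by
        rw [hE, ← Finset.sum_union_inter]
        exact le_add_of_nonneg_right (Finset.sum_nonneg fun p _ => hF0 p)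
      refine h4.trans (le_of_eq ?_)
      rw [Finset.sum_image, Finset.sum_image]
      · intro a _ b _ h
        exact (Prod.mk.inj h).2
      · intro a _ b _ h
        exact (Prod.mk.inj h).1
    have hc : ((insert i0 I).card : ℝ) ≤ (I.card : ℝ) + 1 := by
      exact_mod_cast Finset.card_insert_le i0 I
    have hIJ' : (I.card : ℝ) + J.card ≤ Ta.card := by exact_mod_cast hIJ
    have hTa : (0 : ℝ) ≤ Ta.card := Nat.cast_nonneg _
    calc ∑ q ∈ Q1.filter (fun q => ∃ p ∈ E, D.α q p.1 p.2 ≠ 0), Real.log (q : ℝ)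
        ≤ ∑ p ∈ E, F p.1 p.2 := h1
      _ ≤ ∑ i ∈ insert i0 I, F i j0 + ∑ j ∈ J, F i0 j := h3
      _ ≤ ((insert i0 I).card : ℝ) * (W / s) + (J.card : ℝ) * (W / s) := add_le_add hj0 hi0
      _ = (((insert i0 I).card : ℝ) + J.card) * (W / s) := by ring
      _ ≤ (2 * (Ta.card : ℝ) + 1) * (W / s) :=
        mul_le_mul_of_nonneg_right (by linarith) hWs
  · intro w hw0 hwE
    have hi0' : w (Sum.inl i0) = 0 := by
      have h := hwE (i0, j0) (Finset.mem_union_left _
        (Finset.mem_image_of_mem _ (Finset.mem_insert_self i0 I)))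
      rw [h]
      exact hw0
    intro p hp
    rcases p with i | j
    · have hi : i ∈ insert i0 I := Finset.mem_insert_of_mem (by
        rw [hI, Finset.mem_filter]
        exact ⟨Finset.mem_univ _, hp⟩)
      have h := hwE (i, j0) (Finset.mem_union_left _ (Finset.mem_image_of_mem _ hi))
      exact h.trans hw0
    · have hj : j ∈ J := by
        rw [hJ, Finset.mem_filter]
        exact ⟨Finset.mem_univ _, hp⟩
      have h := hwE (i0, j) (Finset.mem_union_right _ (Finset.mem_image_of_mem _ hj))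
      exact h.symm.trans hi0'

end Pool.Agent.H472.VP
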