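import Pool.Agent.H472.VP.Defs

/-! Statements of the steps. -/

set_option autoImplicit false

namespace Pool.Agent.H472.VP

open Finset

/-- S1 (count). Choose for each class at `q` a representative `v ∈ XX α K R`.  The map
`(u, class) ↦ u + v` from `XX α (insert q K) R × classes` to `XX α K (2R)` is injective (the class of
`u + v` is the class of `v` because `u` is `0` at `q`).  And `|XX α K (2R)| ≤ 4^(2s) |XX α K R|`: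
cover `[-2R,2R]` by the four intervals `[-2R,-R], [-R,0], [0,R], [R,2R]`; in each of the `4^(2s)` boxes
subtract a fixed element, which maps the box injectively into `XX α K R`. -/
def S1 : Prop := ∀ (s : ℕ) (α : ℕ → Fin s → Fin s → ℕ) (K : Finset ℕ) (q R : ℕ),
  (XX α (insert q K) R).card * hc α K q R ≤ 16 ^ s * (XX α K R).card

/-- S2 (greedy). Induction on `(Q \ K).card`: if some `q ∈ Q \ K` has `q ^ lam < hc α K q R`, then by S1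
`q^lam |XX (insert q K)| ≤ 16^s |XX K|`, square and use `256^s ≤ q`:
`q^(2 lam - 1) |XX (insert q K)|^2 ≤ |XX K|^2`; go on with `insert q K`. -/
def S2 : Prop := ∀ (s : ℕ) (α : ℕ → Fin s → Fin s → ℕ) (Q K : Finset ℕ) (R lam : ℕ), 1 ≤ lam →
  K ⊆ Q → (∀ q ∈ Q \ K, 256 ^ s ≤ q) →
  ∃ K', K ⊆ K' ∧ K' ⊆ Q ∧ (∀ q ∈ Q \ K', hc α K' q R ≤ q ^ lam) ∧
    (∏ q ∈ K' \ K, q) ^ (2 * lam - 1) * (XX α K' R).card ^ 2 ≤ (XX α K R).card ^ 2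

/-- S3 (pattern bound). See the plan. -/
def S3 : Prop := ∀ (s N L m lam n : ℕ) (α : ℕ → Fin s → Fin s → ℕ) (K : Finset ℕ) (q : ℕ),
  q.Prime → q ≤ N → 2 * s ≤ N →
  ∀ w : Fin n → Pt s → ℤ, (∀ a, w a ∈ XX α K (N ^ L)) →
  ∀ e : Fin n → Pt s, Function.Injective e →
  ∀ T : Finset (Fin n), (∀ b ∈ T, Bad α K (N ^ m) q (e b)) →
  hc α K q (N ^ (L + m + 4)) ≤ q ^ lam →
  T.card ≤ 4 * lam + 2 * (n - ((Matrix.of fun a b => ((w a (e b) : ℤ) : ZMod q))).rank)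

/-- S4 (determinant). -/
def S4 : Prop := ∀ (n B : ℕ) (M : Matrix (Fin n) (Fin n) ℤ), M.det ≠ 0 → (∀ a b, |M a b| ≤ (B : ℤ)) →
  ∀ S : Finset ℕ, (∀ q ∈ S, q.Prime) →
  ∏ q ∈ S, q ^ (n - (M.map (Int.cast : ℤ → ZMod q)).rank) ≤ n.factorial * B ^ n

/-- S5 (few non-frozen points). -/
def S5 : Prop := ∀ (s N L m lam n d : ℕ) (α : ℕ → Fin s → Fin s → ℕ) (ν : ℕ → ℕ)
  (K Q1 : Finset ℕ) (T : ℝ), 0 < T → 1 ≤ d → 1 ≤ s → 2 * s ≤ N → n.factorial ≤ N →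
  (∀ q ∈ Q1, q.Prime ∧ q ≤ N ∧ d * ν q ≤ s) →
  (∀ q ∈ Q1 \ K, hc α K q (N ^ (L + m + 4)) ≤ q ^ lam) →
  ∀ w : Fin n → Pt s → ℤ, (∀ a, w a ∈ XX α K (N ^ L)) →
  ∀ e : Fin n → Pt s, Function.Injective e → (Matrix.of fun a b => w a (e b)).det ≠ 0 →
  T * (s / d) * Real.log N ≤ wt ν Q1 →
  ∀ F : Finset (Fin n), (∀ b ∈ F, 2 * wt ν (Gd α Q1 K (N ^ m) (e b)) < wt ν Q1) →
  (F.card : ℝ) ≤ 8 * lam + 4 * ((n : ℝ) * L + 1) / T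

/-- S6 (catching columns), from the library lemma `cov_card`. -/
def S6 : Prop := ∀ (s N L d t : ℕ) (α : ℕ → Fin s → Fin s → ℕ) (ν : ℕ → ℕ) (Q1 : Finset ℕ) (T : ℝ),
  1 ≤ s → 2 ≤ N → 1 ≤ d → 1 ≤ t → 2 * s < 2 ^ t → 16 * ((L : ℝ) + 2) ≤ T →
  (∀ q ∈ Q1, q.Prime ∧ d * ν q ≤ s ∧ ∀ i, ∑ j, α q i j = ν q) →
  (∀ i j, ∑ q ∈ Q1, (α q i j : ℝ) * Real.log q ≤ Real.log N) →
  T * (s / d) * Real.log N ≤ wt ν Q1 →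
  ∀ Z : Fin s → Finset ℕ, (∀ i, Z i ⊆ Q1) →
  ∃ J : Fin (d * t) → Fin s, ∀ i, wt ν Q1 ≤ 2 * wt ν (Z i) →
    ((L : ℝ) + 2) * Real.log N ≤
      ∑ q ∈ Z i, ((univ.sup fun r => α q i (J r) : ℕ) : ℝ) * Real.log q

/-- S7 (configuration; linear algebra over `ℚ`). -/
def S7 : Prop := ∀ (P : Type) [Fintype P] [DecidableEq P] (A : Finset (P → ℤ)) (NF : Finset P),
  ∃ (w : Fin (rk A) → P → ℤ) (e : Fin (rk A) → P), (∀ a, w a ∈ A) ∧ Function.Injective e ∧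
    (Matrix.of fun a b => w a (e b)).det ≠ 0 ∧
    ∀ u : P → ℤ, cf u ∈ VV A → (∀ b, e b ∈ NF → u (e b) = 0) → ∀ p ∈ NF, u p = 0

/-- S8 (cardinality from rank). -/
def S8 : Prop := ∀ (P : Type) [Fintype P] [DecidableEq P] (A : Finset (P → ℤ)) (R : ℕ),
  (∀ w ∈ A, ∀ p, |w p| ≤ (R : ℤ)) → A.card ≤ (2 * R + 1) ^ rk A

/-- S9 (rank from a determining set). -/
def S9 : Prop := ∀ (s N L : ℕ) (α : ℕ → Fin s → Fin s → ℕ) (K : Finset ℕ), 4 ≤ N → 4 * s ^ 2 ≤ N →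
  ∀ Ta : Finset (Pt s),
  (∀ u ∈ XX α K (N ^ (L + 1)), cf u ∈ VV (XX α K (N ^ L)) → (∀ p ∈ Ta, u p = 0) → u = 0) →
  rk (XX α K (N ^ L)) ≤ 2 * (L + 2) * Ta.card

/-- S10 (one level). -/
def S10 : Prop := ∀ (s N L d t lam : ℕ) (D : Dat s N) (K0 K : Finset ℕ) (T : ℝ),
  1 ≤ s → 4 ≤ N → 4 * s ^ 2 ≤ N → (2 * s).factorial ≤ N → 1 ≤ d → 1 ≤ t → 2 * s < 2 ^ t →
  d * t ≤ lam → 32 * ((L : ℝ) + 2) ^ 2 ≤ T → K0 ⊆ K → K ⊆ D.Q → (∀ q ∈ D.Q \ K0, d * D.ν q ≤ s) →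
  T * (s / d) * Real.log N ≤ wt D.ν (D.Q \ K0) →
  (∀ q ∈ D.Q \ K, hc D.α K q (N ^ (2 * L + 5)) ≤ q ^ lam) →
  rk (XX D.α K (N ^ L)) ≤ 30 * (L + 2) * lam ∧
  ∃ Ta : Finset (Pt s), Ta.card ≤ 14 * lam ∧
    ∀ u ∈ XX D.α K (N ^ (L + 1)), cf u ∈ VV (XX D.α K (N ^ L)) → (∀ p ∈ Ta, u p = 0) → u = 0

/-- the scales `1, 7, 19, 43, ...` -/
def LL (j : ℕ) : ℕ := 6 * 2 ^ j - 5

/-- S11 (iteration over the levels). -/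
def S11 : Prop := ∀ (s N d t J rho : ℕ) (D : Dat s N) (K0 : Finset ℕ) (T : ℝ),
  1 ≤ s → 4 ≤ N → 4 * s ^ 2 ≤ N → (2 * s).factorial ≤ N → 1 ≤ d → 1 ≤ t → 2 * s < 2 ^ t →
  1 ≤ J → s ≤ rho ^ J → 32 * ((LL J : ℝ) + 2) ^ 2 ≤ T → K0 ⊆ D.Q →
  (∀ q ∈ D.Q \ K0, d * D.ν q ≤ s ∧ 256 ^ s ≤ q) →
  T * (s / d) * Real.log N ≤ wt D.ν (D.Q \ K0) →
  ∃ K, K0 ⊆ K ∧ K ⊆ D.Q ∧ ∏ q ∈ K \ K0, q ≤ N ^ (60 * J * (LL J + 2) ^ 2 * rho) ∧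
    ∃ Ta : Finset (Pt s), Ta.card ≤ 14 * (d * t) ∧
      ∀ u ∈ XX D.α K N, (∀ p ∈ Ta, u p = 0) → u = 0

/-- S12 (connection). Choose a row `i0` with
`∑_{j : inr j ∈ Ta} ∑_{q ∈ Q1} α q i0 j log q ≤ |Ta| wt ν Q1 / s` (average over the rows and use the
column sums), then a column `j0` with
`∑_{i : inl i ∈ Ta or i = i0} ∑_{q ∈ Q1} α q i j0 log q ≤ (|Ta| + 1) wt ν Q1 / s`.
`E = {(i, j0) : inl i ∈ Ta or i = i0} ∪ {(i0, j) : inr j ∈ Ta}`. -/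
def S12 : Prop := ∀ (s N : ℕ) (D : Dat s N) (Q1 : Finset ℕ), Q1 ⊆ D.Q → 1 ≤ s →
  ∀ Ta : Finset (Pt s), ∃ (j0 : Fin s) (E : Finset (Fin s × Fin s)),
    ∑ q ∈ Q1.filter (fun q => ∃ p ∈ E, D.α q p.1 p.2 ≠ 0), Real.log (q : ℝ) ≤
      (2 * (Ta.card : ℝ) + 1) * (wt D.ν Q1 / s) ∧
    ∀ w : Pt s → ℤ, w (Sum.inr j0) = 0 → (∀ p ∈ E, w (Sum.inl p.1) = w (Sum.inr p.2)) →
      ∀ p ∈ Ta, w p = 0

/-- S13 (choice of the density parameter `d = 2^r`). -/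
def S13 : Prop := ∀ (s N R : ℕ) (D : Dat s N) (Qb : Finset ℕ) (T : ℝ), 1 ≤ s → 2 ≤ N → 1 < T →
  s < 2 ^ R → Qb ⊆ D.Q →
  (∑ q ∈ Qb, Real.log (q : ℝ) ≤ (1 + 2 * T * R) * Real.log N) ∨
  ∃ d : ℕ, 1 ≤ d ∧
    ∑ q ∈ Qb.filter (fun q => s < d * D.ν q), Real.log (q : ℝ) ≤ (1 + 2 * T * R) * Real.log N ∧
    T * (s / d) * Real.log N ≤ wt D.ν (Qb.filter (fun q => d * D.ν q ≤ s)) ∧
    wt D.ν (Qb.filter (fun q => d * D.ν q ≤ s)) ≤ 2 * T * (s / d) * Real.log N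

/-- The outcome: a set `K` of primes with small product, such that the elements of the ring of size at
most `N` are determined by one coordinate and by the equalities at a set `E` of pairs with trivial
exponents outside `K`. -/
def Core (s κ N0 : ℕ) : Prop := ∀ N : ℕ, N0 ≤ N → ∀ D : Dat s N,
  ∃ (K : Finset ℕ) (j0 : Fin s) (E : Finset (Fin s × Fin s)), K ⊆ D.Q ∧ ∏ q ∈ K, q ≤ N ^ κ ∧
    (∀ p ∈ E, ∀ q ∈ D.Q \ K, D.α q p.1 p.2 = 0) ∧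
    ∀ w ∈ XX D.α K N, w (Sum.inr j0) = 0 → (∀ p ∈ E, w (Sum.inl p.1) = w (Sum.inr p.2)) → w = 0

/-- the exponent of `Core` -/
def kap (J rho R : ℕ) : ℕ :=
  2 + 64 * (LL J + 2) ^ 2 * R + 60 * J * (LL J + 2) ^ 2 * rho + 1856 * (LL J + 2) ^ 2 * (R + 1)

/-- S14 (the core statement; from S11, S12, S13). -/
def S14 : Prop := ∀ s J rho R : ℕ, 1 ≤ s → 1 ≤ J → s ≤ rho ^ J → s < 2 ^ R →
  ∃ N0, Core s (kap J rho R) N0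

/-- S15 (from the core statement to the number of solutions). -/
def S15 : Prop := ∀ k κ N0 : ℕ, Core (k + 1) κ N0 → ∃ C : ℝ, 0 < C ∧ ∀ N : ℕ, 1 ≤ N →
  (((((Fintype.piFinset fun _ : Fin (k + 1) => Finset.Icc 1 N) ×ˢ
      (Fintype.piFinset fun _ : Fin (k + 1) => Finset.Icc 1 N)).filter
    (fun p : (Fin (k + 1) → ℕ) × (Fin (k + 1) → ℕ) =>
      ∀ j : Fin k, ∑ i : Fin (k + 1), p.1 i ^ (j.val + 1) =
        ∑ i : Fin (k + 1), p.2 i ^ (j.val + 1))).filter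
    (fun p => ∀ i j, p.1 i ≠ p.2 j)).card : ℝ) ≤ C * (N : ℝ) ^ (κ + 2)

/-- S16 (size of the exponent). -/
def S16 : Prop := (∀ k J : ℕ, 1 ≤ k → 1 ≤ J → ∃ rho R : ℕ, k + 1 ≤ rho ^ J ∧ k + 1 < 2 ^ R ∧
    (kap J rho R : ℝ) + 2 ≤
      4 ^ J * (10 ^ 4 * J * ((k : ℝ) + 1) ^ ((1 : ℝ) / J) + 10 ^ 6 * Real.log (k + 1))) ∧
  (∀ k : ℕ, 1 ≤ k → ∃ J : ℕ, 1 ≤ J ∧
    4 ^ J * (10 ^ 4 * J * ((k : ℝ) + 1) ^ ((1 : ℝ) / J) + 10 ^ 6 * Real.log (k + 1)) ≤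
      Real.exp (40 * Real.sqrt (Real.log (k + 1))))

end Pool.Agent.H472.VP
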