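import Mathlib
import Pool.Agent.H472.VP.Stmts

set_option autoImplicit false

namespace Pool.Agent.H472.VP

open Finset

namespace T13

variable {s N : ℕ}

theorem log_nonneg' (q : ℕ) : 0 ≤ Real.log (q : ℝ) := Real.log_natCast_nonneg q

theorem total (D : Dat s N) (Qb : Finset ℕ) (hs : 1 ≤ s) (hN : 2 ≤ N) (hQ : Qb ⊆ D.Q) :
    ∑ q ∈ Qb, (D.ν q : ℝ) * Real.log (q : ℝ) ≤ s * Real.log N := by
  have i0 : Fin s := ⟨0, hs⟩
  have h1 : ∑ q ∈ Qb, (D.ν q : ℝ) * Real.log (q : ℝ) ≤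
      ∑ q ∈ D.Q, (D.ν q : ℝ) * Real.log (q : ℝ) :=
    Finset.sum_le_sum_of_subset_of_nonneg hQ fun q _ _ =>
      mul_nonneg (Nat.cast_nonneg _) (log_nonneg' q)
  have h2 : ∑ q ∈ D.Q, (D.ν q : ℝ) * Real.log (q : ℝ) =
      ∑ j, ∑ q ∈ D.Q, (D.α q i0 j : ℝ) * Real.log (q : ℝ) := by
    rw [Finset.sum_comm]
    refine Finset.sum_congr rfl fun q hq => ?_
    rw [← Finset.sum_mul, ← D.row q hq i0]
    push_cast
    rfl
  have h3 : ∀ j : Fin s, ∑ q ∈ D.Q, (D.α q i0 j : ℝ) * Real.log (q : ℝ) ≤ Real.log N := by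
    intro j
    have h4 : ∑ q ∈ D.Q, (D.α q i0 j : ℝ) * Real.log (q : ℝ) =
        Real.log ((∏ q ∈ D.Q, q ^ D.α q i0 j : ℕ) : ℝ) := by
      push_cast
      rw [Real.log_prod]
      · refine Finset.sum_congr rfl fun q _ => ?_
        rw [Real.log_pow]
      · intro q hq
        have := (D.prime q hq).pos
        positivity
    rw [h4]
    apply Real.log_le_log
    · have : 0 < ∏ q ∈ D.Q, q ^ D.α q i0 j :=
        Finset.prod_pos fun q hq => pow_pos (D.prime q hq).pos _
      exact_mod_cast this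
    · exact_mod_cast D.prod i0 j
  calc ∑ q ∈ Qb, (D.ν q : ℝ) * Real.log (q : ℝ) ≤ _ := h1
    _ = _ := h2
    _ ≤ ∑ _j : Fin s, Real.log N := Finset.sum_le_sum fun j _ => h3 j
    _ = s * Real.log N := by
        rw [Finset.sum_const, Finset.card_univ, Fintype.card_fin, nsmul_eq_mul]

/-- the weight of the good primes -/
noncomputable def W (D : Dat s N) (Qb : Finset ℕ) (d : ℕ) : ℝ :=
  wt D.ν (Qb.filter (fun q => d * D.ν q ≤ s))

/-- the weight of the bad primes -/
noncomputable def A (D : Dat s N) (Qb : Finset ℕ) (d : ℕ) : ℝ :=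
  ∑ q ∈ Qb.filter (fun q => s < d * D.ν q), Real.log (q : ℝ)

theorem A_one (D : Dat s N) (Qb : Finset ℕ) (hs : 1 ≤ s) (hN : 2 ≤ N) (hQ : Qb ⊆ D.Q) :
    A D Qb 1 ≤ Real.log N := by
  have hs0 : (0 : ℝ) < s := by exact_mod_cast hs
  have h1 : (s : ℝ) * A D Qb 1 ≤ s * Real.log N := by
    refine le_trans ?_ (total D Qb hs hN hQ)
    unfold A
    rw [Finset.mul_sum]
    calc ∑ q ∈ Qb.filter (fun q => s < 1 * D.ν q), (s : ℝ) * Real.log (q : ℝ)
        ≤ ∑ q ∈ Qb.filter (fun q => s < 1 * D.ν q), (D.ν q : ℝ) * Real.log (q : ℝ) := by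
          refine Finset.sum_le_sum fun q hq => ?_
          have h2 := (Finset.mem_filter.1 hq).2
          rw [one_mul] at h2
          exact mul_le_mul_of_nonneg_right (by exact_mod_cast h2.le) (log_nonneg' q)
      _ ≤ _ := Finset.sum_le_sum_of_subset_of_nonneg (Finset.filter_subset _ _) fun q _ _ =>
          mul_nonneg (Nat.cast_nonneg _) (log_nonneg' q)
  exact le_of_mul_le_mul_left h1 hs0

theorem W_one (D : Dat s N) (Qb : Finset ℕ) (hs : 1 ≤ s) (hN : 2 ≤ N) (hQ : Qb ⊆ D.Q) :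
    W D Qb 1 ≤ s * Real.log N := by
  refine le_trans ?_ (total D Qb hs hN hQ)
  unfold W wt
  exact Finset.sum_le_sum_of_subset_of_nonneg (Finset.filter_subset _ _) fun q _ _ =>
    mul_nonneg (Nat.cast_nonneg _) (log_nonneg' q)

theorem W_mono (D : Dat s N) (Qb : Finset ℕ) (d : ℕ) : W D Qb (2 * d) ≤ W D Qb d := by
  unfold W wt
  refine Finset.sum_le_sum_of_subset_of_nonneg ?_ fun q _ _ =>
    mul_nonneg (Nat.cast_nonneg _) (log_nonneg' q)
  intro q hq
  rw [Finset.mem_filter] at hq ⊢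
  refine ⟨hq.1, ?_⟩
  have := hq.2
  rw [mul_assoc] at this
  omega

theorem A_step (D : Dat s N) (Qb : Finset ℕ) (d : ℕ) (hs : 1 ≤ s) :
    (s : ℝ) * A D Qb (2 * d) ≤ s * A D Qb d + 2 * d * W D Qb d := by
  unfold A W wt
  rw [Finset.mul_sum, Finset.mul_sum, Finset.mul_sum]
  rw [← Finset.sum_filter_add_sum_filter_not (Qb.filter (fun q => s < 2 * d * D.ν q))
    (fun q => s < d * D.ν q)]
  apply add_le_add
  · refine Finset.sum_le_sum_of_subset_of_nonneg ?_ fun q _ _ =>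
      mul_nonneg (Nat.cast_nonneg _) (log_nonneg' q)
    intro q hq
    rw [Finset.mem_filter, Finset.mem_filter] at hq
    rw [Finset.mem_filter]
    exact ⟨hq.1.1, hq.2⟩
  · calc ∑ q ∈ (Qb.filter (fun q => s < 2 * d * D.ν q)).filter (fun q => ¬ s < d * D.ν q),
          (s : ℝ) * Real.log (q : ℝ)
        ≤ ∑ q ∈ (Qb.filter (fun q => s < 2 * d * D.ν q)).filter (fun q => ¬ s < d * D.ν q),
          2 * (d : ℝ) * ((D.ν q : ℝ) * Real.log (q : ℝ)) := by
          refine Finset.sum_le_sum fun q hq => ?_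
          rw [Finset.mem_filter, Finset.mem_filter] at hq
          have h1 : (s : ℝ) ≤ 2 * d * D.ν q := by exact_mod_cast hq.1.2.le
          calc (s : ℝ) * Real.log (q : ℝ) ≤ (2 * d * D.ν q) * Real.log (q : ℝ) :=
                mul_le_mul_of_nonneg_right h1 (log_nonneg' q)
            _ = _ := by ring
      _ ≤ _ := by
          refine Finset.sum_le_sum_of_subset_of_nonneg ?_ fun q _ _ =>
            mul_nonneg (by positivity) (mul_nonneg (Nat.cast_nonneg _) (log_nonneg' q))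
          intro q hq
          rw [Finset.mem_filter, Finset.mem_filter] at hq
          rw [Finset.mem_filter]
          exact ⟨hq.1.1, not_lt.1 hq.2⟩

theorem A_pow (D : Dat s N) (Qb : Finset ℕ) (T : ℝ) (hs : 1 ≤ s) (hN : 2 ≤ N) (hT : 1 < T)
    (hQ : Qb ⊆ D.Q) (r : ℕ) (h : ∀ r' < r, (2 : ℝ) ^ r' * W D Qb (2 ^ r') < s * (T * Real.log N)) :
    A D Qb (2 ^ r) ≤ (1 + 2 * T * r) * Real.log N := by
  have hs0 : (0 : ℝ) < s := by exact_mod_cast hs
  induction r with
  | zero =>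
    rw [pow_zero]
    refine (A_one D Qb hs hN hQ).trans (le_of_eq ?_)
    push_cast
    ring
  | succ r ih =>
    have h1 := ih fun r' hr' => h r' (by omega)
    have h2 := h r (by omega)
    have h3 := A_step D Qb (2 ^ r) hs
    have e : 2 * 2 ^ r = 2 ^ (r + 1) := by ring
    rw [e] at h3
    have h4 : (s : ℝ) * A D Qb (2 ^ (r + 1)) ≤
        s * ((1 + 2 * T * ((r + 1 : ℕ) : ℝ)) * Real.log N) := by
      have h5 : (s : ℝ) * A D Qb (2 ^ r) ≤ s * ((1 + 2 * T * r) * Real.log N) :=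
        mul_le_mul_of_nonneg_left h1 hs0.le
      push_cast at h3 ⊢
      nlinarith [h3, h5, h2]
    exact le_of_mul_le_mul_left h4 hs0

end T13

open T13 in
theorem pf_S13 : S13 := by
  intro s N R D Qb T hs hN hT hR hQ
  have hs0 : (0 : ℝ) < s := by exact_mod_cast hs
  have hL : 0 < Real.log N := Real.log_pos (by exact_mod_cast hN)
  by_cases hall : ∀ r < R, (2 : ℝ) ^ r * W D Qb (2 ^ r) < s * (T * Real.log N)
  · left
    have h1 := A_pow D Qb T hs hN hT hQ R hall
    unfold A at h1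
    rwa [Finset.filter_true_of_mem] at h1
    intro q hq
    have h2 := D.pos q (hQ hq)
    calc s < 2 ^ R := hR
      _ = 2 ^ R * 1 := (mul_one _).symm
      _ ≤ 2 ^ R * D.ν q := Nat.mul_le_mul_left _ h2
  · right
    push Not at hall
    have hall' : ∃ r, r < R ∧ (s : ℝ) * (T * Real.log N) ≤ (2 : ℝ) ^ r * W D Qb (2 ^ r) := hall
    classical
    obtain ⟨hrR, hr⟩ := Nat.find_spec hall'
    have hmin : ∀ r' < Nat.find hall', (2 : ℝ) ^ r' * W D Qb (2 ^ r') < s * (T * Real.log N) := by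
      intro r' hr'
      have h1 := Nat.find_min hall' hr'
      push Not at h1
      exact h1 (hr'.trans hrR)
    generalize Nat.find hall' = r at hrR hr hmin
    have h0 : r ≠ 0 := by
      rintro rfl
      rw [pow_zero, pow_zero, one_mul] at hr
      have h1 := W_one D Qb hs hN hQ
      have h2 : (s : ℝ) * Real.log N < s * (T * Real.log N) :=
        mul_lt_mul_of_pos_left (by nlinarith) hs0
      linarith
    obtain ⟨r', rfl⟩ : ∃ r', r = r' + 1 := ⟨r - 1, by omega⟩
    have hp : (0 : ℝ) < (2 : ℝ) ^ (r' + 1) := by positivity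
    refine ⟨2 ^ (r' + 1), Nat.one_le_two_pow, ?_, ?_, ?_⟩
    · have h1 := A_pow D Qb T hs hN hT hQ (r' + 1) hmin
      unfold A at h1
      refine h1.trans ?_
      apply mul_le_mul_of_nonneg_right _ hL.le
      have h2 : ((r' + 1 : ℕ) : ℝ) ≤ R := by exact_mod_cast hrR.le
      have h3 : 2 * T * ((r' + 1 : ℕ) : ℝ) ≤ 2 * T * R :=
        mul_le_mul_of_nonneg_left h2 (by linarith)
      linarith
    · have h1 : T * ((s : ℝ) / ((2 ^ (r' + 1) : ℕ) : ℝ)) * Real.log N =
          s * (T * Real.log N) / (2 : ℝ) ^ (r' + 1) := by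
        push_cast
        ring
      rw [h1, div_le_iff₀ hp]
      unfold W at hr
      linarith
    · have h1 : 2 * T * ((s : ℝ) / ((2 ^ (r' + 1) : ℕ) : ℝ)) * Real.log N =
          2 * (s * (T * Real.log N)) / (2 : ℝ) ^ (r' + 1) := by
        push_cast
        ring
      rw [h1, le_div_iff₀ hp]
      have h2 := hmin r' (by omega)
      have h3 := W_mono D Qb (2 ^ r')
      have e : 2 * 2 ^ r' = 2 ^ (r' + 1) := by ring
      rw [e] at h3
      unfold W at h2 h3
      have h4 : (0 : ℝ) < (2 : ℝ) ^ r' := by positivity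
      have h5 := mul_le_mul_of_nonneg_left h3 h4.le
      have e2 : (2 : ℝ) ^ (r' + 1) = 2 * 2 ^ r' := by ring
      rw [e2]
      nlinarith [h5, h2]

end Pool.Agent.H472.VP

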