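import Pool.Agent.H472.VP.Stmts

/-! S14: the core statement. -/

set_option autoImplicit false

namespace Pool.Agent.H472.VP

open Finset

namespace T14

/-- from logarithms to products -/
theorem prod_le_of_log {S : Finset ℕ} {N m : ℕ} (hS : ∀ q ∈ S, q.Prime) (hN : 1 ≤ N)
    (h : ∑ q ∈ S, Real.log (q : ℝ) ≤ (m : ℝ) * Real.log N) : ∏ q ∈ S, q ≤ N ^ m := by
  have hN' : (0 : ℝ) < N := by exact_mod_cast hN
  have h1 : Real.log (∏ q ∈ S, (q : ℝ)) = ∑ q ∈ S, Real.log (q : ℝ) :=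
    Real.log_prod fun q hq => by
      have := (hS q hq).pos
      positivity
  rw [← h1, ← Real.log_pow] at h
  have h2 : (0 : ℝ) < ∏ q ∈ S, (q : ℝ) := Finset.prod_pos fun q hq => by
    have := (hS q hq).pos
    positivity
  have h3 := (Real.log_le_log_iff h2 (by positivity)).1 h
  have h4 : ((∏ q ∈ S, q : ℕ) : ℝ) ≤ ((N ^ m : ℕ) : ℝ) := by
    rw [Nat.cast_prod, Nat.cast_pow]
    exact h3
  exact Nat.cast_le.1 h4

/-- product over a union -/
theorem prod_union_le {S S' : Finset ℕ} (h : ∀ q ∈ S, 1 ≤ q) (_ : ∀ q ∈ S', 1 ≤ q) :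
    ∏ q ∈ S ∪ S', q ≤ (∏ q ∈ S, q) * ∏ q ∈ S', q := by
  rw [← Finset.prod_union_inter]
  refine Nat.le_mul_of_pos_right _ ?_
  exact Finset.prod_pos fun q hq => h q (Finset.mem_inter.1 hq).1

theorem prod_small {S : Finset ℕ} {B : ℕ} (h : ∀ q ∈ S, 1 ≤ q ∧ q < B) :
    ∏ q ∈ S, q ≤ B.factorial := by
  have h1 : S ⊆ Finset.Ico 1 (B + 1) := fun q hq => by
    rw [Finset.mem_Ico]
    exact ⟨(h q hq).1, Nat.lt_succ_of_lt (h q hq).2⟩
  calc ∏ q ∈ S, q ≤ ∏ q ∈ Finset.Ico 1 (B + 1), q := by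
        refine Finset.prod_le_prod_of_subset_of_one_le' h1 fun q hq _ => (Finset.mem_Ico.1 hq).1
    _ = B.factorial := Finset.prod_Ico_id_eq_factorial B

theorem XX_anti {s : ℕ} {α : ℕ → Fin s → Fin s → ℕ} {K K' : Finset ℕ} (h : K ⊆ K') (R : ℕ) :
    XX α K' R ⊆ XX α K R := by
  classical
  intro w hw
  unfold XX at hw ⊢
  rw [Finset.mem_filter] at hw ⊢
  exact ⟨hw.1, fun q hq i j => hw.2 q (h hq) i j⟩

end T14

open T14

theorem pf_S14 (h11 : S11) (h12 : S12) (h13 : S13) : S14 := by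
  classical
  intro s J rho R hs hJ hrho hR
  refine ⟨4 + 4 * s ^ 2 + (2 * s).factorial + (256 ^ s).factorial, ?_⟩
  intro N hN D
  have hN4 : 4 ≤ N := by omega
  have hNs : 4 * s ^ 2 ≤ N := by omega
  have hNf : (2 * s).factorial ≤ N := by omega
  have hNg : (256 ^ s).factorial ≤ N := by omega
  have hN1 : 1 ≤ N := by omega
  have hlogN : 0 ≤ Real.log N := Real.log_natCast_nonneg N
  -- the parameter `T`
  obtain ⟨A, hA⟩ : ∃ A : ℕ, A = LL J + 2 := ⟨_, rfl⟩
  have hA2 : 2 ≤ A := by omega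
  obtain ⟨T, hT⟩ : ∃ T : ℝ, T = 32 * (A : ℝ) ^ 2 := ⟨_, rfl⟩
  have hA2' : (2 : ℝ) ≤ A := by exact_mod_cast hA2
  have hT1 : 1 < T := by rw [hT]; nlinarith
  have hTL : 32 * ((LL J : ℝ) + 2) ^ 2 ≤ T := by
    rw [hT, hA]
    push_cast
    exact le_rfl
  have hkap : kap J rho R = 2 + 64 * A ^ 2 * R + 60 * J * A ^ 2 * rho + 1856 * A ^ 2 * (R + 1) := by
    rw [hA]; rfl
  rw [hkap]
  -- small and big primes
  obtain ⟨Qs, hQs⟩ : ∃ Qs : Finset ℕ, Qs = D.Q.filter (fun q => q < 256 ^ s) := ⟨_, rfl⟩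
  obtain ⟨Qb, hQb⟩ : ∃ Qb : Finset ℕ, Qb = D.Q.filter (fun q => 256 ^ s ≤ q) := ⟨_, rfl⟩
  have hQsQ : Qs ⊆ D.Q := by rw [hQs]; exact Finset.filter_subset _ _
  have hQbQ : Qb ⊆ D.Q := by rw [hQb]; exact Finset.filter_subset _ _
  have hQsb : ∀ q ∈ D.Q, q ∈ Qs ∨ q ∈ Qb := by
    intro q hq
    rw [hQs, hQb, Finset.mem_filter, Finset.mem_filter]
    rcases lt_or_ge q (256 ^ s) with h | h
    · exact Or.inl ⟨hq, h⟩
    · exact Or.inr ⟨hq, h⟩
  have hone : ∀ q ∈ D.Q, 1 ≤ q := fun q hq => (D.prime q hq).pos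
  have hPs : ∏ q ∈ Qs, q ≤ N := by
    refine (prod_small (B := 256 ^ s) fun q hq => ?_).trans hNg
    refine ⟨hone q (hQsQ hq), ?_⟩
    rw [hQs, Finset.mem_filter] at hq
    exact hq.2
  have hcast : (1 + 2 * T * R) = ((1 + 64 * A ^ 2 * R : ℕ) : ℝ) := by
    rw [hT]; push_cast; ring
  rcases h13 s N R D Qb T hs (by omega) hT1 hR hQbQ with hc | ⟨d, hd1, hc1, hc2, hc3⟩
  · -- all of `D.Q` has small product
    rw [hcast] at hc
    have hPb : ∏ q ∈ Qb, q ≤ N ^ (1 + 64 * A ^ 2 * R) :=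
      prod_le_of_log (fun q hq => D.prime q (hQbQ hq)) hN1 hc
    refine ⟨D.Q, ⟨0, hs⟩, Finset.univ, Finset.Subset.refl _, ?_, ?_, ?_⟩
    · have hQ : D.Q = Qs ∪ Qb := by
        ext q
        rw [Finset.mem_union]
        exact ⟨hQsb q, fun h => h.elim (fun h => hQsQ h) (fun h => hQbQ h)⟩
      calc ∏ q ∈ D.Q, q = ∏ q ∈ Qs ∪ Qb, q := by rw [← hQ]
        _ ≤ (∏ q ∈ Qs, q) * ∏ q ∈ Qb, q :=
            prod_union_le (fun q hq => hone q (hQsQ hq)) (fun q hq => hone q (hQbQ hq))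
        _ ≤ N * N ^ (1 + 64 * A ^ 2 * R) := Nat.mul_le_mul hPs hPb
        _ = N ^ (2 + 64 * A ^ 2 * R) := by ring
        _ ≤ _ := Nat.pow_le_pow_right hN1 (by
            have : 0 ≤ 60 * J * A ^ 2 * rho + 1856 * A ^ 2 * (R + 1) := Nat.zero_le _
            omega)
    · intro p _ q hq
      rw [Finset.sdiff_self] at hq
      exact absurd hq (Finset.notMem_empty q)
    · intro w _ h0 hE
      have hl : ∀ i, w (Sum.inl i) = 0 := fun i => by
        rw [hE (i, ⟨0, hs⟩) (Finset.mem_univ _)]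
        exact h0
      funext p
      rcases p with i | j
      · exact hl i
      · have := hE (j, j) (Finset.mem_univ _)
        simp only at this
        rw [← this]
        exact hl j
  · -- the main case
    have hd0 : (0 : ℝ) < d := by exact_mod_cast hd1
    have hs0 : (0 : ℝ) < s := by exact_mod_cast hs
    obtain ⟨Qh, hQh⟩ : ∃ Qh : Finset ℕ, Qh = Qb.filter (fun q => s < d * D.ν q) := ⟨_, rfl⟩
    obtain ⟨Q1, hQ1⟩ : ∃ Q1 : Finset ℕ, Q1 = Qb.filter (fun q => d * D.ν q ≤ s) := ⟨_, rfl⟩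
    rw [← hQh] at hc1
    rw [← hQ1] at hc2 hc3
    obtain ⟨K0, hK0⟩ : ∃ K0 : Finset ℕ, K0 = Qs ∪ Qh := ⟨_, rfl⟩
    have hQhb : Qh ⊆ Qb := by rw [hQh]; exact Finset.filter_subset _ _
    have hK0Q : K0 ⊆ D.Q := by
      rw [hK0]
      exact Finset.union_subset hQsQ (hQhb.trans hQbQ)
    have hdiff : D.Q \ K0 = Q1 := by
      ext q
      rw [Finset.mem_sdiff, hK0, Finset.mem_union, hQh, hQ1, Finset.mem_filter,
        Finset.mem_filter]
      constructor
      · rintro ⟨h1, h2⟩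
        push Not at h2
        rcases hQsb q h1 with h | h
        · exact absurd h h2.1
        · exact ⟨h, h2.2 h⟩
      · rintro ⟨h1, h2⟩
        refine ⟨hQbQ h1, ?_⟩
        rintro (h | h)
        · rw [hQs, Finset.mem_filter] at h
          rw [hQb, Finset.mem_filter] at h1
          omega
        · omega
    have hQ1prop : ∀ q ∈ D.Q \ K0, d * D.ν q ≤ s ∧ 256 ^ s ≤ q := by
      intro q hq
      rw [hdiff, hQ1, Finset.mem_filter] at hq
      refine ⟨hq.2, ?_⟩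
      have h1 := hq.1
      rw [hQb, Finset.mem_filter] at h1
      exact h1.2
    have hPh : ∏ q ∈ Qh, q ≤ N ^ (1 + 64 * A ^ 2 * R) := by
      rw [hcast] at hc1
      exact prod_le_of_log (fun q hq => D.prime q (hQbQ (hQhb hq))) hN1 hc1
    obtain ⟨K1, hK01, hK1Q, hK1p, Ta, hTa, hTau⟩ := h11 s N d (R + 1) J rho D K0 T hs hN4 hNs hNf
      hd1 (by omega) (by rw [pow_succ]; omega) hJ hrho hTL hK0Q hQ1prop
      (by rw [hdiff]; exact hc2)
    obtain ⟨j0, E, hE1, hE2⟩ := h12 s N D (D.Q \ K0) Finset.sdiff_subset hs Ta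
    obtain ⟨QE, hQE⟩ : ∃ QE : Finset ℕ, QE = (D.Q \ K0).filter
      (fun q => ∃ p ∈ E, D.α q p.1 p.2 ≠ 0) := ⟨_, rfl⟩
    have hQEQ : QE ⊆ D.Q := by
      rw [hQE]
      exact (Finset.filter_subset _ _).trans Finset.sdiff_subset
    have hPE : ∏ q ∈ QE, q ≤ N ^ (1856 * A ^ 2 * (R + 1)) := by
      refine prod_le_of_log (fun q hq => D.prime q (hQEQ hq)) hN1 ?_
      have hE1' : ∑ q ∈ QE, Real.log (q : ℝ) ≤
          (2 * (Ta.card : ℝ) + 1) * (wt D.ν (D.Q \ K0) / s) := by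
        rw [hQE]
        exact hE1
      have hTa' : (Ta.card : ℝ) ≤ 14 * (d * ((R : ℝ) + 1)) := by exact_mod_cast hTa
      have hw : wt D.ν (D.Q \ K0) / s ≤ 2 * T / d * Real.log N := by
        rw [hdiff, div_le_iff₀ hs0]
        calc wt D.ν Q1 ≤ 2 * T * (s / d) * Real.log N := hc3
          _ = 2 * T / d * Real.log N * s := by ring
      have hw0 : 0 ≤ 2 * T / d * Real.log N := by
        have : 0 < T := by linarith
        positivity
      have hd1' : (1 : ℝ) ≤ d := by exact_mod_cast hd1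
      have hR0 : (0 : ℝ) ≤ R := Nat.cast_nonneg _
      calc ∑ q ∈ QE, Real.log (q : ℝ) ≤ (2 * (Ta.card : ℝ) + 1) * (wt D.ν (D.Q \ K0) / s) := hE1'
        _ ≤ (2 * (Ta.card : ℝ) + 1) * (2 * T / d * Real.log N) := by
            refine mul_le_mul_of_nonneg_left hw ?_
            positivity
        _ ≤ (29 * (d * ((R : ℝ) + 1))) * (2 * T / d * Real.log N) := by
            refine mul_le_mul_of_nonneg_right ?_ hw0
            nlinarith
        _ = (58 * T * ((R : ℝ) + 1)) * Real.log N := by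
            field_simp
            ring
        _ = ((1856 * A ^ 2 * (R + 1) : ℕ) : ℝ) * Real.log N := by
            rw [hT]; push_cast; ring
    refine ⟨K1 ∪ QE, j0, E, Finset.union_subset hK1Q hQEQ, ?_, ?_, ?_⟩
    · have hK1eq : K1 = K0 ∪ (K1 \ K0) := (Finset.union_sdiff_of_subset hK01).symm
      have hP0 : ∏ q ∈ K0, q ≤ N * N ^ (1 + 64 * A ^ 2 * R) := by
        rw [hK0]
        exact (prod_union_le (fun q hq => hone q (hQsQ hq))
          (fun q hq => hone q (hQbQ (hQhb hq)))).trans (Nat.mul_le_mul hPs hPh)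
      have hP1 : ∏ q ∈ K1, q ≤
          (N * N ^ (1 + 64 * A ^ 2 * R)) * N ^ (60 * J * A ^ 2 * rho) := by
        rw [hK1eq]
        refine (prod_union_le (fun q hq => hone q (hK0Q hq))
          (fun q hq => hone q (hK1Q (Finset.sdiff_subset hq)))).trans (Nat.mul_le_mul hP0 ?_)
        rw [hA]
        exact hK1p
      calc ∏ q ∈ K1 ∪ QE, q ≤ (∏ q ∈ K1, q) * ∏ q ∈ QE, q :=
            prod_union_le (fun q hq => hone q (hK1Q hq)) (fun q hq => hone q (hQEQ hq))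
        _ ≤ ((N * N ^ (1 + 64 * A ^ 2 * R)) * N ^ (60 * J * A ^ 2 * rho)) *
            N ^ (1856 * A ^ 2 * (R + 1)) := Nat.mul_le_mul hP1 hPE
        _ = N ^ (2 + 64 * A ^ 2 * R + 60 * J * A ^ 2 * rho + 1856 * A ^ 2 * (R + 1)) := by
            rw [← pow_succ', ← pow_add, ← pow_add]
            ring_nf
    · intro p hp q hq
      rw [Finset.mem_sdiff, Finset.mem_union] at hq
      obtain ⟨hq1, hq2⟩ := hq
      push Not at hq2
      by_contra hne
      refine hq2.2 ?_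
      rw [hQE, Finset.mem_filter, Finset.mem_sdiff]
      exact ⟨⟨hq1, fun h => hq2.1 (hK01 h)⟩, p, hp, hne⟩
    · intro w hw h0 hEq
      exact hTau w (XX_anti Finset.subset_union_left N hw) (hE2 w h0 hEq)

end Pool.Agent.H472.VP
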