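import Pool.Agent.H472.VP.Stmts

/-! S16: size of the exponent. -/

set_option autoImplicit false

namespace Pool.Agent.H472.VP

namespace T16

theorem log_ge (k : ℕ) (hk : 1 ≤ k) : (69 : ℝ) / 100 ≤ Real.log ((k : ℝ) + 1) := by
  have h1 : Real.log 2 ≤ Real.log ((k : ℝ) + 1) := by
    apply Real.log_le_log (by norm_num)
    have : (1 : ℝ) ≤ k := by exact_mod_cast hk
    linarith
  have h2 := Real.log_two_gt_d9
  linarith

theorem LL_bound (J : ℕ) : ((LL J : ℝ) + 2) ^ 2 ≤ 36 * 4 ^ J := by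
  have h1 : (LL J + 2 : ℕ) ≤ 6 * 2 ^ J := by
    unfold LL
    have : 1 ≤ 2 ^ J := Nat.one_le_two_pow
    omega
  have h2 : ((LL J : ℝ) + 2) ≤ 6 * 2 ^ J := by exact_mod_cast h1
  have h3 : ((LL J : ℝ) + 2) ^ 2 ≤ (6 * 2 ^ J) ^ 2 :=
    pow_le_pow_left₀ (by positivity) h2 2
  refine h3.trans (le_of_eq ?_)
  have h4 : (4 : ℝ) ^ J = (2 ^ J) ^ 2 := by
    rw [← pow_mul, mul_comm J 2, pow_mul]
    norm_num
  rw [h4]
  ring

theorem part1 (k J : ℕ) (hk : 1 ≤ k) (hJ : 1 ≤ J) :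
    ∃ rho R : ℕ, k + 1 ≤ rho ^ J ∧ k + 1 < 2 ^ R ∧
    (kap J rho R : ℝ) + 2 ≤
      4 ^ J * (10 ^ 4 * J * ((k : ℝ) + 1) ^ ((1 : ℝ) / J) + 10 ^ 6 * Real.log (k + 1)) := by
  have hk0 : (0 : ℝ) < (k : ℝ) + 1 := by positivity
  have hJ0 : (J : ℝ) ≠ 0 := by
    have : J ≠ 0 := by omega
    exact_mod_cast this
  have hJ1 : (1 : ℝ) ≤ J := by exact_mod_cast hJ
  obtain ⟨q, hq⟩ : ∃ q : ℝ, q = ((k : ℝ) + 1) ^ ((1 : ℝ) / J) := ⟨_, rfl⟩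
  have hq1 : 1 ≤ q := by
    rw [hq]
    apply Real.one_le_rpow
    · have : (0 : ℝ) ≤ k := Nat.cast_nonneg k
      linarith
    · positivity
  have hqJ : q ^ J = (k : ℝ) + 1 := by
    rw [hq, ← Real.rpow_natCast, ← Real.rpow_mul hk0.le, one_div, inv_mul_cancel₀ hJ0,
      Real.rpow_one]
  obtain ⟨L, hL⟩ : ∃ L : ℝ, L = Real.log ((k : ℝ) + 1) := ⟨_, rfl⟩
  have hL1 : (69 : ℝ) / 100 ≤ L := by rw [hL]; exact log_ge k hk
  obtain ⟨n, hn⟩ : ∃ n : ℕ, n = Nat.log 2 (k + 1) := ⟨_, rfl⟩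
  have hnL : (n : ℝ) * (69 / 100) ≤ L := by
    have h1 : 2 ^ n ≤ k + 1 := by
      rw [hn]
      exact Nat.pow_log_le_self 2 (by omega)
    have h2 : (2 : ℝ) ^ n ≤ (k : ℝ) + 1 := by exact_mod_cast h1
    have h3 : Real.log ((2 : ℝ) ^ n) ≤ L := by
      rw [hL]
      exact Real.log_le_log (by positivity) h2
    rw [Real.log_pow] at h3
    have h4 := Real.log_two_gt_d9
    have h5 : (0 : ℝ) ≤ n := Nat.cast_nonneg n
    nlinarith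
  refine ⟨⌈q⌉₊, n + 1, ?_, ?_, ?_⟩
  · have h1 : q ≤ (⌈q⌉₊ : ℝ) := Nat.le_ceil q
    have h2 : q ^ J ≤ (⌈q⌉₊ : ℝ) ^ J := pow_le_pow_left₀ (by linarith) h1 J
    rw [hqJ] at h2
    exact_mod_cast h2
  · rw [hn]
    exact Nat.lt_pow_succ_log_self (by norm_num) _
  · rw [← hq, ← hL]
    have hr : (⌈q⌉₊ : ℝ) ≤ 2 * q := by
      have := Nat.ceil_lt_add_one (show 0 ≤ q by linarith)
      linarith
    have hM := LL_bound J
    have hM0 : (0 : ℝ) ≤ ((LL J : ℝ) + 2) ^ 2 := sq_nonneg _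
    have h4J : (1 : ℝ) ≤ 4 ^ J := one_le_pow₀ (by norm_num)
    have hR0 : (0 : ℝ) ≤ n := Nat.cast_nonneg n
    have hnL2 : (n : ℝ) ≤ 100 / 69 * L := by linarith
    have hone : (1 : ℝ) ≤ 100 / 69 * L := by linarith
    have e : ((kap J ⌈q⌉₊ (n + 1) : ℕ) : ℝ) + 2 = 4 +
        ((LL J : ℝ) + 2) ^ 2 * (64 * ((n : ℝ) + 1) + 1856 * ((n : ℝ) + 2)) +
        ((LL J : ℝ) + 2) ^ 2 * (60 * J * (⌈q⌉₊ : ℝ)) := by
      unfold kap
      push_cast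
      ring
    rw [e]
    have hA : 64 * ((n : ℝ) + 1) + 1856 * ((n : ℝ) + 2) ≤ 8300 * L := by linarith
    have hA0 : 0 ≤ 64 * ((n : ℝ) + 1) + 1856 * ((n : ℝ) + 2) := by positivity
    have hB : 60 * (J : ℝ) * (⌈q⌉₊ : ℝ) ≤ 120 * (J * q) := by
      have : (J : ℝ) * (⌈q⌉₊ : ℝ) ≤ J * (2 * q) := mul_le_mul_of_nonneg_left hr (by linarith)
      linarith
    have hB0 : 0 ≤ 60 * (J : ℝ) * (⌈q⌉₊ : ℝ) := by positivity
    have hJq : 1 ≤ (J : ℝ) * q := by nlinarith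
    have h1 : ((LL J : ℝ) + 2) ^ 2 * (64 * ((n : ℝ) + 1) + 1856 * ((n : ℝ) + 2)) ≤
        (36 * 4 ^ J) * (8300 * L) := mul_le_mul hM hA hA0 (by positivity)
    have h2 : ((LL J : ℝ) + 2) ^ 2 * (60 * J * (⌈q⌉₊ : ℝ)) ≤ (36 * 4 ^ J) * (120 * (J * q)) :=
      mul_le_mul hM hB hB0 (by positivity)
    have h3 : (4 : ℝ) ≤ 4 ^ J * (4 * (J * q)) := by nlinarith
    have h4 : (36 * 4 ^ J) * (8300 * L) ≤ 4 ^ J * (10 ^ 6 * L) := by
      have : 0 ≤ 4 ^ J * L := by positivity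
      nlinarith
    have h5 : 4 ^ J * (4 * (J * q)) + (36 * 4 ^ J) * (120 * (J * q)) ≤
        4 ^ J * (10 ^ 4 * J * q) := by
      have : 0 ≤ 4 ^ J * (J * q) := by positivity
      nlinarith
    have h6 : (4 : ℝ) ^ J * (10 ^ 4 * J * q + 10 ^ 6 * L) =
        4 ^ J * (10 ^ 4 * J * q) + 4 ^ J * (10 ^ 6 * L) := by ring
    rw [h6]
    linarith

theorem part2 (k : ℕ) (hk : 1 ≤ k) : ∃ J : ℕ, 1 ≤ J ∧
    4 ^ J * (10 ^ 4 * J * ((k : ℝ) + 1) ^ ((1 : ℝ) / J) + 10 ^ 6 * Real.log (k + 1)) ≤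
      Real.exp (40 * Real.sqrt (Real.log (k + 1))) := by
  have hk0 : (0 : ℝ) < (k : ℝ) + 1 := by positivity
  obtain ⟨L, hL⟩ : ∃ L : ℝ, L = Real.log ((k : ℝ) + 1) := ⟨_, rfl⟩
  have hL1 : (69 : ℝ) / 100 ≤ L := by rw [hL]; exact log_ge k hk
  obtain ⟨s, hs⟩ : ∃ s : ℝ, s = Real.sqrt L := ⟨_, rfl⟩
  have hs0 : 4 / 5 ≤ s := by
    rw [hs]
    apply Real.le_sqrt_of_sq_le
    norm_num
    linarith
  have hsL : s ^ 2 = L := by
    rw [hs]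
    exact Real.sq_sqrt (by linarith)
  have hsJ : s ≤ (⌈s⌉₊ : ℝ) := Nat.le_ceil s
  have hJs : (⌈s⌉₊ : ℝ) ≤ 9 / 4 * s := by
    have := Nat.ceil_lt_add_one (show 0 ≤ s by linarith)
    linarith
  refine ⟨⌈s⌉₊, Nat.one_le_ceil_iff.2 (by linarith), ?_⟩
  rw [← hL, ← hs]
  obtain ⟨j, hj⟩ : ∃ j : ℝ, j = (⌈s⌉₊ : ℝ) := ⟨_, rfl⟩
  have hq : ((k : ℝ) + 1) ^ ((1 : ℝ) / (⌈s⌉₊ : ℝ)) ≤ Real.exp s := by
    rw [Real.rpow_def_of_pos hk0, ← hL]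
    apply Real.exp_le_exp.2
    rw [mul_one_div, div_le_iff₀ (by linarith), ← hsL]
    nlinarith
  have he1 : 2 ≤ Real.exp 1 := by
    have := Real.add_one_le_exp (1 : ℝ)
    linarith
  have he2 : 4 ≤ Real.exp 2 := by
    have h : Real.exp 2 = Real.exp 1 ^ 2 := by
      rw [← Real.exp_nat_mul]
      norm_num
    rw [h]
    nlinarith
  have h4 : (4 : ℝ) ^ ⌈s⌉₊ ≤ Real.exp (9 / 2 * s) := by
    have h1 : (4 : ℝ) ^ ⌈s⌉₊ ≤ Real.exp 2 ^ ⌈s⌉₊ := pow_le_pow_left₀ (by norm_num) he2 _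
    rw [← Real.exp_nat_mul] at h1
    refine h1.trans (Real.exp_le_exp.2 ?_)
    linarith
  have hses : s ≤ Real.exp s := by
    have := Real.add_one_le_exp s
    linarith
  have hes : 0 < Real.exp s := Real.exp_pos s
  have hbr : 10 ^ 4 * (⌈s⌉₊ : ℝ) * ((k : ℝ) + 1) ^ ((1 : ℝ) / (⌈s⌉₊ : ℝ)) + 10 ^ 6 * L ≤
      1022500 * (Real.exp s * Real.exp s) := by
    have h1 : (⌈s⌉₊ : ℝ) * ((k : ℝ) + 1) ^ ((1 : ℝ) / (⌈s⌉₊ : ℝ)) ≤
        (9 / 4 * Real.exp s) * Real.exp s := by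
      apply mul_le_mul _ hq (by positivity) (by positivity)
      linarith
    have h2 : L ≤ Real.exp s * Real.exp s := by
      rw [← hsL, sq]
      exact mul_le_mul hses hses (by linarith) hes.le
    nlinarith
  have h20 : (1022500 : ℝ) ≤ Real.exp (25 * s) := by
    have h1 : (2 : ℝ) ^ 20 ≤ Real.exp 1 ^ 20 := pow_le_pow_left₀ (by norm_num) he1 20
    rw [← Real.exp_nat_mul] at h1
    have h2 : Real.exp (((20 : ℕ) : ℝ) * 1) ≤ Real.exp (25 * s) := by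
      apply Real.exp_le_exp.2
      norm_num
      linarith
    refine le_trans ?_ (h1.trans h2)
    norm_num
  have hL0 : 0 ≤ L := by linarith
  calc (4 : ℝ) ^ ⌈s⌉₊ * (10 ^ 4 * (⌈s⌉₊ : ℝ) * ((k : ℝ) + 1) ^ ((1 : ℝ) / (⌈s⌉₊ : ℝ)) +
        10 ^ 6 * L) ≤ Real.exp (9 / 2 * s) * (1022500 * (Real.exp s * Real.exp s)) := by
        apply mul_le_mul h4 hbr (by positivity) (Real.exp_pos _).le
    _ ≤ Real.exp (9 / 2 * s) * (Real.exp (25 * s) * (Real.exp s * Real.exp s)) := by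
        apply mul_le_mul_of_nonneg_left _ (Real.exp_pos _).le
        exact mul_le_mul_of_nonneg_right h20 (by positivity)
    _ = Real.exp (9 / 2 * s + (25 * s + (s + s))) := by
        rw [Real.exp_add, Real.exp_add, Real.exp_add]
    _ ≤ Real.exp (40 * s) := by
        apply Real.exp_le_exp.2
        linarith

end T16

theorem pf_S16 : S16 :=
  ⟨fun k J hk hJ => T16.part1 k J hk hJ, fun k hk => T16.part2 k hk⟩

end Pool.Agent.H472.VP
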