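import Pool.Agent.H472.VP.Stmts

/-! Greedy step. -/

set_option autoImplicit false

namespace Pool.Agent.H472.VP

namespace T2

theorem arith (s q lam x y h : ℕ) (hlam : 1 ≤ lam) (hq : 256 ^ s ≤ q) (hh : q ^ lam ≤ h)
    (h1 : x * h ≤ 16 ^ s * y) : q ^ (2 * lam - 1) * x ^ 2 ≤ y ^ 2 := by
  have hqpos : 0 < q := lt_of_lt_of_le (by positivity) hq
  have h2 : x * q ^ lam ≤ 16 ^ s * y := le_trans (Nat.mul_le_mul_left x hh) h1
  have h3 : (x * q ^ lam) ^ 2 ≤ (16 ^ s * y) ^ 2 := Nat.pow_le_pow_left h2 2
  have h4 : (16 ^ s * y) ^ 2 = 256 ^ s * y ^ 2 := by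
    rw [mul_pow, ← pow_mul, mul_comm s 2, pow_mul]
    norm_num
  have h5 : (x * q ^ lam) ^ 2 = q * (q ^ (2 * lam - 1) * x ^ 2) := by
    have e : 2 * lam = (2 * lam - 1) + 1 := by omega
    have e2 : (q ^ lam) ^ 2 = q ^ (2 * lam - 1) * q := by
      rw [← pow_mul, mul_comm lam 2, ← pow_succ, ← e]
    rw [mul_pow, e2]
    ring
  rw [h4, h5] at h3
  have h6 : q * (q ^ (2 * lam - 1) * x ^ 2) ≤ q * y ^ 2 :=
    le_trans h3 (Nat.mul_le_mul_right _ hq)
  exact Nat.le_of_mul_le_mul_left h6 hqpos

end T2

theorem pf_S2 (h1 : S1) : S2 := by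
  intro s α Q K R lam hlam hK hq
  induction hn : (Q \ K).card using Nat.strong_induction_on generalizing K with
  | _ n ih =>
    by_cases hall : ∀ q ∈ Q \ K, hc α K q R ≤ q ^ lam
    · refine ⟨K, Finset.Subset.refl K, hK, hall, ?_⟩
      simp
    · push Not at hall
      obtain ⟨q, hqm, hlt⟩ := hall
      have hqQ : q ∈ Q := (Finset.mem_sdiff.mp hqm).1
      have hqK : q ∉ K := (Finset.mem_sdiff.mp hqm).2
      have hsub : insert q K ⊆ Q := by
        intro x hx
        rcases Finset.mem_insert.mp hx with hx | hx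
        · rw [hx]; exact hqQ
        · exact hK hx
      have hcard : (Q \ insert q K).card < n := by
        rw [← hn]
        apply Finset.card_lt_card
        rw [Finset.ssubset_iff_of_subset
          (Finset.sdiff_subset_sdiff (Finset.Subset.refl Q) (Finset.subset_insert q K))]
        refine ⟨q, hqm, ?_⟩
        intro hx
        exact (Finset.mem_sdiff.mp hx).2 (Finset.mem_insert_self q K)
      obtain ⟨K', hKK', hK'Q, hhc, hprod⟩ := ih _ hcard (insert q K) hsub
        (fun x hx => hq x (Finset.sdiff_subset_sdiff (Finset.Subset.refl Q)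
          (Finset.subset_insert q K) hx)) rfl
      refine ⟨K', (Finset.subset_insert q K).trans hKK', hK'Q, hhc, ?_⟩
      have hqK' : q ∈ K' := hKK' (Finset.mem_insert_self q K)
      have hset : K' \ K = insert q (K' \ insert q K) := by
        ext x
        simp only [Finset.mem_sdiff, Finset.mem_insert]
        constructor
        · rintro ⟨h1, h2⟩
          by_cases hx : x = q
          · exact Or.inl hx
          · right
            exact ⟨h1, fun h => h.elim hx h2⟩
        · rintro (h | ⟨h1, h2⟩)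
          · rw [h]; exact ⟨hqK', hqK⟩
          · exact ⟨h1, fun h => h2 (Or.inr h)⟩
      have hnot : q ∉ K' \ insert q K := by
        intro hx
        exact (Finset.mem_sdiff.mp hx).2 (Finset.mem_insert_self q K)
      rw [hset, Finset.prod_insert hnot, mul_pow]
      have hstep := T2.arith s q lam (XX α (insert q K) R).card (XX α K R).card (hc α K q R)
        hlam (hq q hqm) hlt.le (h1 s α K q R)
      calc q ^ (2 * lam - 1) * (∏ x ∈ K' \ insert q K, x) ^ (2 * lam - 1) * (XX α K' R).card ^ 2
          = q ^ (2 * lam - 1) * ((∏ x ∈ K' \ insert q K, x) ^ (2 * lam - 1)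
            * (XX α K' R).card ^ 2) := by ring
        _ ≤ q ^ (2 * lam - 1) * (XX α (insert q K) R).card ^ 2 := Nat.mul_le_mul_left _ hprod
        _ ≤ (XX α K R).card ^ 2 := hstep

end Pool.Agent.H472.VP
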