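import Pool.Agent.H472.VP.Stmts

/-! The pattern bound (S3). -/

set_option autoImplicit false

namespace Pool.Agent.H472.VP

namespace T3

open Finset

variable {s : ℕ} {α : ℕ → Fin s → Fin s → ℕ} {K : Finset ℕ}

theorem mem_XX {R : ℕ} {w : Pt s → ℤ} :
    w ∈ XX α K R ↔ (∀ p, |w p| ≤ (R : ℤ)) ∧ InL α K w := by
  classical
  unfold XX
  rw [mem_filter, Fintype.mem_piFinset]
  simp only [mem_Icc, abs_le]

theorem inL_sum {ι : Type} (S : Finset ι) (c : ι → ℤ) (v : ι → Pt s → ℤ)
    (h : ∀ a ∈ S, InL α K (v a)) : InL α K (fun p => ∑ a ∈ S, c a * v a p) := by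
  intro q hq i j
  have h1 : (∑ a ∈ S, c a * v a (Sum.inl i)) - ∑ a ∈ S, c a * v a (Sum.inr j) =
      ∑ a ∈ S, c a * (v a (Sum.inl i) - v a (Sum.inr j)) := by
    rw [← sum_sub_distrib]
    exact sum_congr rfl fun a _ => by ring
  change _ ∣ (∑ a ∈ S, c a * v a (Sum.inl i)) - ∑ a ∈ S, c a * v a (Sum.inr j)
  rw [h1]
  exact dvd_sum fun a ha => Dvd.dvd.mul_left (h a ha q hq i j) _

theorem inL_mul {u w : Pt s → ℤ} (hu : InL α K u) (hw : InL α K w) :
    InL α K (fun p => u p * w p) := by
  intro q hq i j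
  have h1 : u (Sum.inl i) * w (Sum.inl i) - u (Sum.inr j) * w (Sum.inr j) =
      u (Sum.inl i) * (w (Sum.inl i) - w (Sum.inr j)) +
        w (Sum.inr j) * (u (Sum.inl i) - u (Sum.inr j)) := by ring
  change _ ∣ u (Sum.inl i) * w (Sum.inl i) - u (Sum.inr j) * w (Sum.inr j)
  rw [h1]
  exact dvd_add (Dvd.dvd.mul_left (hw q hq i j) _) (Dvd.dvd.mul_left (hu q hq i j) _)

/-- a subset for which half of the elements are good -/
theorem exists_half {ι : Type} [DecidableEq ι] (T : Finset ι) (P : Finset ι → ι → Prop)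
    [∀ S b, Decidable (P S b)]
    (h : ∀ b ∈ T, ∀ S ⊆ T, b ∉ S → P S b ∨ P (insert b S) b) :
    ∃ S ⊆ T, T.card ≤ 2 * (T.filter (P S)).card := by
  have key : ∀ b ∈ T, T.powerset.card ≤ 2 * (T.powerset.filter (fun S => P S b)).card := by
    intro b hb
    have h1 : (T.powerset.filter (fun S => ¬ P S b)).card ≤
        (T.powerset.filter (fun S => P S b)).card := by
      let g : Finset ι → Finset ι := fun S => if b ∈ S then S.erase b else insert b S
      have hg : Function.Involutive g := by
        intro S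
        by_cases hS : b ∈ S
        · simp [g, hS]
        · simp [g, hS]
      refine card_le_card_of_injOn g ?_ hg.injective.injOn
      intro S hS
      have hS2 := mem_filter.1 hS
      have hST := mem_powerset.1 hS2.1
      refine mem_coe.2 (mem_filter.2 ⟨mem_powerset.2 ?_, ?_⟩)
      · by_cases hbS : b ∈ S
        · simp only [g, if_pos hbS]
          exact (erase_subset _ _).trans hST
        · simp only [g, if_neg hbS]
          exact insert_subset hb hST
      · by_cases hbS : b ∈ S
        · simp only [g, if_pos hbS]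
          have h2 := h b hb (S.erase b) ((erase_subset _ _).trans hST) (notMem_erase b S)
          rw [insert_erase hbS] at h2
          exact h2.resolve_right hS2.2
        · simp only [g, if_neg hbS]
          exact (h b hb S hST hbS).resolve_left hS2.2
    have h2 := card_filter_add_card_filter_not (s := T.powerset) (fun S => P S b)
    omega
  have hsum : ∑ S ∈ T.powerset, T.card ≤ ∑ S ∈ T.powerset, 2 * (T.filter (P S)).card := by
    rw [sum_const, smul_eq_mul, ← mul_sum]
    have h1 : ∑ S ∈ T.powerset, (T.filter (P S)).card =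
        ∑ b ∈ T, (T.powerset.filter (fun S => P S b)).card := by
      simp only [card_filter]
      exact sum_comm
    rw [h1, mul_sum, mul_comm, ← smul_eq_mul, ← sum_const]
    exact sum_le_sum key
  obtain ⟨S, hS, h1⟩ := exists_le_of_sum_le ⟨∅, empty_mem_powerset T⟩ hsum
  exact ⟨S, mem_powerset.1 hS, h1⟩

/-- fibers of a homomorphism are not larger than the kernel -/
theorem card_fiber_le {G H : Type} [AddCommGroup G] [AddCommGroup H] [Fintype G] [DecidableEq H]
    (f : G →+ H) (A : Finset G) (y : H) :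
    (A.filter (fun c => f c = y)).card ≤ ((univ : Finset G).filter (fun c => f c = 0)).card := by
  classical
  rcases (A.filter (fun c => f c = y)).eq_empty_or_nonempty with h | ⟨c0, hc0⟩
  · rw [h, card_empty]
    exact Nat.zero_le _
  · refine card_le_card_of_injOn (fun c => c - c0) ?_ (fun a _ b _ h => sub_left_injective h)
    intro c hc
    have h1 := (mem_filter.1 hc).2
    have h2 := (mem_filter.1 hc0).2
    refine mem_coe.2 (mem_filter.2 ⟨mem_univ _, ?_⟩)
    rw [map_sub, h1, h2, sub_self]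

section field
variable {F : Type} [Field F] [Fintype F] [DecidableEq F] {n : ℕ}

theorem card_ker (M : Matrix (Fin n) (Fin n) F) :
    ((univ : Finset (Fin n → F)).filter (fun c => Matrix.vecMul c M = 0)).card =
      Fintype.card F ^ (n - M.rank) := by
  classical
  have h1 : ((univ : Finset (Fin n → F)).filter (fun c => Matrix.vecMul c M = 0)).card =
      Fintype.card (LinearMap.ker (Matrix.mulVecLin M.transpose)) := by
    rw [← Fintype.card_coe]
    refine Fintype.card_congr ⟨fun c => ⟨c.1, ?_⟩, fun c => ⟨c.1, ?_⟩, fun _ => rfl, fun _ => rfl⟩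
    · rw [LinearMap.mem_ker, Matrix.mulVecLin_apply, Matrix.mulVec_transpose]
      exact (mem_filter.1 c.2).2
    · have h := c.2
      rw [LinearMap.mem_ker, Matrix.mulVecLin_apply, Matrix.mulVec_transpose] at h
      exact mem_filter.2 ⟨mem_univ _, h⟩
  rw [h1, Module.card_eq_pow_finrank (K := F)]
  congr 1
  have h2 := LinearMap.finrank_range_add_finrank_ker (Matrix.mulVecLin M.transpose)
  rw [Module.finrank_fin_fun] at h2
  have h3 : Module.finrank F (LinearMap.range (Matrix.mulVecLin M.transpose)) = M.rank := by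
    rw [← Matrix.rank_transpose M]
    rfl
  omega

theorem card_van (T : Finset (Fin n)) :
    ((univ : Finset (Fin n → F)).filter (fun y => ∀ b ∈ T, y b = 0)).card =
      Fintype.card F ^ (n - T.card) := by
  classical
  have h1 : (univ : Finset (Fin n → F)).filter (fun y => ∀ b ∈ T, y b = 0) =
      Fintype.piFinset (fun b => if b ∈ T then ({0} : Finset F) else univ) := by
    ext y
    rw [mem_filter, Fintype.mem_piFinset]
    constructor
    · rintro ⟨-, h⟩ b
      split_ifs with hb
      · exact mem_singleton.2 (h b hb)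
      · exact mem_univ _
    · intro h
      refine ⟨mem_univ _, fun b hb => ?_⟩
      have := h b
      rw [if_pos hb] at this
      exact mem_singleton.1 this
  rw [h1, Fintype.card_piFinset]
  have h2 : ∀ b : Fin n, (if b ∈ T then ({0} : Finset F) else univ).card =
      if b ∈ T then 1 else Fintype.card F := by
    intro b
    split_ifs
    · exact card_singleton _
    · rfl
  simp only [h2]
  rw [prod_ite, prod_const_one, one_mul, prod_const]
  congr 1
  have h3 : univ.filter (fun b : Fin n => b ∉ T) = Tᶜ := by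
    ext b
    simp
  rw [h3, card_compl, Fintype.card_fin]

/-- the kernel modulo the columns in `T` -/
theorem card_kerT (M : Matrix (Fin n) (Fin n) F) (T : Finset (Fin n)) :
    ((univ : Finset (Fin n → F)).filter (fun c => ∀ b ∈ T, Matrix.vecMul c M b = 0)).card ≤
      Fintype.card F ^ ((n - M.rank) + (n - T.card)) := by
  classical
  have h1 := card_le_mul_card_image_of_maps_to
    (s := (univ : Finset (Fin n → F)).filter (fun c => ∀ b ∈ T, Matrix.vecMul c M b = 0))
    (t := (univ : Finset (Fin n → F)).filter (fun y => ∀ b ∈ T, y b = 0))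
    (f := fun c => Matrix.vecMul c M)
    (fun c hc => mem_filter.2 ⟨mem_univ _, (mem_filter.1 hc).2⟩)
    (Fintype.card F ^ (n - M.rank)) (fun y _ => by
      rw [← card_ker M]
      exact card_fiber_le (Matrix.vecMulLinear M).toAddMonoidHom _ y)
  rwa [card_van, ← pow_add] at h1

end field

end T3

open Finset T3

theorem pf_S3 : S3 := by
  classical
  intro s N L m lam n α K q hq hqN hsN w hw e he T hT hhc
  have : Fact q.Prime := ⟨hq⟩
  have hq1 : 1 ≤ q := hq.one_le
  have hN1 : 1 ≤ N := hq1.trans hqN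
  have hn : n ≤ N := by
    have h1 := Fintype.card_le_of_injective e he
    rw [Fintype.card_fin, Fintype.card_sum, Fintype.card_fin] at h1
    omega
  -- (a)
  have hbad : ∀ b : Fin n, ∃ (v : Pt s → ℤ) (i j : Fin s), b ∈ T → v ∈ XX α K (N ^ m) ∧
      (e b = Sum.inl i ∨ e b = Sum.inr j) ∧
      ¬ ((q : ℤ) ^ (α q i j)) ∣ v (Sum.inl i) - v (Sum.inr j) := by
    intro b
    by_cases hb : b ∈ T
    · obtain ⟨v, hv, i, j, h1, h2⟩ := hT b hb
      exact ⟨v, i, j, fun _ => ⟨hv, h1, h2⟩⟩
    · rcases h : e b with i | i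
      · exact ⟨0, i, i, fun h => absurd h hb⟩
      · exact ⟨0, i, i, fun h => absurd h hb⟩
  choose v ii jj hv using hbad
  -- (b)
  let W : Finset (Fin n) → Pt s → ℤ := fun S p => ∑ b ∈ S, v b p
  obtain ⟨S, hST, hhalf⟩ := exists_half T (fun S b =>
    ¬ ((q : ℤ) ^ (α q (ii b) (jj b))) ∣ W S (Sum.inl (ii b)) - W S (Sum.inr (jj b))) (by
      intro b hb S _ hbS
      by_contra hcon
      push Not at hcon
      obtain ⟨h1, h2⟩ := hcon
      apply (hv b hb).2.2
      have h3 := dvd_sub h2 h1
      have h4 : W (insert b S) (Sum.inl (ii b)) - W (insert b S) (Sum.inr (jj b)) -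
          (W S (Sum.inl (ii b)) - W S (Sum.inr (jj b))) =
          v b (Sum.inl (ii b)) - v b (Sum.inr (jj b)) := by
        simp only [W, sum_insert hbS]
        ring
      rwa [h4] at h3)
  set T2 := T.filter (fun b =>
    ¬ ((q : ℤ) ^ (α q (ii b) (jj b))) ∣ W S (Sum.inl (ii b)) - W S (Sum.inr (jj b))) with hT2
  have hWin : InL α K (W S) := by
    have h1 := inL_sum S (fun _ => (1 : ℤ)) v (fun b hb => (mem_XX.1 (hv b (hST hb)).1).2)
    simpa [W] using h1
  have hWb : ∀ p, |W S p| ≤ (N : ℤ) ^ (m + 1) := by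
    intro p
    calc |W S p| ≤ ∑ b ∈ S, |v b p| := abs_sum_le_sum_abs _ _
      _ ≤ ∑ b ∈ S, ((N ^ m : ℕ) : ℤ) :=
        sum_le_sum fun b hb => (mem_XX.1 (hv b (hST hb)).1).1 p
      _ = (S.card : ℤ) * (N : ℤ) ^ m := by rw [sum_const, nsmul_eq_mul]; push_cast; rfl
      _ ≤ (N : ℤ) * (N : ℤ) ^ m := by
        apply mul_le_mul_of_nonneg_right _ (by positivity)
        have h1 : S.card ≤ n := by
          have := card_le_univ S
          rwa [Fintype.card_fin] at this
        exact_mod_cast h1.trans hn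
      _ = (N : ℤ) ^ (m + 1) := by ring
  -- (c)
  let U : (Fin n → ZMod q) → Pt s → ℤ := fun c p => ∑ a, ((c a).val : ℤ) * w a p
  have hUin : ∀ c, InL α K (U c) := fun c =>
    inL_sum univ (fun a => ((c a).val : ℤ)) w (fun a _ => (mem_XX.1 (hw a)).2)
  have hUb : ∀ c p, |U c p| ≤ (N : ℤ) ^ (L + 2) := by
    intro c p
    calc |U c p| ≤ ∑ a : Fin n, |((c a).val : ℤ) * w a p| := abs_sum_le_sum_abs _ _
      _ ≤ ∑ a : Fin n, (N : ℤ) * (N : ℤ) ^ L := by
        refine sum_le_sum fun a _ => ?_
        rw [abs_mul]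
        apply mul_le_mul _ _ (abs_nonneg _) (by positivity)
        · rw [Nat.abs_cast]
          exact_mod_cast (ZMod.val_lt (c a)).le.trans hqN
        · have := (mem_XX.1 (hw a)).1 p
          push_cast at this
          exact this
      _ = (n : ℤ) * ((N : ℤ) * (N : ℤ) ^ L) := by
        rw [sum_const, card_univ, Fintype.card_fin, nsmul_eq_mul]
      _ ≤ (N : ℤ) * ((N : ℤ) * (N : ℤ) ^ L) := by
        apply mul_le_mul_of_nonneg_right _ (by positivity)
        exact_mod_cast hn
      _ = (N : ℤ) ^ (L + 2) := by ring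
  have hNZ : (1 : ℤ) ≤ (N : ℤ) := by exact_mod_cast hN1
  have hUX : ∀ c, U c ∈ XX α K (N ^ (L + m + 4)) := by
    intro c
    refine mem_XX.2 ⟨fun p => ?_, hUin c⟩
    push_cast
    exact (hUb c p).trans (pow_le_pow_right₀ hNZ (by omega))
  have hUWX : ∀ c, (fun p => U c p * W S p) ∈ XX α K (N ^ (L + m + 4)) := by
    intro c
    refine mem_XX.2 ⟨fun p => ?_, inL_mul (hUin c) hWin⟩
    push_cast
    rw [abs_mul]
    calc |U c p| * |W S p| ≤ (N : ℤ) ^ (L + 2) * (N : ℤ) ^ (m + 1) :=
          mul_le_mul (hUb c p) (hWb p) (abs_nonneg _) (by positivity)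
      _ = (N : ℤ) ^ (L + m + 3) := by rw [← pow_add]; congr 1; omega
      _ ≤ (N : ℤ) ^ (L + m + 4) := pow_le_pow_right₀ hNZ (by omega)
  let M : Matrix (Fin n) (Fin n) (ZMod q) := Matrix.of fun a b => ((w a (e b) : ℤ) : ZMod q)
  have hUM : ∀ c b, ((U c (e b) : ℤ) : ZMod q) = Matrix.vecMul c M b := by
    intro c b
    simp only [U, M, Matrix.vecMul, dotProduct, Matrix.of_apply]
    push_cast
    refine sum_congr rfl fun a _ => ?_
    rw [ZMod.natCast_zmod_val]
  let Cl := (XX α K (N ^ (L + m + 4))).image (cls α q)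
  let Ph : (Fin n → ZMod q) → (Fin s × Fin s → ℤ) × (Fin s × Fin s → ℤ) :=
    fun c => (cls α q (U c), cls α q (fun p => U c p * W S p))
  -- (d)
  have hcls : ∀ u u' : Pt s → ℤ, cls α q u = cls α q u' → ∀ i j,
      ((q : ℤ) ^ (α q i j)) ∣ (u (Sum.inl i) - u' (Sum.inl i)) - (u (Sum.inr j) - u' (Sum.inr j)) := by
    intro u u' h i j
    have h1 := congrFun h (i, j)
    simp only [cls] at h1
    have h2 := Int.ModEq.dvd (show u (Sum.inl i) - u (Sum.inr j) ≡ u' (Sum.inl i) - u' (Sum.inr j)
      [ZMOD (q : ℤ) ^ (α q i j)] from h1)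
    have h3 : (u (Sum.inl i) - u' (Sum.inl i)) - (u (Sum.inr j) - u' (Sum.inr j)) =
        -(u' (Sum.inl i) - u' (Sum.inr j) - (u (Sum.inl i) - u (Sum.inr j))) := by ring
    rw [h3]
    exact (dvd_neg).2 h2
  have hker : ∀ c c', Ph c = Ph c' → ∀ b ∈ T2, Matrix.vecMul (c - c') M b = 0 := by
    intro c c' hcc b hb
    obtain ⟨hbT, hbW⟩ := mem_filter.1 hb
    obtain ⟨hP1, hP2⟩ := Prod.mk.inj hcc
    have h1 := hcls _ _ hP1 (ii b) (jj b)
    have h2 := hcls _ _ hP2 (ii b) (jj b)
    set ui := U c (Sum.inl (ii b)) - U c' (Sum.inl (ii b)) with hui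
    set uj := U c (Sum.inr (jj b)) - U c' (Sum.inr (jj b)) with huj
    set Wi := W S (Sum.inl (ii b)) with hWi
    set Wj := W S (Sum.inr (jj b)) with hWj
    have h3 : ((q : ℤ) ^ (α q (ii b) (jj b))) ∣ ui * (Wi - Wj) := by
      have h4 : ui * (Wi - Wj) = (U c (Sum.inl (ii b)) * Wi - U c' (Sum.inl (ii b)) * Wi -
          (U c (Sum.inr (jj b)) * Wj - U c' (Sum.inr (jj b)) * Wj)) - Wj * (ui - uj) := by
        rw [hui, huj]
        ring
      rw [h4]
      exact dvd_sub h2 (Dvd.dvd.mul_left h1 _)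
    have hqi : (q : ℤ) ∣ ui := by
      by_contra hnd
      have hco : IsCoprime ((q : ℤ) ^ (α q (ii b) (jj b))) ui :=
        IsCoprime.pow_left ((Nat.prime_iff_prime_int.1 hq).irreducible.coprime_iff_not_dvd.2 hnd)
      exact hbW (hco.dvd_of_dvd_mul_left h3)
    have hα : α q (ii b) (jj b) ≠ 0 := by
      intro h0
      apply hbW
      rw [h0, pow_zero]
      exact one_dvd _
    have hqj : (q : ℤ) ∣ uj := by
      have h4 : (q : ℤ) ∣ ui - uj := (dvd_pow_self _ hα).trans h1
      have h5 : uj = ui - (ui - uj) := by ring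
      rw [h5]
      exact dvd_sub hqi h4
    have hqe : (q : ℤ) ∣ U c (e b) - U c' (e b) := by
      rcases (hv b hbT).2.1 with h | h
      · rw [h]
        exact hqi
      · rw [h]
        exact hqj
    have h6 := (ZMod.intCast_zmod_eq_zero_iff_dvd _ q).2 hqe
    push_cast at h6
    rw [hUM, hUM] at h6
    rw [Matrix.sub_vecMul, Pi.sub_apply]
    exact h6
  -- counting
  have hcount := card_le_mul_card_image_of_maps_to
    (s := (univ : Finset (Fin n → ZMod q))) (t := Cl ×ˢ Cl) (f := Ph)
    (fun c _ => mem_product.2 ⟨mem_image_of_mem _ (hUX c), mem_image_of_mem _ (hUWX c)⟩)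
    (q ^ ((n - M.rank) + (n - T2.card))) (fun y _ => by
      have hk := card_kerT M T2
      rw [ZMod.card] at hk
      refine le_trans ?_ hk
      rcases ((univ : Finset (Fin n → ZMod q)).filter
        (fun c => Ph c = y)).eq_empty_or_nonempty with h | ⟨c0, hc0⟩
      · rw [h, card_empty]
        exact Nat.zero_le _
      · refine card_le_card_of_injOn (fun c => c - c0) ?_ (fun a _ b _ h => sub_left_injective h)
        intro c hc
        have h1 := (mem_filter.1 hc).2
        have h2 := (mem_filter.1 hc0).2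
        refine mem_coe.2 (mem_filter.2 ⟨mem_univ _, ?_⟩)
        exact hker c c0 (h1.trans h2.symm))
  rw [card_product, card_univ, Fintype.card_fun, ZMod.card, Fintype.card_fin] at hcount
  have hCl : Cl.card ≤ q ^ lam := hhc
  have h7 : q ^ n ≤ q ^ ((n - M.rank) + (n - T2.card) + 2 * lam) := by
    refine hcount.trans ?_
    rw [pow_add _ _ (2 * lam), two_mul, pow_add q lam lam]
    exact Nat.mul_le_mul_left _ (Nat.mul_le_mul hCl hCl)
  have h8 := (Nat.pow_le_pow_iff_right hq.one_lt).1 h7
  have h9 : T2.card ≤ n := by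
    have := card_le_univ T2
    rwa [Fintype.card_fin] at this
  change T.card ≤ 4 * lam + 2 * (n - M.rank)
  omega

end Pool.Agent.H472.VP
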