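import Pool.Agent.H472.VP.Stmts

/-! S4: the determinant bound. -/

set_option autoImplicit false

namespace Pool.Agent.H472.VP

namespace T4

open Finset Module

lemma dvd_det_of_cols {n : ℕ} (A : Matrix (Fin n) (Fin n) ℤ) (q : ℤ) (J : Finset (Fin n))
    (h : ∀ j ∈ J, ∀ i, q ∣ A i j) : q ^ J.card ∣ A.det := by
  classical
  rw [Matrix.det_apply]
  refine Finset.dvd_sum fun σ _ => ?_
  rw [Units.smul_def, zsmul_eq_mul]
  apply Dvd.dvd.mul_left
  have h1 : q ^ J.card = ∏ j : Fin n, if j ∈ J then q else 1 := by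
    rw [Finset.prod_ite_mem, Finset.univ_inter, Finset.prod_const]
  rw [h1]
  refine Finset.prod_dvd_prod_of_dvd _ _ fun j _ => ?_
  split_ifs with hj
  · exact h j hj _
  · exact one_dvd _

lemma dvd_det {n : ℕ} (q : ℕ) (hq : q.Prime) (M : Matrix (Fin n) (Fin n) ℤ) :
    (q : ℤ) ^ (n - (M.map (Int.cast : ℤ → ZMod q)).rank) ∣ M.det := by
  classical
  have : Fact q.Prime := ⟨hq⟩
  set M' : Matrix (Fin n) (Fin n) (ZMod q) := M.map (Int.cast : ℤ → ZMod q) with hM'
  set K := LinearMap.ker M'.mulVecLin with hK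
  have hfr : finrank (ZMod q) K = n - M'.rank := by
    have h1 : M'.rank + finrank (ZMod q) K = finrank (ZMod q) (Fin n → ZMod q) :=
      LinearMap.finrank_range_add_finrank_ker M'.mulVecLin
    rw [finrank_fin_fun] at h1
    omega
  rw [← hfr]
  generalize hd : finrank (ZMod q) K = d
  let b : Basis (Fin d) (ZMod q) K := finBasisOfFinrankEq (ZMod q) K hd
  have hv : LinearIndependent (ZMod q) (fun i => ((b i : K) : Fin n → ZMod q)) :=
    b.linearIndependent.map' K.subtype (Submodule.ker_subtype K)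
  obtain ⟨v, hvd⟩ : ∃ v : Fin d → (Fin n → ZMod q), v = fun i => ((b i : K) : Fin n → ZMod q) :=
    ⟨_, rfl⟩
  rw [← hvd] at hv
  have hs : LinearIndepOn (ZMod q) id (Set.range v) := hv.linearIndepOn_id
  let B := Basis.extend hs
  have hfin : Finite (hs.extend (Set.subset_univ (Set.range v))) := Module.Finite.finite_basis B
  let _ : Fintype (hs.extend (Set.subset_univ (Set.range v))) := Fintype.ofFinite _
  have hcard : Fintype.card (hs.extend (Set.subset_univ (Set.range v))) = n := by
    rw [← finrank_eq_card_basis B, finrank_fin_fun]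
  let e : (hs.extend (Set.subset_univ (Set.range v))) ≃ Fin n := Fintype.equivFinOfCardEq hcard
  let B' := B.reindex e
  let f : Fin d → (hs.extend (Set.subset_univ (Set.range v))) := fun k =>
    ⟨v k, hs.subset_extend _ (Set.mem_range_self k)⟩
  have hf : Function.Injective f := by
    intro x y hxy
    apply hv.injective
    exact congrArg Subtype.val hxy
  have hB' : ∀ k : Fin d, B' (e (f k)) = ((b k : K) : Fin n → ZMod q) := by
    intro k
    simp only [B', Basis.reindex_apply, Equiv.symm_apply_apply, B, Basis.coe_extend, f]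
    rw [hvd]
  let P' : Matrix (Fin n) (Fin n) (ZMod q) := Matrix.of fun i j => B' j i
  have hP' : P'.det ≠ 0 := by
    have h1 : IsUnit P' := by
      rw [← Matrix.linearIndependent_cols_iff_isUnit]
      exact B'.linearIndependent
    exact (Matrix.isUnit_iff_isUnit_det _).1 h1 |>.ne_zero
  let P : Matrix (Fin n) (Fin n) ℤ := Matrix.of fun i j => ((B' j i).val : ℤ)
  have hPP : P.map (Int.cast : ℤ → ZMod q) = P' := by
    ext i j
    simp [P, P']
  have hPdet : ¬ (q : ℤ) ∣ P.det := by
    intro hdvd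
    apply hP'
    rw [← hPP]
    have h1 : ((P.det : ℤ) : ZMod q) = (P.map (Int.cast : ℤ → ZMod q)).det := by
      have := RingHom.map_det (Int.castRingHom (ZMod q)) P
      exact this
    rw [← h1]
    exact (ZMod.intCast_zmod_eq_zero_iff_dvd _ _).2 hdvd
  have hcop : IsCoprime ((q : ℤ) ^ d) P.det := by
    apply IsCoprime.pow_left
    exact ((Nat.prime_iff_prime_int.1 hq).coprime_iff_not_dvd).2 hPdet
  apply hcop.dvd_of_dvd_mul_right
  rw [← Matrix.det_mul]
  let J : Finset (Fin n) := (Finset.univ : Finset (Fin d)).map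
    ⟨fun k => e (f k), fun x y h => hf (e.injective h)⟩
  have hJ : J.card = d := by simp [J]
  rw [← hJ]
  apply dvd_det_of_cols
  intro j hj i
  simp only [J, Finset.mem_map, Finset.mem_univ, true_and, Function.Embedding.coeFn_mk] at hj
  obtain ⟨k, rfl⟩ := hj
  rw [← ZMod.intCast_zmod_eq_zero_iff_dvd]
  have h1 : (((M * P) i (e (f k)) : ℤ) : ZMod q) = (M'.mulVec (B' (e (f k)))) i := by
    simp only [Matrix.mul_apply, Matrix.mulVec, dotProduct]
    push_cast
    refine Finset.sum_congr rfl fun l _ => ?_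
    simp [M', P]
  rw [h1, hB']
  have h2 : M'.mulVecLin ((b k : K) : Fin n → ZMod q) = 0 := (b k).2
  exact congrFun h2 i

end T4

theorem pf_S4 : S4 := by
  intro n B M hM hB S hS
  have h1 : (∏ q ∈ S, ((q : ℤ) ^ (n - (M.map (Int.cast : ℤ → ZMod q)).rank))) ∣ M.det := by
    apply Finset.prod_dvd_of_coprime
    · intro a ha b hb hab
      apply IsCoprime.pow
      rw [Nat.isCoprime_iff_coprime]
      exact (Nat.coprime_primes (hS a ha) (hS b hb)).2 hab
    · intro q hq
      exact T4.dvd_det q (hS q hq) M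
  have h2 := Int.le_of_dvd (abs_pos.2 hM) ((dvd_abs _ _).2 h1)
  have h3 := Matrix.det_le (A := M) (abv := AbsoluteValue.abs) (x := (B : ℤ)) hB
  rw [Fintype.card_fin] at h3
  have h4 : |M.det| ≤ n.factorial • (B : ℤ) ^ n := h3
  have h5 := h2.trans h4
  rw [nsmul_eq_mul] at h5
  exact_mod_cast h5

end Pool.Agent.H472.VP
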