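import Pool.Agent.H472.VP.Stmts

/-! S5: few non-frozen points. -/

set_option autoImplicit false

namespace Pool.Agent.H472.VP

open Finset

namespace T5

theorem bad_false {s : ℕ} {α : ℕ → Fin s → Fin s → ℕ} {K : Finset ℕ} {R q : ℕ} {p : Pt s}
    (hq : q ∈ K) : ¬ Bad α K R q p := by
  classical
  rintro ⟨w, hw, i, j, -, h⟩
  unfold XX at hw
  exact h ((mem_filter.1 hw).2 q hq i j)

theorem XX_abs {s : ℕ} {α : ℕ → Fin s → Fin s → ℕ} {K : Finset ℕ} {R : ℕ} {w : Pt s → ℤ}
    (hw : w ∈ XX α K R) (p : Pt s) : |w p| ≤ (R : ℤ) := by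
  classical
  unfold XX at hw
  have h := Finset.mem_Icc.1 (Fintype.mem_piFinset.1 (mem_filter.1 hw).1 p)
  exact abs_le.2 h

end T5

open T5

theorem pf_S5 (h3 : S3) (h4 : S4) : S5 := by
  intro s N L m lam n d α ν K Q1 T hT hd hs hsN hn hQ hhc w hw e he hdet hW F hF
  classical
  have hN2 : 2 ≤ N := by omega
  have hlogN : 0 < Real.log N := Real.log_pos (by exact_mod_cast hN2)
  have hd0 : (0 : ℝ) < d := by exact_mod_cast hd
  have hs0 : (0 : ℝ) < s := by exact_mod_cast hs
  set W1 := wt ν Q1 with hW1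
  have hW0 : 0 < W1 := lt_of_lt_of_le (by positivity) hW
  set f : ℕ → ℝ := fun q => (ν q : ℝ) * Real.log (q : ℝ) with hf
  have hlog : ∀ q ∈ Q1, 0 ≤ Real.log (q : ℝ) := fun q _ => Real.log_natCast_nonneg q
  have hf0 : ∀ q ∈ Q1, 0 ≤ f q := fun q hq => mul_nonneg (Nat.cast_nonneg _) (hlog q hq)
  set rk' : ℕ → ℕ := fun q =>
    n - ((Matrix.of fun a b => ((w a (e b) : ℤ) : ZMod q))).rank with hrk
  -- determinant
  have hD := h4 n (N ^ L) (Matrix.of fun a b => w a (e b)) hdet (fun a b => by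
    have := XX_abs (hw a) (e b)
    simpa using this) (Q1.filter fun q => q ∉ K) (fun q hq => (hQ q (mem_filter.1 hq).1).1)
  have hD1 : ∏ q ∈ Q1.filter (fun q => q ∉ K), q ^ rk' q ≤ n.factorial * (N ^ L) ^ n := hD
  have hD2 : ∑ q ∈ Q1.filter (fun q => q ∉ K), (rk' q : ℝ) * Real.log q ≤
      ((n : ℝ) * L + 1) * Real.log N := by
    have e1 : ∑ q ∈ Q1.filter (fun q => q ∉ K), (rk' q : ℝ) * Real.log q =
        Real.log ((∏ q ∈ Q1.filter (fun q => q ∉ K), q ^ rk' q : ℕ) : ℝ) := by
      push_cast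
      rw [Real.log_prod]
      · refine sum_congr rfl fun q _ => ?_
        rw [Real.log_pow]
      · intro q hq
        have := (hQ q (mem_filter.1 hq).1).1.pos
        positivity
    rw [e1]
    have pos : 0 < ∏ q ∈ Q1.filter (fun q => q ∉ K), q ^ rk' q :=
      Finset.prod_pos fun q hq => pow_pos (hQ q (mem_filter.1 hq).1).1.pos _
    have h5 : ((∏ q ∈ Q1.filter (fun q => q ∉ K), q ^ rk' q : ℕ) : ℝ) ≤
        (N : ℝ) ^ (n * L + 1) := by
      have h6 : n.factorial * (N ^ L) ^ n ≤ N ^ (n * L + 1) := by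
        calc n.factorial * (N ^ L) ^ n ≤ N * (N ^ L) ^ n := Nat.mul_le_mul_right _ hn
          _ = N ^ (n * L + 1) := by rw [← pow_mul, mul_comm L n, pow_succ, mul_comm]
      exact_mod_cast hD1.trans h6
    have h7 := Real.log_le_log (by exact_mod_cast pos) h5
    rw [Real.log_pow] at h7
    push_cast at h7 ⊢
    exact h7
  -- the bad mass of one point
  have hb : ∀ b ∈ F, W1 / 2 ≤ ∑ q ∈ Q1, if Bad α K (N ^ m) q (e b) then f q else 0 := by
    intro b hb
    have h1 := hF b hb
    have h2 : wt ν (Gd α Q1 K (N ^ m) (e b)) +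
        ∑ q ∈ Q1, (if Bad α K (N ^ m) q (e b) then f q else 0) = W1 := by
      rw [hW1]
      unfold wt Gd
      rw [sum_filter, ← sum_add_distrib]
      refine sum_congr rfl fun q _ => ?_
      by_cases hbad : Bad α K (N ^ m) q (e b)
      · simp [hbad, hf]
      · simp [hbad]
    linarith
  have hsum : (F.card : ℝ) * (W1 / 2) ≤
      ∑ q ∈ Q1, f q * ((F.filter fun b => Bad α K (N ^ m) q (e b)).card : ℝ) := by
    have h1 := sum_le_sum hb
    rw [sum_const, nsmul_eq_mul, sum_comm] at h1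
    refine h1.trans (le_of_eq (sum_congr rfl fun q _ => ?_))
    rw [← sum_filter, sum_const, nsmul_eq_mul, mul_comm]
  have hone : ∀ q ∈ Q1, f q * ((F.filter fun b => Bad α K (N ^ m) q (e b)).card : ℝ) ≤
      4 * lam * f q + (if q ∉ K then 2 * (s / d) * ((rk' q : ℝ) * Real.log q) else 0) := by
    intro q hq
    by_cases hK : q ∈ K
    · have h1 : F.filter (fun b => Bad α K (N ^ m) q (e b)) = ∅ :=
        filter_eq_empty_iff.2 fun b _ => bad_false hK
      have h2 := hf0 q hq
      rw [h1, card_empty, Nat.cast_zero, mul_zero, if_neg (not_not.2 hK), add_zero]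
      positivity
    · rw [if_pos hK]
      have h1 := h3 s N L m lam n α K q (hQ q hq).1 (hQ q hq).2.1 hsN w hw e he
        (F.filter fun b => Bad α K (N ^ m) q (e b)) (fun b hb => (mem_filter.1 hb).2)
        (hhc q (mem_sdiff.2 ⟨hq, hK⟩))
      have h2 : ((F.filter fun b => Bad α K (N ^ m) q (e b)).card : ℝ) ≤
          4 * lam + 2 * rk' q := by exact_mod_cast h1
      have h3' : f q * (2 * rk' q) ≤ 2 * (s / d) * ((rk' q : ℝ) * Real.log q) := by
        have h4 : (ν q : ℝ) ≤ s / d := by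
          rw [le_div_iff₀ hd0, mul_comm]
          exact_mod_cast (hQ q hq).2.2
        have h5 : (ν q : ℝ) * (2 * (rk' q * Real.log q)) ≤ s / d * (2 * (rk' q * Real.log q)) :=
          mul_le_mul_of_nonneg_right h4 (by have := hlog q hq; positivity)
        calc f q * (2 * rk' q) = (ν q : ℝ) * (2 * (rk' q * Real.log q)) := by
              simp only [hf]
              ring
          _ ≤ _ := h5
          _ = _ := by ring
      calc f q * ((F.filter fun b => Bad α K (N ^ m) q (e b)).card : ℝ)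
          ≤ f q * (4 * lam + 2 * rk' q) := mul_le_mul_of_nonneg_left h2 (hf0 q hq)
        _ = 4 * lam * f q + f q * (2 * rk' q) := by ring
        _ ≤ _ := by linarith
  have htot := hsum.trans (sum_le_sum hone)
  rw [sum_add_distrib, ← mul_sum, ← sum_filter, ← mul_sum] at htot
  have e2 : ∑ q ∈ Q1, f q = W1 := rfl
  rw [e2] at htot
  have h8 : 2 * (s / d : ℝ) * ∑ q ∈ Q1.filter (fun q => q ∉ K), (rk' q : ℝ) * Real.log q ≤
      2 * ((n : ℝ) * L + 1) * (W1 / T) := by
    have h9 : (s / d : ℝ) * Real.log N ≤ W1 / T := by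
      rw [le_div_iff₀ hT]
      linarith
    have hsd : (0 : ℝ) < s / d := by positivity
    calc 2 * (s / d : ℝ) * ∑ q ∈ Q1.filter (fun q => q ∉ K), (rk' q : ℝ) * Real.log q
        ≤ 2 * (s / d : ℝ) * (((n : ℝ) * L + 1) * Real.log N) :=
          mul_le_mul_of_nonneg_left hD2 (by positivity)
      _ = 2 * ((n : ℝ) * L + 1) * (s / d * Real.log N) := by ring
      _ ≤ _ := mul_le_mul_of_nonneg_left h9 (by positivity)
  have h10 : (F.card : ℝ) * (W1 / 2) ≤ (8 * lam + 4 * ((n : ℝ) * L + 1) / T) * (W1 / 2) := by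
    refine (htot.trans (add_le_add_right h8 _)).trans (le_of_eq ?_)
    field_simp
    ring
  exact le_of_mul_le_mul_right h10 (by positivity)

end Pool.Agent.H472.VP

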