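import Pool.Agent.H472.VP.Stmts
import Pool.Graph.R_pool_sql_team_seeded_ab47071d.TH900.VPC.Cov2

/-! Catching columns. -/

set_option autoImplicit false

namespace Pool.Agent.H472.VP

open Finset

namespace T6

open Pool.Agent.TH900.VPC

/-- the number of bad choices for one row -/
theorem one_row (s N L d t : ℕ) (β : ℕ → Fin s → ℕ) (ν : ℕ → ℕ) (Q1 Z : Finset ℕ) (T : ℝ)
    (hs : 1 ≤ s) (hN : 2 ≤ N) (hd : 1 ≤ d) (hT : 16 * ((L : ℝ) + 2) ≤ T)
    (hQ : ∀ q ∈ Q1, q.Prime ∧ d * ν q ≤ s ∧ ∑ j, β q j = ν q)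
    (hcol : ∀ j, ∑ q ∈ Q1, (β q j : ℝ) * Real.log q ≤ Real.log N)
    (hw : T * (s / d) * Real.log N ≤ wt ν Q1) (hZ : Z ⊆ Q1) (hZw : wt ν Q1 ≤ 2 * wt ν Z) :
    (((univ : Finset (Fin (d * t) → Fin s)).filter
      (fun τ => mass Z (fun q => Real.log q) (fun q => univ.sup (fun r => β q (τ r))) <
        ((L : ℝ) + 2) * Real.log N)).card : ℝ) ≤ (s : ℝ) ^ (d * t) * Real.exp (1 - 35 * t / 8) := by
  have hlog : 0 < Real.log N := Real.log_pos (by exact_mod_cast hN)
  have hL : (0 : ℝ) < ((L : ℝ) + 2) * Real.log N := by positivity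
  have hs0 : (0 : ℝ) < s := by exact_mod_cast hs
  have hd0 : (0 : ℝ) < d := by exact_mod_cast hd
  have hlq : ∀ q ∈ Q1, 0 ≤ Real.log (q : ℝ) := fun q _ => Real.log_natCast_nonneg q
  have h1 := cov_card Z (fun q => Real.log (q : ℝ)) (fun q hq => hlq q (hZ hq)) s d hd β ν
    (fun q hq => (hQ q (hZ hq)).2.2) (fun q hq => (hQ q (hZ hq)).2.1) _ hL (by
      intro j
      have e1 : mass Z (fun q => Real.log (q : ℝ)) (fun q => β q j) ≤
          ∑ q ∈ Q1, (β q j : ℝ) * Real.log q := by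
        unfold mass
        exact Finset.sum_le_sum_of_subset_of_nonneg hZ fun q hq _ =>
          mul_nonneg (Nat.cast_nonneg _) (hlq q hq)
      refine e1.trans ((hcol j).trans ?_)
      have e2 : (0 : ℝ) ≤ (L : ℝ) := Nat.cast_nonneg _
      nlinarith) hs (d * t)
  refine h1.trans (mul_le_mul_of_nonneg_left ((min_le_right _ _).trans
    (Real.exp_le_exp.2 ?_)) (by positivity))
  have hmass : mass Z (fun q => Real.log (q : ℝ)) ν = wt ν Z := rfl
  rw [hmass]
  push_cast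
  have e3 : (1 + 5 * ((d : ℝ) * t) / (8 * d)) = 1 + 5 * t / 8 := by
    field_simp
  have e4 : T * (s / d) * Real.log N / 2 ≤ wt ν Z := by linarith
  have e5 : 5 * (t : ℝ) ≤ 5 * ((d : ℝ) * t) / (8 * (s * (((L : ℝ) + 2) * Real.log N))) *
      wt ν Z := by
    have e6 : 5 * ((d : ℝ) * t) / (8 * (s * (((L : ℝ) + 2) * Real.log N))) *
        (T * (s / d) * Real.log N / 2) = 5 * t * (T / (16 * ((L : ℝ) + 2))) := by
      field_simp
      ring
    have e7 : 1 ≤ T / (16 * ((L : ℝ) + 2)) := by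
      rw [le_div_iff₀ (by positivity)]
      linarith
    have e8 : 5 * ((d : ℝ) * t) / (8 * (s * (((L : ℝ) + 2) * Real.log N))) *
        (T * (s / d) * Real.log N / 2) ≤
        5 * ((d : ℝ) * t) / (8 * (s * (((L : ℝ) + 2) * Real.log N))) * wt ν Z :=
      mul_le_mul_of_nonneg_left e4 (by positivity)
    rw [e6] at e8
    have e9 : (0 : ℝ) ≤ 5 * t := by positivity
    nlinarith
  rw [e3]
  linarith

theorem small (s t : ℕ) (ht : 1 ≤ t) (h : 2 * s < 2 ^ t) :
    (s : ℝ) * Real.exp (1 - 35 * t / 8) < 1 := by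
  have h1 : 2 * (s : ℝ) < 2 ^ t := by exact_mod_cast h
  have h2 : (2 : ℝ) ^ t ≤ Real.exp t := by
    have h3 : (2 : ℝ) ≤ Real.exp 1 := by
      have := Real.add_one_le_exp (1 : ℝ)
      linarith
    have h4 : Real.exp (t : ℝ) = Real.exp 1 ^ t := by
      rw [← Real.exp_nat_mul, mul_one]
    rw [h4]
    exact pow_le_pow_left₀ (by norm_num) h3 t
  have h5 : (s : ℝ) * Real.exp (1 - 35 * t / 8) ≤
      Real.exp t / 2 * Real.exp (1 - 35 * t / 8) :=
    mul_le_mul_of_nonneg_right (by linarith) (Real.exp_pos _).le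
  have h6 : Real.exp t / 2 * Real.exp (1 - 35 * t / 8) = Real.exp (1 - 27 * t / 8) / 2 := by
    rw [div_mul_eq_mul_div, ← Real.exp_add]
    congr 2
    ring
  have h7 : Real.exp (1 - 27 * (t : ℝ) / 8) ≤ 1 := by
    have h8 : (1 : ℝ) ≤ t := by exact_mod_cast ht
    have h9 : Real.exp (1 - 27 * (t : ℝ) / 8) ≤ Real.exp 0 := Real.exp_le_exp.2 (by linarith)
    rwa [Real.exp_zero] at h9
  rw [h6] at h5
  linarith

end T6

open Pool.Agent.TH900.VPC in
theorem pf_S6 : S6 := by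
  intro s N L d t α ν Q1 T hs hN hd ht hst hT hQ hcol hw Z hZ
  classical
  by_contra hcon
  push Not at hcon
  obtain ⟨I, hI⟩ : ∃ I : Finset (Fin s), I = univ.filter (fun i => wt ν Q1 ≤ 2 * wt ν (Z i)) :=
    ⟨_, rfl⟩
  obtain ⟨bad, hbad⟩ : ∃ bad : Fin s → Finset (Fin (d * t) → Fin s),
      ∀ i, bad i = (univ : Finset (Fin (d * t) → Fin s)).filter
        (fun τ => mass (Z i) (fun q => Real.log q) (fun q => univ.sup (fun r => α q i (τ r))) <
          ((L : ℝ) + 2) * Real.log N) := ⟨_, fun _ => rfl⟩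
  have hcover : (univ : Finset (Fin (d * t) → Fin s)) ⊆ I.biUnion bad := by
    intro J _
    obtain ⟨i, hi1, hi2⟩ := hcon J
    refine mem_biUnion.2 ⟨i, ?_, ?_⟩
    · rw [hI]
      exact mem_filter.2 ⟨mem_univ _, hi1⟩
    · rw [hbad]
      exact mem_filter.2 ⟨mem_univ _, hi2⟩
  have hcard : ((univ : Finset (Fin (d * t) → Fin s)).card : ℝ) = (s : ℝ) ^ (d * t) := by
    rw [Finset.card_univ, Fintype.card_pi_const, Fintype.card_fin]
    push_cast
    rfl
  have hs0 : (0 : ℝ) < (s : ℝ) ^ (d * t) := by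
    have : (0 : ℝ) < s := by exact_mod_cast hs
    positivity
  have h1 : ((univ : Finset (Fin (d * t) → Fin s)).card : ℝ) ≤ ∑ i ∈ I, ((bad i).card : ℝ) := by
    have h2 := (Finset.card_le_card hcover).trans Finset.card_biUnion_le
    exact_mod_cast h2
  have h3 : ∑ i ∈ I, ((bad i).card : ℝ) ≤
      ∑ i ∈ I, (s : ℝ) ^ (d * t) * Real.exp (1 - 35 * t / 8) := by
    refine Finset.sum_le_sum fun i hi => ?_
    rw [hI] at hi
    rw [hbad]
    exact T6.one_row s N L d t (fun q j => α q i j) ν Q1 (Z i) T hs hN hd hT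
      (fun q hq => ⟨(hQ q hq).1, (hQ q hq).2.1, (hQ q hq).2.2 i⟩) (hcol i) hw (hZ i)
      (mem_filter.1 hi).2
  have h4 : ∑ i ∈ I, (s : ℝ) ^ (d * t) * Real.exp (1 - 35 * t / 8) ≤
      (s : ℝ) * ((s : ℝ) ^ (d * t) * Real.exp (1 - 35 * t / 8)) := by
    rw [Finset.sum_const, nsmul_eq_mul]
    refine mul_le_mul_of_nonneg_right ?_ (by positivity)
    have h5 : I.card ≤ (univ : Finset (Fin s)).card := Finset.card_le_card (subset_univ _)
    rw [Finset.card_univ, Fintype.card_fin] at h5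
    exact_mod_cast h5
  have h6 := T6.small s t ht hst
  rw [hcard] at h1
  have h7 : (s : ℝ) ^ (d * t) ≤ (s : ℝ) ^ (d * t) * ((s : ℝ) * Real.exp (1 - 35 * t / 8)) := by
    linarith
  nlinarith

end Pool.Agent.H472.VP
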