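import Pool.Agent.H472.VP.Stmts

/-! S7: basis and pivot configuration. -/

set_option autoImplicit false

namespace Pool.Agent.H472.VP

namespace T7

open Finset

variable {P : Type}

/-- evaluation at `p` on a submodule -/
def ev (V : Submodule ℚ (P → ℚ)) (p : P) : Module.Dual ℚ V :=
  (LinearMap.proj p : (P → ℚ) →ₗ[ℚ] ℚ).comp V.subtype

theorem ev_apply (V : Submodule ℚ (P → ℚ)) (p : P) (u : V) : ev V p u = (u : P → ℚ) p := rfl

/-- if all functionals in `s` vanish at `u` then so does every functional in the span -/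
theorem span_vanish (V : Submodule ℚ (P → ℚ)) (b : Set P) (u : V)
    (hu : ∀ p ∈ b, (u : P → ℚ) p = 0) (f : Module.Dual ℚ V)
    (hf : f ∈ Submodule.span ℚ (ev V '' b)) : f u = 0 := by
  induction hf using Submodule.span_induction with
  | mem x hx =>
    obtain ⟨p, hp, rfl⟩ := hx
    exact hu p hp
  | zero => rfl
  | add x y _ _ h1 h2 => rw [LinearMap.add_apply, h1, h2, add_zero]
  | smul c x _ h1 => rw [LinearMap.smul_apply, h1, smul_zero]

/-- the evaluations span the dual -/
theorem ev_span [Fintype P] (V : Submodule ℚ (P → ℚ)) :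
    Submodule.span ℚ (Set.range (ev V)) = ⊤ := by
  classical
  have hfd : FiniteDimensional ℚ V := inferInstance
  by_contra hne
  have hlt : Submodule.span ℚ (Set.range (ev V)) < ⊤ := lt_top_iff_ne_top.2 hne
  obtain ⟨f, hf0, hf⟩ := Submodule.exists_dual_map_eq_bot_of_lt_top hlt inferInstance
  -- `f` is evaluation at some `u`
  obtain ⟨u, rfl⟩ := (Module.evalEquiv ℚ V).surjective f
  apply hf0
  have hu : u = 0 := by
    apply Subtype.ext
    funext p
    have h1 : (Module.evalEquiv ℚ V u) (ev V p) ∈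
        (Submodule.span ℚ (Set.range (ev V))).map (Module.evalEquiv ℚ V u) :=
      Submodule.mem_map_of_mem (Submodule.subset_span ⟨p, rfl⟩)
    rw [hf, Submodule.mem_bot] at h1
    exact h1
  rw [hu, map_zero]

/-- an enumeration of a set with `n` elements -/
theorem fin_enum {n : ℕ} {Q : Type} (b : Set Q) [Finite b] (h : Nat.card b = n) :
    Nonempty (Fin n ≃ b) := by
  have := Fintype.ofFinite b
  have : Fintype.card b = n := by rw [← h, Nat.card_eq_fintype_card]
  exact ⟨(Fintype.equivFinOfCardEq this).symm⟩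

end T7

open T7 in
theorem pf_S7 : S7 := by
  classical
  intro P _ _ A NF
  set V := VV A with hV
  have hfd : FiniteDimensional ℚ V := inferInstance
  have hn : rk A = Module.finrank ℚ V := rfl
  -- pivots inside NF
  obtain ⟨b1, hb1t, -, hb1s, hb1i⟩ := exists_linearIndepOn_extension
    (K := ℚ) (v := ev V) (s := ∅) (t := (NF : Set P)) (linearIndepOn_empty ℚ (ev V))
    (Set.empty_subset _)
  obtain ⟨b2, -, hb2, hb2s, hb2i⟩ := exists_linearIndepOn_extension
    (K := ℚ) (v := ev V) (s := b1) (t := Set.univ) hb1i (Set.subset_univ _)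
  rw [Set.image_univ] at hb2s
  have hb2top : Submodule.span ℚ (ev V '' b2) = ⊤ := by
    rw [eq_top_iff, ← ev_span V]
    exact Submodule.span_le.2 hb2s
  have hb2c : Nat.card b2 = rk A := by
    have h1 : Submodule.span ℚ (Set.range fun x : b2 => ev V x) = ⊤ := by
      rw [← hb2top, Set.image_eq_range]
    have h2 := Module.finrank_eq_nat_card_basis (Module.Basis.mk hb2i h1.ge)
    rw [hn, ← h2, Subspace.dual_finrank_eq]
  -- basis inside A
  obtain ⟨b3, hb3t, -, hb3s, hb3i⟩ := exists_linearIndepOn_extension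
    (K := ℚ) (v := (cf : (P → ℤ) → P → ℚ)) (s := ∅) (t := (A : Set (P → ℤ)))
    (linearIndepOn_empty ℚ _) (Set.empty_subset _)
  have hb3span : Submodule.span ℚ (cf '' b3) = V := by
    apply le_antisymm
    · exact Submodule.span_mono (Set.image_mono hb3t)
    · exact Submodule.span_le.2 hb3s
  have hb3f : Finite b3 := (A.finite_toSet.subset hb3t)
  have hb3c : Nat.card b3 = rk A := by
    have := Fintype.ofFinite b3
    have h1 : Submodule.span ℚ (Set.range fun x : b3 => (cf (x : P → ℤ))) = V := by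
      rw [← hb3span, Set.image_eq_range]
    have h2 := finrank_span_eq_card (R := ℚ) (b := fun x : b3 => (cf (x : P → ℤ))) hb3i
    rw [hn, Nat.card_eq_fintype_card, ← h2, h1]
  obtain ⟨e⟩ := fin_enum b2 hb2c
  obtain ⟨w⟩ := fin_enum b3 hb3c
  refine ⟨fun a => (w a : P → ℤ), fun b => (e b : P), fun a => hb3t (w a).2, ?_, ?_, ?_⟩
  · intro i j hij
    exact e.injective (Subtype.ext hij)
  · intro hdet
    have hdetQ : (Matrix.of fun a b => (((w a : P → ℤ) (e b : P) : ℤ) : ℚ)).det = 0 := by
      have := congrArg (Int.castRingHom ℚ) hdet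
      rw [RingHom.map_det, map_zero] at this
      exact this
    obtain ⟨c, hc0, hc⟩ := Matrix.exists_vecMul_eq_zero_iff.2 hdetQ
    apply hc0
    have hmem : ∀ a, cf (w a : P → ℤ) ∈ V := fun a => by
      rw [← hb3span]
      exact Submodule.subset_span ⟨_, (w a).2, rfl⟩
    set u : V := ∑ a, c a • (⟨cf (w a : P → ℤ), hmem a⟩ : V) with hu
    have huv : ∀ p : P, (u : P → ℚ) p = ∑ a, c a * (((w a : P → ℤ) p : ℤ) : ℚ) := by
      intro p
      rw [hu]
      simp [cf, Finset.sum_apply]
    have hu0 : ∀ p ∈ b2, (u : P → ℚ) p = 0 := by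
      intro p hp
      obtain ⟨b, hb⟩ := e.surjective ⟨p, hp⟩
      have h1 := congrFun hc b
      rw [huv p]
      have h2 : (e b : P) = p := by rw [hb]
      simp only [Matrix.vecMul, dotProduct, Matrix.of_apply, Pi.zero_apply, h2] at h1
      exact h1
    have hz : u = 0 := by
      apply Subtype.ext
      funext p
      exact span_vanish V b2 u hu0 (ev V p) (by rw [hb2top]; trivial)
    have hli : LinearIndependent ℚ (fun a : Fin (rk A) => cf (w a : P → ℤ)) :=
      hb3i.comp w w.injective
    rw [Fintype.linearIndependent_iff] at hli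
    funext a
    refine hli c ?_ a
    have h3 : ((u : V) : P → ℚ) = 0 := by rw [hz]; rfl
    rw [← h3, hu]
    simp
  · intro u hu h0 p hp
    have hspan : ev V p ∈ Submodule.span ℚ (ev V '' b1) := hb1s ⟨p, hp, rfl⟩
    have h1 := span_vanish V b1 ⟨cf u, hu⟩ (fun p' hp' => by
      obtain ⟨b, hb⟩ := e.surjective ⟨p', hb2 hp'⟩
      have h2 : (e b : P) = p' := by rw [hb]
      have h3 : u (e b : P) = 0 := h0 b (by show (e b : P) ∈ NF; rw [h2]; exact hb1t hp')
      rw [h2] at h3
      show ((u p' : ℤ) : ℚ) = 0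
      rw [h3, Int.cast_zero]) (ev V p) hspan
    have h4 : ((u p : ℤ) : ℚ) = 0 := h1
    exact_mod_cast h4

end Pool.Agent.H472.VP
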