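import Pool.Agent.H472.VP.Stmts

/-! S8: the cardinality from the rank. -/

set_option autoImplicit false

namespace Pool.Agent.H472.VP

open Finset

theorem pf_S8 (h7 : S7) : S8 := by
  intro P _ _ A R hA
  obtain ⟨w, e, -, -, -, hdet⟩ := h7 P A Finset.univ
  have h1 : A.card ≤
      (Fintype.piFinset fun _ : Fin (rk A) => Finset.Icc (-(R : ℤ)) (R : ℤ)).card := by
    refine Finset.card_le_card_of_injOn (fun u b => u (e b)) ?_ ?_
    · intro u hu
      rw [Finset.mem_coe] at hu
      rw [Finset.mem_coe, Fintype.mem_piFinset]
      intro b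
      rw [Finset.mem_Icc]
      exact abs_le.1 (hA u hu (e b))
    · intro u hu v hv huv
      funext p
      have h2 : cf (fun p => u p - v p) ∈ VV A := by
        have h3 : cf (fun p => u p - v p) = cf u - cf v := by
          funext p
          show ((u p - v p : ℤ) : ℚ) = (u p : ℚ) - (v p : ℚ)
          push_cast
          ring
        rw [h3]
        exact Submodule.sub_mem _ (Submodule.subset_span ⟨u, hu, rfl⟩)
          (Submodule.subset_span ⟨v, hv, rfl⟩)
      have h4 := hdet (fun p => u p - v p) h2 (fun b _ => ?_) p (Finset.mem_univ p)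
      · exact sub_eq_zero.1 h4
      · exact sub_eq_zero.2 (congrFun huv b)
  refine h1.trans (le_of_eq ?_)
  rw [Fintype.card_piFinset, Finset.prod_const, Finset.card_univ, Fintype.card_fin, Int.card_Icc]
  congr 1
  omega

end Pool.Agent.H472.VP
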