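import Pool.Agent.H472.VP.Stmts

/-! S9 (helper328, for helper472). -/

set_option autoImplicit false

namespace Pool.Agent.H472.VP

open Finset

namespace T9

variable {s : ℕ} {α : ℕ → Fin s → Fin s → ℕ} {K : Finset ℕ}

lemma inL_sum {ι : Type} (S : Finset ι) (c : ι → ℤ) (w : ι → Pt s → ℤ)
    (h : ∀ a ∈ S, InL α K (w a)) : InL α K (fun p => ∑ a ∈ S, c a * w a p) := by
  intro q hq i j
  simp only []
  rw [← Finset.sum_sub_distrib]
  refine Finset.dvd_sum fun a ha => ?_
  rw [← mul_sub]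
  exact (h a ha q hq i j).mul_left _

open Classical in
lemma mem_XX {R : ℕ} {w : Pt s → ℤ} : w ∈ XX α K R ↔ (∀ p, |w p| ≤ (R : ℤ)) ∧ InL α K w := by
  unfold XX
  rw [Finset.mem_filter, Fintype.mem_piFinset]
  constructor
  · rintro ⟨h1, h2⟩
    exact ⟨fun p => abs_le.2 (Finset.mem_Icc.1 (h1 p)), h2⟩
  · rintro ⟨h1, h2⟩
    exact ⟨fun p => Finset.mem_Icc.2 (abs_le.1 (h1 p)), h2⟩

lemma cf_sum {P : Type} {n : ℕ} (A : Finset (P → ℤ)) (c : Fin n → ℤ) (w : Fin n → P → ℤ)
    (h : ∀ a, w a ∈ A) : cf (fun p => ∑ a, c a * w a p) ∈ VV A := by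
  have e : cf (fun p => ∑ a, c a * w a p) = ∑ a, (c a : ℚ) • cf (w a) := by
    funext p
    rw [Finset.sum_apply]
    unfold cf
    push_cast
    rfl
  rw [e]
  refine Submodule.sum_mem _ fun a _ => Submodule.smul_mem _ _ (Submodule.subset_span ?_)
  exact ⟨w a, h a, rfl⟩

lemma bound {P : Type} {n C B : ℕ} (c : Fin n → ℤ) (w : Fin n → P → ℤ) (hc : ∀ a, |c a| ≤ (C : ℤ))
    (hw : ∀ a p, |w a p| ≤ (B : ℤ)) (p : P) :
    |∑ a, c a * w a p| ≤ ((n * C * B : ℕ) : ℤ) := by
  refine (Finset.abs_sum_le_sum_abs _ _).trans ?_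
  have h : ∀ a ∈ (Finset.univ : Finset (Fin n)), |c a * w a p| ≤ (C : ℤ) * B := by
    intro a _
    rw [abs_mul]
    exact mul_le_mul (hc a) (hw a p) (abs_nonneg _) (Int.natCast_nonneg _)
  refine (Finset.sum_le_sum h).trans ?_
  rw [Finset.sum_const, Finset.card_univ, Fintype.card_fin, nsmul_eq_mul]
  push_cast
  rw [mul_assoc]

end T9

open T9 in
theorem pf_S9 (h7 : S7) : S9 := by
  classical
  intro s N L α K hN4 hNs Ta hTa
  set A := XX α K (N ^ L) with hA
  have h7' := h7 (Pt s) A ∅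
  generalize rk A = n at h7' ⊢
  obtain ⟨w, e, hw, he, hdet, -⟩ := h7'
  have hn2 : n ≤ 2 * s := by
    have := Fintype.card_le_of_injective e he
    rw [Fintype.card_fin, Fintype.card_sum, Fintype.card_fin] at this
    omega
  set C := Nat.sqrt N with hC
  have hC1 : 2 * s ≤ C := by
    rw [hC, Nat.le_sqrt']
    calc (2 * s) ^ 2 = 4 * s ^ 2 := by ring
      _ ≤ N := hNs
  have hC2 : C * C ≤ N := Nat.sqrt_le N
  have hC3 : N < (C + 1) ^ 2 := by
    have := Nat.lt_succ_sqrt N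
    rw [pow_two]
    exact this
  have hwb : ∀ a p, |w a p| ≤ ((N ^ L : ℕ) : ℤ) := fun a p => (mem_XX.1 (hw a)).1 p
  have hnC : n * C * N ^ L ≤ N ^ (L + 1) := by
    rw [pow_succ, mul_comm (N ^ L) N]
    refine Nat.mul_le_mul_right _ ?_
    exact (Nat.mul_le_mul_right _ (hn2.trans hC1)).trans hC2
  -- the combinations
  have hinj : Function.Injective (fun (c : Fin n → Fin (C + 1)) (p : Ta) =>
      ∑ a, ((c a : ℕ) : ℤ) * w a p) := by
    intro c c' hcc
    have h0 : (fun p : Pt s => ∑ a, (((c a : ℕ) : ℤ) - ((c' a : ℕ) : ℤ)) * w a p) = 0 := by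
      refine hTa _ ?_ ?_ ?_
      · rw [mem_XX]
        refine ⟨fun p => ?_, ?_⟩
        · refine (bound (C := C) (B := N ^ L) _ w ?_ hwb p).trans ?_
          · intro a
            have h1 : ((c a : ℕ) : ℤ) ≤ C := by exact_mod_cast Nat.lt_succ_iff.1 (c a).2
            have h2 : ((c' a : ℕ) : ℤ) ≤ C := by exact_mod_cast Nat.lt_succ_iff.1 (c' a).2
            have h3 : 0 ≤ ((c a : ℕ) : ℤ) := Int.natCast_nonneg _
            have h4 : 0 ≤ ((c' a : ℕ) : ℤ) := Int.natCast_nonneg _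
            rw [abs_le]
            constructor <;> linarith
          · exact_mod_cast hnC
        · exact inL_sum Finset.univ _ w fun a _ => (mem_XX.1 (hw a)).2
      · exact cf_sum A _ w hw
      · intro p hp
        have h1 := congrFun hcc ⟨p, hp⟩
        simp only [] at h1
        have h2 : ∀ a, (((c a : ℕ) : ℤ) - ((c' a : ℕ) : ℤ)) * w a p =
            ((c a : ℕ) : ℤ) * w a p - ((c' a : ℕ) : ℤ) * w a p := fun a => by ring
        simp only [h2, Finset.sum_sub_distrib]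
        exact sub_eq_zero.2 h1
    -- the determinant
    have h1 : Matrix.vecMul (fun a => ((c a : ℕ) : ℤ) - ((c' a : ℕ) : ℤ))
        (Matrix.of fun a b => w a (e b)) = 0 := by
      funext b
      have h2 := congrFun h0 (e b)
      exact h2
    have h2 := Matrix.eq_zero_of_vecMul_eq_zero hdet h1
    funext a
    have h3 := congrFun h2 a
    simp only [Pi.zero_apply] at h3
    have h4 : ((c a : ℕ) : ℤ) = ((c' a : ℕ) : ℤ) := by linarith
    exact Fin.ext (by exact_mod_cast h4)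
  have hcard : (C + 1) ^ n ≤ (2 * N ^ (L + 1) + 1) ^ Ta.card := by
    have h1 := Finset.card_le_card_of_injOn (s := (Finset.univ : Finset (Fin n → Fin (C + 1))))
      (t := Fintype.piFinset fun _ : Ta =>
        Finset.Icc (-((N ^ (L + 1) : ℕ) : ℤ)) ((N ^ (L + 1) : ℕ) : ℤ))
      (fun (c : Fin n → Fin (C + 1)) (p : Ta) => ∑ a, ((c a : ℕ) : ℤ) * w a p) ?_ hinj.injOn
    · rw [Finset.card_univ, Fintype.card_fun, Fintype.card_fin, Fintype.card_fin,
        Fintype.card_piFinset, Finset.prod_const, Finset.card_univ, Int.card_Icc,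
        Fintype.card_coe] at h1
      refine h1.trans (Nat.pow_le_pow_left ?_ _)
      omega
    · intro c _
      rw [Finset.mem_coe, Fintype.mem_piFinset]
      intro p
      rw [Finset.mem_Icc]
      apply abs_le.1
      refine (bound (C := C) (B := N ^ L) _ w ?_ hwb p).trans ?_
      · intro a
        have h1 : ((c a : ℕ) : ℤ) ≤ C := by exact_mod_cast Nat.lt_succ_iff.1 (c a).2
        rw [abs_of_nonneg (Int.natCast_nonneg _)]
        exact h1
      · exact_mod_cast hnC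
  have h1 : 2 * N ^ (L + 1) + 1 ≤ N ^ (L + 2) := by
    have h2 : 1 ≤ N ^ (L + 1) := Nat.one_le_pow _ _ (by omega)
    calc 2 * N ^ (L + 1) + 1 ≤ N ^ (L + 1) * 4 := by omega
      _ ≤ N ^ (L + 1) * N := Nat.mul_le_mul_left _ hN4
      _ = _ := (pow_succ N (L + 1)).symm
  have h2 : N ^ n ≤ N ^ (2 * (L + 2) * Ta.card) := by
    calc N ^ n ≤ ((C + 1) ^ 2) ^ n := Nat.pow_le_pow_left hC3.le _
      _ = ((C + 1) ^ n) ^ 2 := by rw [← pow_mul, ← pow_mul, mul_comm]
      _ ≤ ((N ^ (L + 2)) ^ Ta.card) ^ 2 :=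
          Nat.pow_le_pow_left (hcard.trans (Nat.pow_le_pow_left h1 _)) _
      _ = _ := by rw [← pow_mul, ← pow_mul]; congr 1; ring
  exact (Nat.pow_le_pow_iff_right (by omega)).1 h2

end Pool.Agent.H472.VP
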