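import Pool.Agent.H472.VP.Asm
import Pool.Agent.H472.VP.Pf1
import Pool.Agent.H472.VP.Pf2
import Pool.Agent.H472.VP.Pf3
import Pool.Agent.H472.VP.Pf4
import Pool.Agent.H472.VP.Pf5
import Pool.Agent.H472.VP.Pf6
import Pool.Agent.H472.VP.Pf7
import Pool.Agent.H472.VP.Pf8
import Pool.Agent.H472.VP.Pf9
import Pool.Agent.H472.VP.Pf10
import Pool.Agent.H472.VP.Pf11
import Pool.Agent.H472.VP.Pf12
import Pool.Agent.H472.VP.Pf13
import Pool.Agent.H472.VP.Pf14
import Pool.Agent.H472.VP.Pf15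
import Pool.Agent.H472.VP.Pf16

/-! All steps together. -/

set_option autoImplicit false

namespace Pool.Agent.H472.VP

theorem main14 : S14 := by
  have h7 := pf_S7
  have h9 := pf_S9 h7
  have h8 := pf_S8 h7
  have h5 := pf_S5 pf_S3 pf_S4
  have h10 := pf_S10 h5 pf_S6 h7 h9
  have h2 := pf_S2 pf_S1
  exact pf_S14 (pf_S11 h2 h8 h10) pf_S12 pf_S13

end Pool.Agent.H472.VP
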