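import Pool.Agent.H472.VP.Stmts
import Pool.Graph.R_pool_sql_team_seeded_ab47071d.TH900.VPC.Asm

/-! S15: from the core statement to the number of solutions of Vinogradov's system. -/

set_option autoImplicit false

namespace Pool.Agent.H472.VP.T15

open Finset
open Pool.Agent.W89.VP (ds NEWTStm VINFStm)

/-- `|x_i - y_j|` -/
def dd {s : ℕ} (x y : Fin s → ℕ) (i j : Fin s) : ℕ := ((x i : ℤ) - (y j : ℤ)).natAbs

/-- exponents -/
noncomputable def al {s : ℕ} (x y : Fin s → ℕ) (q : ℕ) (i j : Fin s) : ℕ :=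
  (dd x y i j).factorization q

/-- solutions -/
def Sol (k N : ℕ) (x y : Fin (k + 1) → ℕ) : Prop :=
  ((∀ i, 1 ≤ x i ∧ x i ≤ N) ∧ (∀ i, 1 ≤ y i ∧ y i ≤ N)) ∧
  (∀ j : Fin k, ∑ i, x i ^ (j.val + 1) = ∑ i, y i ^ (j.val + 1)) ∧ ∀ i j, x i ≠ y j

lemma dd_comm {s : ℕ} (x y : Fin s → ℕ) (i j : Fin s) : dd x y i j = dd y x j i := by
  unfold dd; omega

lemma dd_ds {s : ℕ} (x y : Fin s → ℕ) (i j : Fin s) : ds (y j) (x i) = dd x y i j := by
  unfold dd ds; omega

lemma dd_pos {k N : ℕ} {x y : Fin (k + 1) → ℕ} (h : Sol k N x y) (i j : Fin (k + 1)) :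
    dd x y i j ≠ 0 := by
  have := h.2.2 i j
  unfold dd; omega

lemma dd_le {k N : ℕ} {x y : Fin (k + 1) → ℕ} (h : Sol k N x y) (i j : Fin (k + 1)) :
    dd x y i j ≤ N := by
  have h1 := h.1.1 i
  have h2 := h.1.2 j
  unfold dd; omega

lemma exists_cst {k N : ℕ} {x y : Fin (k + 1) → ℕ} (h : Sol k N x y) :
    ∃ c : ℕ, c ≠ 0 ∧ (∀ i, ∏ j, dd x y i j = c) ∧ (∀ j, ∏ i, dd x y i j = c) := by
  obtain ⟨c, hc⟩ := Pool.Agent.TH900.VPC.row_const Pool.Agent.W346.PV.Newt.main k x y h.2.1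
  obtain ⟨c', hc'⟩ := Pool.Agent.TH900.VPC.row_const Pool.Agent.W346.PV.Newt.main k y x
    (fun j => (h.2.1 j).symm)
  have e1 : ∀ i, ∏ j, dd x y i j = c := by
    intro i
    rw [← hc i]
    exact Finset.prod_congr rfl (fun j _ => (dd_ds x y i j).symm)
  have e2 : ∀ j, ∏ i, dd x y i j = c' := by
    intro j
    rw [← hc' j]
    refine Finset.prod_congr rfl (fun i _ => ?_)
    rw [dd_comm]
    exact (dd_ds y x j i).symm
  have e3 : c ^ (k + 1) = c' ^ (k + 1) := by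
    have h1 : ∏ i : Fin (k + 1), ∏ j : Fin (k + 1), dd x y i j = c ^ (k + 1) := by
      rw [Finset.prod_congr rfl (fun i _ => e1 i)]
      simp
    have h2 : ∏ j : Fin (k + 1), ∏ i : Fin (k + 1), dd x y i j = c' ^ (k + 1) := by
      rw [Finset.prod_congr rfl (fun i _ => e2 i)]
      simp
    rw [← h1, ← h2, Finset.prod_comm]
  have e4 : c = c' := Nat.pow_left_injective (by omega : k + 1 ≠ 0) e3
  subst e4
  refine ⟨c, ?_, e1, e2⟩
  rw [← e1 0]
  exact Finset.prod_ne_zero_iff.2 (fun j _ => dd_pos h 0 j)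

/-- the data attached to a solution -/
lemma exists_dat {k N : ℕ} {x y : Fin (k + 1) → ℕ} (h : Sol k N x y) :
    ∃ D : Dat (k + 1) N, D.α = al x y ∧ ∀ i j, (dd x y i j).primeFactors ⊆ D.Q := by
  obtain ⟨c, hc0, hr, hc⟩ := exists_cst h
  have hsub : ∀ i j, (dd x y i j).primeFactors ⊆ c.primeFactors := by
    intro i j
    apply Nat.primeFactors_mono _ hc0
    rw [← hr i]
    exact Finset.dvd_prod_of_mem _ (Finset.mem_univ j)
  refine ⟨⟨c.primeFactors, al x y, fun q => c.factorization q, fun q hq => Nat.prime_of_mem_primeFactors hq,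
    ?_, ?_, ?_, ?_⟩, rfl, hsub⟩
  · intro q _ i
    rw [← hr i, Nat.factorization_prod (fun j _ => dd_pos h i j)]
    simp [al, Finsupp.finsetSum_apply]
  · intro q _ j
    rw [← hc j, Nat.factorization_prod (fun i _ => dd_pos h i j)]
    simp [al, Finsupp.finsetSum_apply]
  · intro q hq
    have h1 := Nat.prime_of_mem_primeFactors hq
    exact (h1.dvd_iff_one_le_factorization hc0).1 (Nat.dvd_of_mem_primeFactors hq)
  · intro i j
    have h1 : ∏ q ∈ c.primeFactors, q ^ (dd x y i j).factorization q = dd x y i j := by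
      conv_rhs => rw [← Nat.prod_factorization_pow_eq_self (dd_pos h i j)]
      rw [Finsupp.prod, Nat.support_factorization]
      symm
      apply Finset.prod_subset (hsub i j)
      intro q _ hq
      rw [Finsupp.notMem_support_iff.1 (by rw [Nat.support_factorization]; exact hq), pow_zero]
    change ∏ q ∈ c.primeFactors, q ^ (dd x y i j).factorization q ≤ N
    rw [h1]
    exact dd_le h i j


/-- what `Core` gives for a solution -/
lemma exists_code {k κ N0 N : ℕ} (hC : Core (k + 1) κ N0) (hN : N0 ≤ N)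
    {x y : Fin (k + 1) → ℕ} (h : Sol k N x y) :
    ∃ (K : Finset ℕ) (j0 : Fin (k + 1)) (E : Finset (Fin (k + 1) × Fin (k + 1))),
      (∀ q ∈ K, q.Prime) ∧ ∏ q ∈ K, q ≤ N ^ κ ∧
      (∀ p ∈ E, ∏ q ∈ K, q ^ al x y q p.1 p.2 = dd x y p.1 p.2) ∧
      ∀ w ∈ XX (al x y) K N, w (Sum.inr j0) = 0 →
        (∀ p ∈ E, w (Sum.inl p.1) = w (Sum.inr p.2)) → w = 0 := by
  obtain ⟨D, hα, hQ⟩ := exists_dat h
  obtain ⟨K, j0, E, hK, hKN, hE, hw⟩ := hC N hN D
  rw [hα] at hE hw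
  refine ⟨K, j0, E, fun q hq => D.prime q (hK hq), hKN, ?_, hw⟩
  intro p hp
  have h0 := dd_pos h p.1 p.2
  have hsub : (dd x y p.1 p.2).primeFactors ⊆ K := by
    intro q hq
    by_contra hqK
    have h1 := hE p hp q (Finset.mem_sdiff.2 ⟨hQ p.1 p.2 hq, hqK⟩)
    have h2 := (Nat.prime_of_mem_primeFactors hq).dvd_iff_one_le_factorization h0 |>.1
      (Nat.dvd_of_mem_primeFactors hq)
    unfold al at h1
    omega
  conv_rhs => rw [← Nat.prod_factorization_pow_eq_self h0]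
  rw [Finsupp.prod, Nat.support_factorization]
  symm
  apply Finset.prod_subset hsub
  intro q _ hq
  rw [Finsupp.notMem_support_iff.1 (by rw [Nat.support_factorization]; exact hq), pow_zero]

/-- the type of codes -/
abbrev Code (s : ℕ) : Type :=
  ℕ × (Fin s × (Finset (Fin s × Fin s) × (ℕ × ((Fin s × Fin s → Bool) × (Fin s × Fin s → ℕ)))))

/-- the code of a pair of tuples, given the choice of `K, j0, E` -/
noncomputable def code {s : ℕ} (x y : Fin s → ℕ) (K : Finset ℕ) (j0 : Fin s)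
    (E : Finset (Fin s × Fin s)) : Code s :=
  (∏ q ∈ K, q, j0, E, y j0, fun p => decide (x p.1 ≤ y p.2), fun p => ∏ q ∈ K, q ^ al x y q p.1 p.2)

lemma primeFactors_prod_primes {K : Finset ℕ} (hK : ∀ q ∈ K, q.Prime) :
    (∏ q ∈ K, q).primeFactors = K := Nat.primeFactors_prod hK

lemma fact_prod_pow {K : Finset ℕ} (hK : ∀ q ∈ K, q.Prime) (e : ℕ → ℕ) {q : ℕ} (hq : q ∈ K) :
    (∏ r ∈ K, r ^ e r).factorization q = e q := by
  rw [Nat.factorization_prod (fun r hr => pow_ne_zero _ (hK r hr).ne_zero)]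
  rw [Finsupp.finsetSum_apply, Finset.sum_eq_single q]
  · rw [Nat.Prime.factorization_pow (hK q hq)]; simp
  · intro r hr hrq
    rw [Nat.Prime.factorization_pow (hK r hr)]
    simp [hrq]
  · intro h; exact absurd hq h

lemma mem_XX {s : ℕ} {α : ℕ → Fin s → Fin s → ℕ} {K : Finset ℕ} {R : ℕ} {w : Pt s → ℤ} :
    w ∈ XX α K R ↔ (∀ p, w p ∈ Finset.Icc (-(R : ℤ)) (R : ℤ)) ∧ InL α K w := by
  classical
  unfold XX
  rw [Finset.mem_filter, Fintype.mem_piFinset]

lemma code_inj {k N : ℕ} {x y x' y' : Fin (k + 1) → ℕ} (h : Sol k N x y) (h' : Sol k N x' y')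
    {K K' : Finset ℕ} {j0 j0' : Fin (k + 1)} {E E' : Finset (Fin (k + 1) × Fin (k + 1))}
    (hK : ∀ q ∈ K, q.Prime) (hK' : ∀ q ∈ K', q.Prime)
    (hE : ∀ p ∈ E, ∏ q ∈ K, q ^ al x y q p.1 p.2 = dd x y p.1 p.2)
    (hE' : ∀ p ∈ E', ∏ q ∈ K', q ^ al x' y' q p.1 p.2 = dd x' y' p.1 p.2)
    (hw : ∀ w ∈ XX (al x y) K N, w (Sum.inr j0) = 0 →
        (∀ p ∈ E, w (Sum.inl p.1) = w (Sum.inr p.2)) → w = 0)
    (hc : code x y K j0 E = code x' y' K' j0' E') : x = x' ∧ y = y' := by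
  simp only [code, Prod.mk.injEq] at hc
  obtain ⟨c1, c2, c3, c4, c5, c6⟩ := hc
  have hKK : K = K' := by
    rw [← primeFactors_prod_primes hK, c1, primeFactors_prod_primes hK']
  subst hKK
  subst c2
  subst c3
  have hal : ∀ q ∈ K, ∀ i j, al x y q i j = al x' y' q i j := by
    intro q hq i j
    have h1 := congrFun c6 (i, j)
    simp only at h1
    rw [← fact_prod_pow hK (fun q => al x y q i j) hq, h1,
      fact_prod_pow hK (fun q => al x' y' q i j) hq]
  have hdv : ∀ (x y : Fin (k + 1) → ℕ) (q : ℕ) (i j : Fin (k + 1)),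
      ((q : ℤ) ^ al x y q i j) ∣ (x i : ℤ) - y j := by
    intro x y q i j
    have h1 : q ^ al x y q i j ∣ dd x y i j := Nat.ordProj_dvd _ _
    have h2 : ((q ^ al x y q i j : ℕ) : ℤ) ∣ (dd x y i j : ℤ) := Int.natCast_dvd_natCast.2 h1
    rw [Nat.cast_pow] at h2
    exact h2.trans (Int.natAbs_dvd.2 (dvd_refl _))
  set w : Pt (k + 1) → ℤ := Sum.elim (fun i => (x i : ℤ) - x' i) (fun j => (y j : ℤ) - y' j) with hwdef
  have hw0 : w = 0 := by
    apply hw w
    · refine mem_XX.2 ⟨?_, ?_⟩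
      · intro p
        rw [Finset.mem_Icc]
        rcases p with i | j
        · have h1 := h.1.1 i
          have h2 := h'.1.1 i
          simp only [hwdef, Sum.elim_inl]
          omega
        · have h1 := h.1.2 j
          have h2 := h'.1.2 j
          simp only [hwdef, Sum.elim_inr]
          omega
      · intro q hq i j
        simp only [hwdef, Sum.elim_inl, Sum.elim_inr]
        have h1 := hdv x y q i j
        have h2 := hdv x' y' q i j
        rw [← hal q hq i j] at h2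
        have h3 := dvd_sub h1 h2
        have h4 : ((x i : ℤ) - x' i) - (y j - y' j) = (x i - y j) - (x' i - y' j) := by ring
        rw [h4]
        exact h3
    · simp only [hwdef, Sum.elim_inr]
      omega
    · intro p hp
      simp only [hwdef, Sum.elim_inl, Sum.elim_inr]
      have h1 := hE p hp
      have h2 := hE' p hp
      have h3 := congrFun c6 p
      rw [h1, h2] at h3
      have h4 := congrFun c5 p
      simp only [decide_eq_decide] at h4
      have h5 := h.2.2 p.1 p.2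
      have h6 := h'.2.2 p.1 p.2
      unfold dd at h3
      by_cases h7 : x p.1 ≤ y p.2
      · have h8 := h4.1 h7
        omega
      · have h8 : ¬ x' p.1 ≤ y' p.2 := fun h => h7 (h4.2 h)
        omega
  constructor
  · funext i
    have h1 := congrFun hw0 (Sum.inl i)
    simp only [hwdef, Sum.elim_inl, Pi.zero_apply] at h1
    omega
  · funext i
    have h1 := congrFun hw0 (Sum.inr i)
    simp only [hwdef, Sum.elim_inr, Pi.zero_apply] at h1
    omega


/-- numbers up to `N` composed of primes dividing `V` -/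
def GG (N V : ℕ) : Finset ℕ := (Finset.Icc 1 N).filter (fun u => ∀ p ∈ u.primeFactors, p ∣ V)

open Classical in
/-- the set of possible codes -/
noncomputable def CS (s N κ : ℕ) : Finset (Code s) :=
  (Finset.Icc 1 (N ^ κ)).biUnion (fun V => ({V} : Finset ℕ) ×ˢ ((univ : Finset (Fin s)) ×ˢ
    ((univ : Finset (Finset (Fin s × Fin s))) ×ˢ (Finset.Icc 1 N ×ˢ
      ((univ : Finset (Fin s × Fin s → Bool)) ×ˢ
        Fintype.piFinset (fun _ : Fin s × Fin s => GG N V))))))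

lemma code_mem {k κ N : ℕ} {x y : Fin (k + 1) → ℕ} (h : Sol k N x y)
    {K : Finset ℕ} {j0 : Fin (k + 1)} {E : Finset (Fin (k + 1) × Fin (k + 1))}
    (hK : ∀ q ∈ K, q.Prime) (hKN : ∏ q ∈ K, q ≤ N ^ κ) :
    code x y K j0 E ∈ CS (k + 1) N κ := by
  classical
  have hV1 : 1 ≤ ∏ q ∈ K, q := Finset.prod_pos (fun q hq => (hK q hq).pos)
  unfold CS code
  rw [Finset.mem_biUnion]
  refine ⟨∏ q ∈ K, q, Finset.mem_Icc.2 ⟨hV1, hKN⟩, ?_⟩
  simp only [Finset.mem_product, Finset.mem_singleton, Finset.mem_univ, true_and,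
    Fintype.mem_piFinset]
  refine ⟨Finset.mem_Icc.2 (h.1.2 j0), ?_⟩
  intro p
  have h0 := dd_pos h p.1 p.2
  have hm0 : ∏ q ∈ K, q ^ al x y q p.1 p.2 ≠ 0 :=
    Finset.prod_ne_zero_iff.2 (fun q hq => pow_ne_zero _ (hK q hq).ne_zero)
  have hdvd : ∏ q ∈ K, q ^ al x y q p.1 p.2 ∣ dd x y p.1 p.2 := by
    have e1 : ∏ q ∈ K ∪ (dd x y p.1 p.2).primeFactors, q ^ al x y q p.1 p.2 = dd x y p.1 p.2 := by
      conv_rhs => rw [← Nat.prod_factorization_pow_eq_self h0]
      rw [Finsupp.prod, Nat.support_factorization]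
      symm
      apply Finset.prod_subset Finset.subset_union_right
      intro q _ hq
      rw [Finsupp.notMem_support_iff.1 (by rw [Nat.support_factorization]; exact hq), pow_zero]
    calc ∏ q ∈ K, q ^ al x y q p.1 p.2 ∣
        ∏ q ∈ K ∪ (dd x y p.1 p.2).primeFactors, q ^ al x y q p.1 p.2 :=
          Finset.prod_dvd_prod_of_subset _ _ _ Finset.subset_union_left
      _ = dd x y p.1 p.2 := e1
  unfold GG
  rw [Finset.mem_filter, Finset.mem_Icc]
  refine ⟨⟨Nat.one_le_iff_ne_zero.2 hm0, (Nat.le_of_dvd (Nat.pos_of_ne_zero h0) hdvd).trans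
    (dd_le h p.1 p.2)⟩, ?_⟩
  intro r hr
  have hrp := Nat.prime_of_mem_primeFactors hr
  have hrd := Nat.dvd_of_mem_primeFactors hr
  obtain ⟨q, hq, hrq⟩ := (Prime.dvd_finsetProd_iff hrp.prime _).1 hrd
  have h1 := hrp.dvd_of_dvd_pow hrq
  have h2 : r = q := (Nat.prime_dvd_prime_iff_eq hrp (hK q hq)).1 h1
  subst h2
  exact Finset.dvd_prod_of_mem (fun q => q) hq

lemma card_CS (s N κ : ℕ) (B : ℝ) (hB : 0 ≤ B)
    (hG : ∀ V, 1 ≤ V → V ≤ N ^ κ → ((GG N V).card : ℝ) ≤ B) :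
    ((CS s N κ).card : ℝ) ≤ (N : ℝ) ^ κ * (s * (2 ^ (s * s) * (N * (2 ^ (s * s) * B ^ (s * s))))) := by
  classical
  unfold CS
  have h1 : (((Finset.Icc 1 (N ^ κ)).biUnion (fun V => ({V} : Finset ℕ) ×ˢ ((univ : Finset (Fin s)) ×ˢ
    ((univ : Finset (Finset (Fin s × Fin s))) ×ˢ (Finset.Icc 1 N ×ˢ
      ((univ : Finset (Fin s × Fin s → Bool)) ×ˢ
        Fintype.piFinset (fun _ : Fin s × Fin s => GG N V))))))).card : ℝ) ≤
      ∑ V ∈ Finset.Icc 1 (N ^ κ), ((({V} : Finset ℕ) ×ˢ ((univ : Finset (Fin s)) ×ˢ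
    ((univ : Finset (Finset (Fin s × Fin s))) ×ˢ (Finset.Icc 1 N ×ˢ
      ((univ : Finset (Fin s × Fin s → Bool)) ×ˢ
        Fintype.piFinset (fun _ : Fin s × Fin s => GG N V)))))).card : ℝ) := by
    exact_mod_cast Finset.card_biUnion_le
  refine h1.trans ?_
  have h2 : ∀ V ∈ Finset.Icc 1 (N ^ κ), ((({V} : Finset ℕ) ×ˢ ((univ : Finset (Fin s)) ×ˢ
    ((univ : Finset (Finset (Fin s × Fin s))) ×ˢ (Finset.Icc 1 N ×ˢ
      ((univ : Finset (Fin s × Fin s → Bool)) ×ˢ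
        Fintype.piFinset (fun _ : Fin s × Fin s => GG N V)))))).card : ℝ) ≤
      s * (2 ^ (s * s) * (N * (2 ^ (s * s) * B ^ (s * s)))) := by
    intro V hV
    rw [Finset.mem_Icc] at hV
    have h3 := hG V hV.1 hV.2
    have h4 : ((({V} : Finset ℕ) ×ˢ ((univ : Finset (Fin s)) ×ˢ
    ((univ : Finset (Finset (Fin s × Fin s))) ×ˢ (Finset.Icc 1 N ×ˢ
      ((univ : Finset (Fin s × Fin s → Bool)) ×ˢ
        Fintype.piFinset (fun _ : Fin s × Fin s => GG N V)))))).card) =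
        s * (2 ^ (s * s) * (N * (2 ^ (s * s) * (GG N V).card ^ (s * s)))) := by
      simp [Finset.card_product, Fintype.card_piFinset]
    rw [h4]
    push_cast
    gcongr
  refine (Finset.sum_le_sum h2).trans ?_
  rw [Finset.sum_const, nsmul_eq_mul, Nat.card_Icc]
  have h5 : ((N ^ κ + 1 - 1 : ℕ) : ℝ) = (N : ℝ) ^ κ := by
    rw [Nat.add_sub_cancel]; push_cast; rfl
  rw [h5]

end Pool.Agent.H472.VP.T15

namespace Pool.Agent.H472.VP

open Finset Pool.Agent.H472.VP.T15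

theorem pf_S15 : S15 := by
  classical
  intro k κ N0 hC
  have hDIV := Pool.Agent.W505.PV.VF.mainDIV
  have hs0 : (0 : ℝ) < (((k + 1) * (k + 1) : ℕ) : ℝ) := by positivity
  obtain ⟨C1, hC1, hV⟩ := Pool.Agent.W505.PV.Vinf.main hDIV κ (1 / (((k + 1) * (k + 1) : ℕ) : ℝ))
    (by positivity)
  set s : ℕ := k + 1 with hs
  refine ⟨(s : ℝ) * (2 ^ (s * s) * (2 ^ (s * s) * C1 ^ (s * s))) + (N0 : ℝ) ^ (s + s) + 1, by positivity, ?_⟩
  intro N hN1
  have hNr : (1 : ℝ) ≤ N := by exact_mod_cast hN1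
  have hN0 : (0 : ℝ) < N := by linarith
  have hpow1 : (1 : ℝ) ≤ (N : ℝ) ^ (κ + 2) := one_le_pow₀ hNr
  set S := ((((Fintype.piFinset fun _ : Fin (k + 1) => Finset.Icc 1 N) ×ˢ
      (Fintype.piFinset fun _ : Fin (k + 1) => Finset.Icc 1 N)).filter
    (fun p : (Fin (k + 1) → ℕ) × (Fin (k + 1) → ℕ) =>
      ∀ j : Fin k, ∑ i : Fin (k + 1), p.1 i ^ (j.val + 1) =
        ∑ i : Fin (k + 1), p.2 i ^ (j.val + 1))).filter
    (fun p => ∀ i j, p.1 i ≠ p.2 j)) with hS
  have hmem : ∀ p ∈ S, Sol k N p.1 p.2 := by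
    intro p hp
    rw [hS, Finset.mem_filter, Finset.mem_filter, Finset.mem_product, Fintype.mem_piFinset,
      Fintype.mem_piFinset] at hp
    exact ⟨⟨fun i => Finset.mem_Icc.1 (hp.1.1.1 i), fun i => Finset.mem_Icc.1 (hp.1.1.2 i)⟩,
      hp.1.2, hp.2⟩
  by_cases hlt : N < N0
  · have h1 : S.card ≤ N ^ s * N ^ s := by
      rw [hS]
      refine (Finset.card_filter_le _ _).trans ((Finset.card_filter_le _ _).trans ?_)
      rw [Finset.card_product, Fintype.card_piFinset]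
      simp [hs]
    have h2 : (S.card : ℝ) ≤ (N0 : ℝ) ^ (s + s) := by
      have h3 : N ^ s * N ^ s ≤ N0 ^ (s + s) := by
        rw [← pow_add]
        exact Nat.pow_le_pow_left hlt.le _
      exact_mod_cast h1.trans h3
    calc (S.card : ℝ) ≤ (N0 : ℝ) ^ (s + s) := h2
      _ ≤ (s : ℝ) * (2 ^ (s * s) * (2 ^ (s * s) * C1 ^ (s * s))) + (N0 : ℝ) ^ (s + s) + 1 := by
          have : (0 : ℝ) ≤ (s : ℝ) * (2 ^ (s * s) * (2 ^ (s * s) * C1 ^ (s * s))) := by positivity
          linarith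
      _ ≤ _ := le_mul_of_one_le_right (by positivity) hpow1
  · push Not at hlt
    have hex : ∀ p : (Fin (k + 1) → ℕ) × (Fin (k + 1) → ℕ),
        ∃ g : Finset ℕ × (Fin (k + 1) × Finset (Fin (k + 1) × Fin (k + 1))),
          p ∈ S → (∀ q ∈ g.1, q.Prime) ∧ ∏ q ∈ g.1, q ≤ N ^ κ ∧
            (∀ r ∈ g.2.2, ∏ q ∈ g.1, q ^ al p.1 p.2 q r.1 r.2 = dd p.1 p.2 r.1 r.2) ∧
            ∀ w ∈ XX (al p.1 p.2) g.1 N, w (Sum.inr g.2.1) = 0 →
              (∀ r ∈ g.2.2, w (Sum.inl r.1) = w (Sum.inr r.2)) → w = 0 := by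
      intro p
      by_cases hp : p ∈ S
      · obtain ⟨K, j0, E, h1, h2, h3, h4⟩ := exists_code hC hlt (hmem p hp)
        exact ⟨(K, j0, E), fun _ => ⟨h1, h2, h3, h4⟩⟩
      · exact ⟨(∅, 0, ∅), fun h => absurd h hp⟩
    choose g hg using hex
    have hcard : S.card ≤ (CS s N κ).card := by
      apply Finset.card_le_card_of_injOn (fun p => code p.1 p.2 (g p).1 (g p).2.1 (g p).2.2)
      · intro p hp
        have h1 := hg p hp
        exact code_mem (hmem p hp) h1.1 h1.2.1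
      · intro p hp p' hp' hpp
        have h1 := hg p hp
        have h2 := hg p' hp'
        have h3 := code_inj (hmem p hp) (hmem p' hp') h1.1 h2.1 h1.2.2.1 h2.2.2.1 h1.2.2.2 hpp
        exact Prod.ext h3.1 h3.2
    have hG : ∀ V, 1 ≤ V → V ≤ N ^ κ →
        ((GG N V).card : ℝ) ≤ C1 * (N : ℝ) ^ (1 / (((k + 1) * (k + 1) : ℕ) : ℝ)) := by
      intro V h1 h2
      exact hV N V hN1 h1 h2
    have h1 := card_CS s N κ _ (by positivity) hG
    have h2 : (C1 * (N : ℝ) ^ (1 / (((k + 1) * (k + 1) : ℕ) : ℝ))) ^ (s * s) = C1 ^ (s * s) * N := by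
      rw [mul_pow, ← Real.rpow_natCast ((N : ℝ) ^ (1 / (((k + 1) * (k + 1) : ℕ) : ℝ))),
        ← Real.rpow_mul hN0.le, hs, one_div_mul_cancel hs0.ne', Real.rpow_one]
    rw [h2] at h1
    calc (S.card : ℝ) ≤ ((CS s N κ).card : ℝ) := by exact_mod_cast hcard
      _ ≤ _ := h1
      _ = ((s : ℝ) * (2 ^ (s * s) * (2 ^ (s * s) * C1 ^ (s * s)))) * (N : ℝ) ^ (κ + 2) := by
          rw [pow_add]; ring
      _ ≤ _ := by
          apply mul_le_mul_of_nonneg_right _ (by positivity)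
          have : (0 : ℝ) ≤ (N0 : ℝ) ^ (s + s) := by positivity
          linarith

end Pool.Agent.H472.VP
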